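import Pool.Agent.Lib.MP_a94b90_nt.ES.Stmt

/-! ES row 25: the dead proportion in a block of levels. -/

namespace ExOrd
open Set

namespace SBlock

/-- a gap node whose ancestor is alive and has no close pair of violations. -/
def Gd (c : ℝ) (k j p : ℕ) : Prop :=
  ∃ i, j = i + k ∧ Alive c i (p / 8 ^ k) ∧ ¬ CloseN c k i (p / 8 ^ k) ∧
    ∃ a b d : ℤ, Prim a b d ∧ ∀ x ∈ Node j p, ViolN c i x a b d ∧ 0 < Dv a b x

theorem viol {c x : ℝ} {i : ℕ} {a b d : ℤ} (h : ViolN c i x a b d) : x ∉ KS c := by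
  intro hx
  refine absurd (hx.2 a b d ?_) (not_le.2 h.2.2)
  rintro ⟨rfl, rfl, -⟩
  have h1 := h.1
  have h2 := P_pos (i - 1)
  simp only [Nh, Int.natAbs_zero, add_zero, max_self, Nat.cast_zero] at h1
  linarith

theorem dead {c : ℝ} {k j p : ℕ} (h : Gd c k j p) : ¬ Alive c j p := by
  obtain ⟨i, -, -, -, a, b, d, -, h1⟩ := h
  rintro ⟨x, h2, h3⟩
  exact viol (h1 x h2).1 h3

theorem sub' {j j' p : ℕ} (h : j ≤ j') : Node j' p ⊆ Node j (p / 8 ^ (j' - j)) := by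
  have := node_sub j (j' - j) p
  rwa [Nat.add_sub_cancel' h] at this

theorem nest {c : ℝ} {k j p j' p' : ℕ} (h : Gd c k j p) (h' : Gd c k j' p') (hj : j ≤ j')
    (hp : p' / 8 ^ (j' - j) = p) : j = j' := by
  by_contra hne
  have hd := dead h
  obtain ⟨i, rfl, -, -, a, b, d, h3, h4⟩ := h
  obtain ⟨i', rfl, g1, g2, a', b', d', g3, g4⟩ := h'
  rcases le_or_gt (i + k) i' with c1 | c1
  · obtain ⟨x, x1, x2⟩ := g1
    refine hd ⟨x, ?_, x2⟩
    have := sub' c1 x1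
    rwa [Nat.div_div_eq_div_mul, ← pow_add, show k + (i' - (i + k)) = i' + k - (i + k) by omega,
      hp] at this
  · have x1 := node_left (i' + k) p'
    have x2 := sub' hj x1
    rw [hp] at x2
    obtain ⟨v1, v2⟩ := h4 _ x2
    obtain ⟨w1, w2⟩ := g4 _ x1
    by_cases c2 : Indep a b d a' b' d'
    · exact g2 ⟨_, node_sub i' k p' x1, i, a, b, d, a', b', d', by omega, c1.le, v1, w1, c2⟩
    · obtain ⟨rfl, rfl, rfl⟩ := prim_eq h3 g3 c2 v2 w2
      have := lt_of_P_lt (w1.1.trans_le v1.2.1)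
      omega

theorem P8 {j M : ℕ} (h : j ≤ M) : P (3 * M - 3 * j) = 8 ^ (M - j) := by
  rw [show (3 * M - 3 * j : ℤ) = (3 * (M - j) : ℕ) by omega, P_nat, pow_mul]
  norm_num

theorem fib (G Al : ℕ → ℕ → Prop) {m A b j : ℕ} (h1 : m ≤ b) (h2 : b ≤ j) :
    ∑ B ∈ alv Al m A b, (alv G b B j).card ≤ (alv G m A j).card := by
  classical
  rw [← Finset.card_biUnion]
  · refine Finset.card_le_card fun p hp => ?_
    obtain ⟨B, hB, hp⟩ := Finset.mem_biUnion.1 hp
    unfold alv at *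
    simp only [Finset.mem_filter, mem_desc] at *
    refine ⟨?_, hp.2⟩
    rw [← hB.1, ← hp.1, Nat.div_div_eq_div_mul, ← pow_add]
    congr 2
    omega
  · intro B _ B' _ hne
    refine Finset.disjoint_left.2 fun p h h' => hne ?_
    unfold alv at *
    simp only [Finset.mem_filter, mem_desc] at *
    rw [← h.1, ← h'.1]

theorem flat (f : ℕ → ℝ) (W N : ℕ) :
    ∑ k ∈ Finset.range N, ∑ u ∈ Finset.range W, f (k * W + u) = ∑ t ∈ Finset.range (N * W), f t := by
  induction N with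
  | zero => simp
  | succ N ih => rw [Finset.sum_range_succ, ih, Nat.succ_mul, Finset.sum_range_add]

theorem big (Z : ℝ) : ∃ κ1 : ℕ, ∀ κ, κ1 ≤ κ → Z * κ ≤ P (κ / 3 : ℕ) := by
  obtain ⟨z, hz⟩ := exists_nat_ge Z
  refine ⟨36 * z + 6, fun κ h => ?_⟩
  have h1 : κ / 6 + 1 ≤ 2 ^ (κ / 6) := Nat.lt_two_pow_self
  have h2 : z * κ ≤ 2 ^ (κ / 3) := by
    calc z * κ ≤ z * (6 * (κ / 6 + 1)) := Nat.mul_le_mul_left _ (by omega)
      _ = (6 * z) * (κ / 6 + 1) := by ring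
      _ ≤ 2 ^ (κ / 6) * 2 ^ (κ / 6) := Nat.mul_le_mul (by omega) h1
      _ ≤ 2 ^ (κ / 3) := by rw [← pow_add]; exact Nat.pow_le_pow_right (by norm_num) (by omega)
  rw [P_nat]
  exact (mul_le_mul_of_nonneg_right hz (Nat.cast_nonneg _)).trans (by exact_mod_cast h2)

/-- the conclusion of `Lev` for fixed constants. -/
def LevAt (c ρ : ℝ) (κ k C1 : ℕ) : Prop :=
  ∀ (x0 : ℝ) (b i B : ℕ), x0 ∈ Node b B → x0 ∈ KS c → b + 8 * κ ≤ i → i + κ ≤ 2 * b →
    NoSp (2 * κ) b (i + κ) x0 → ρ * P (3 * (i + k : ℕ) - 3 * b) ≤ (alv (Gd c k) b B (i + k)).card +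
      ∑ b' ∈ Finset.Ico b i, ((pd (Alive c) b B b').card : ℝ) * P (3 * (i - b') + 2 * (κ / 3 : ℕ) + C1)

theorem stage (h2 : Free2Stmt) {c ρ : ℝ} {κ k C1 W b B M : ℕ} (hL : LevAt c ρ κ k C1) (hρ : 0 ≤ ρ)
    (hc : P (-κ) ≤ c) (hW : 16 * κ + 200 ≤ W) (hb : 4 * W ≤ b) (hk : κ / 3 ≤ k)
    (hM : b + 3 * W + k ≤ M) (hB : Alive c b B) :
    ((W : ℝ) - (4 * κ + 64)) * ρ * 8 ^ (M - b) ≤
      ∑ u ∈ Finset.range W, ((alv (Gd c k) b B (b + 2 * W + u + k)).card : ℝ) *
        8 ^ (M - (b + 2 * W + u + k)) + W * P (C1 - (κ / 3 : ℕ)) *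
        ∑ b' ∈ Finset.Ico b M, ((pd (Alive c) b B b').card : ℝ) * 8 ^ (M - b') := by
  classical
  obtain ⟨x, x1, x2⟩ := hB
  have hx : InK (2 * κ) x := KS.inK ((P_le (by omega)).trans hc) x2
  obtain ⟨f, hf⟩ := h2 (2 * κ) b W x hx (by omega)
  set R := ∑ b' ∈ Finset.Ico b M, ((pd (Alive c) b B b').card : ℝ) * 8 ^ (M - b') with hR
  have R0 : 0 ≤ R := Finset.sum_nonneg fun _ _ => by positivity
  have e0 := P_pos (C1 - (κ / 3 : ℕ))
  set S := (Finset.range W).filter fun u =>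
    b + 2 * W + u + κ < f ∨ f + 2 * (2 * κ) + 64 ≤ b + 2 * W + u + κ with hS
  have k1 : W ≤ S.card + (4 * κ + 64) := by
    have a1 := Finset.card_filter_add_card_filter_not (s := Finset.range W) fun u =>
      b + 2 * W + u + κ < f ∨ f + 2 * (2 * κ) + 64 ≤ b + 2 * W + u + κ
    have a2 : ((Finset.range W).filter fun u => ¬ (b + 2 * W + u + κ < f ∨
        f + 2 * (2 * κ) + 64 ≤ b + 2 * W + u + κ)).card ≤
        (Finset.Ico (f - (b + 2 * W + κ)) (f - (b + 2 * W + κ) + (4 * κ + 64))).card := by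
      refine Finset.card_le_card fun u hu => ?_
      simp only [Finset.mem_filter, Finset.mem_Ico] at *
      omega
    rw [Nat.card_Ico] at a2
    rw [Finset.card_range, ← hS] at a1
    omega
  have k2 : ∀ u ∈ S, ρ * 8 ^ (M - b) ≤ ((alv (Gd c k) b B (b + 2 * W + u + k)).card : ℝ) *
      8 ^ (M - (b + 2 * W + u + k)) + P (C1 - (κ / 3 : ℕ)) * R := by
    intro u hu
    obtain ⟨u1, u2⟩ := Finset.mem_filter.1 hu
    rw [Finset.mem_range] at u1
    have a1 := hL x b (b + 2 * W + u) B x1 x2 (by omega) (by omega)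
      (hf _ (by omega) (by omega) u2)
    have a2 := mul_le_mul_of_nonneg_right a1 (P_pos (3 * M - 3 * (b + 2 * W + u + k : ℕ))).le
    rw [mul_assoc, P_mul (c := 3 * M - 3 * b) (by ring), P8 (by omega), add_mul,
      P8 (by omega), ← P8 (j := b + 2 * W + u + k) (by omega), Finset.sum_mul] at a2
    rw [← P8 (j := b + 2 * W + u + k) (by omega)]
    refine a2.trans (add_le_add le_rfl ?_)
    rw [hR, Finset.mul_sum]
    refine (Finset.sum_le_sum fun b' hb' => ?_).trans (Finset.sum_le_sum_of_subset_of_nonneg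
      (Finset.Ico_subset_Ico_right (show b + 2 * W + u ≤ M by omega)) fun _ _ _ => by positivity)
    rw [Finset.mem_Ico] at hb'
    rw [← P8 (j := b') (by omega), mul_assoc, mul_left_comm (P (C1 - _)), ← P_add, ← P_add]
    exact mul_le_mul_of_nonneg_left (P_le (by omega)) (Nat.cast_nonneg _)
  have k3 := Finset.card_nsmul_le_sum _ _ _ k2
  rw [nsmul_eq_mul, Finset.sum_add_distrib, Finset.sum_const, nsmul_eq_mul] at k3
  have k4 : (S.card : ℝ) ≤ W := by
    exact_mod_cast (Finset.card_filter_le _ _).trans (Finset.card_range W).le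
  have k5 : (W : ℝ) - (4 * κ + 64) ≤ S.card := by
    have : (W : ℝ) ≤ S.card + (4 * κ + 64) := by exact_mod_cast k1
    linarith
  have k6 := Finset.sum_le_sum_of_subset_of_nonneg (Finset.filter_subset _ _ : S ⊆ _)
    (f := fun u => ((alv (Gd c k) b B (b + 2 * W + u + k)).card : ℝ) *
      8 ^ (M - (b + 2 * W + u + k))) fun _ _ _ => by positivity
  have k7 := mul_le_mul_of_nonneg_right k5 (show 0 ≤ ρ * 8 ^ (M - b) by positivity)
  have k8 := mul_le_mul_of_nonneg_right k4 (mul_nonneg e0.le R0)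
  linarith [mul_assoc ((W : ℝ) - (4 * κ + 64)) ρ (8 ^ (M - b)),
    mul_assoc (W : ℝ) (P (C1 - (κ / 3 : ℕ))) R]

theorem total (h2 : Free2Stmt) (h3 : TreeStmt) {c ρ : ℝ} {κ k C1 W N m A : ℕ}
    (hL : LevAt c ρ κ k C1) (hρ : 0 ≤ ρ) (hc : P (-κ) ≤ c) (hW : 16 * κ + 200 ≤ W)
    (hm : 4 * W ≤ m) (hk : κ / 3 ≤ k) (hk2 : k ≤ W) :
    N * (((W : ℝ) - (4 * κ + 64)) * ρ) * (alv (Alive c) m A (m + (N + 3) * W)).card ≤
      (1 + 8 * N * W * P (C1 - (κ / 3 : ℕ))) *
        (8 ^ ((N + 3) * W) - (alv (Alive c) m A (m + (N + 3) * W)).card) := by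
  classical
  obtain ⟨T, hT⟩ : ∃ T, T = (N + 3) * W := ⟨_, rfl⟩
  rw [← hT]
  obtain ⟨t1, t2, t3, t4⟩ := h3 (Alive c) m A T fun j p h => by simpa using Alive.up (d := 1) h
  obtain ⟨U, hU⟩ : ∃ U : ℝ, U = ((alv (Alive c) m A (m + T)).card : ℝ) := ⟨_, rfl⟩
  rw [← hU]
  have e0 := P_pos (C1 - (κ / 3 : ℕ))
  have w0 : 0 ≤ ((W : ℝ) - (4 * κ + 64)) * ρ := by
    have : ((4 * κ + 64 : ℕ) : ℝ) ≤ W := by exact_mod_cast (by omega)
    push_cast at this
    exact mul_nonneg (by linarith) hρ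
  obtain ⟨g, hg⟩ : ∃ g : ℕ → ℝ, ∀ j, g j = ((alv (Gd c k) m A j).card : ℝ) * 8 ^ (m + T - j) :=
    ⟨_, fun _ => rfl⟩
  have s2 : ∑ b ∈ Finset.Ico m (m + T), ((pd (Alive c) m A b).card : ℝ) * 8 ^ (m + T - b) ≤
      8 * (8 ^ T - U) := by
    have : ((∑ b ∈ Finset.Ico m (m + T), (pd (Alive c) m A b).card * 8 ^ (m + T - b) +
      8 * (alv (Alive c) m A (m + T)).card : ℕ) : ℝ) ≤ (8 * 8 ^ T : ℕ) := by exact_mod_cast t2
    push_cast at this
    linarith
  have s3 : ∑ j ∈ Finset.Icc m (m + T), g j ≤ 8 ^ T - U := by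
    have a1 := t3 (((Finset.Icc m (m + T)).sigma (alv (Gd c k) m A)).map
      (Equiv.sigmaEquivProd ℕ ℕ).toEmbedding) ?_ ?_
    · rw [Finset.sum_map, Finset.sum_sigma] at a1
      simp only [Equiv.coe_toEmbedding, Equiv.sigmaEquivProd_apply, Finset.sum_const,
        smul_eq_mul] at a1
      have : ((∑ j ∈ Finset.Icc m (m + T), (alv (Gd c k) m A j).card * 8 ^ (m + T - j) +
        (alv (Alive c) m A (m + T)).card : ℕ) : ℝ) ≤ (8 ^ T : ℕ) := by exact_mod_cast a1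
      push_cast at this
      simp only [hg]
      linarith
    · intro V hV
      obtain ⟨⟨j, p⟩, v1, rfl⟩ := Finset.mem_map.1 hV
      unfold alv at v1
      simp only [Finset.mem_sigma, Finset.mem_Icc, Finset.mem_filter, mem_desc] at v1
      exact ⟨v1.1.1, v1.1.2, v1.2.1, dead v1.2.2⟩
    · intro V hV V' hV' a1 a2
      obtain ⟨⟨j, p⟩, v1, rfl⟩ := Finset.mem_map.1 hV
      obtain ⟨⟨j', p'⟩, v2, rfl⟩ := Finset.mem_map.1 hV'
      unfold alv at v1 v2
      simp only [Finset.mem_sigma, Finset.mem_Icc, Finset.mem_filter, mem_desc] at v1 v2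
      change j ≤ j' at a1
      change p' / 8 ^ (j' - j) = p at a2
      obtain rfl := nest v1.2.2 v2.2.2 a1 a2
      rw [Nat.sub_self, pow_zero, Nat.div_one] at a2
      rw [a2]
  have s4 : ∀ n ∈ Finset.range N, ((W : ℝ) - (4 * κ + 64)) * ρ * U ≤
      ∑ u ∈ Finset.range W, g (m + 2 * W + k + (n * W + u)) +
        W * P (C1 - (κ / 3 : ℕ)) * (8 * (8 ^ T - U)) := by
    intro n hn
    rw [Finset.mem_range] at hn
    have n1 : (n + 4) * W ≤ T := hT ▸ Nat.mul_le_mul_right _ (by omega)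
    obtain ⟨b, hb⟩ : ∃ b, b = m + n * W := ⟨_, rfl⟩
    have b1 : b + 4 * W ≤ m + T := by rw [add_mul] at n1; omega
    have b0 : m ≤ b := by omega
    have a1 : U ≤ (alv (Alive c) m A b).card * 8 ^ (m + T - b) := by
      rw [hU]; exact_mod_cast t1 b b0 (by omega)
    have a2 := Finset.card_nsmul_le_sum (alv (Alive c) m A b) _ _ fun B hB =>
      stage h2 hL hρ hc hW (b := b) (B := B) (M := m + T) (by omega) hk (by omega)
        (by unfold alv at hB; exact (Finset.mem_filter.1 hB).2)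
    rw [nsmul_eq_mul, Finset.sum_add_distrib, Finset.sum_comm, ← Finset.mul_sum,
      Finset.sum_comm (s := alv (Alive c) m A b)] at a2
    have a3 := mul_le_mul_of_nonneg_left a1 w0
    refine (a3.trans ((le_of_eq (by ring)).trans a2)).trans (add_le_add
      (Finset.sum_le_sum fun u _ => ?_) (mul_le_mul_of_nonneg_left ?_ (by positivity)))
    · rw [← Finset.sum_mul, hg, show m + 2 * W + k + (n * W + u) = b + 2 * W + u + k by omega]
      refine mul_le_mul_of_nonneg_right ?_ (by positivity)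
      exact_mod_cast fib (Gd c k) (Alive c) b0 (by omega)
    · refine le_trans ?_ s2
      refine (Finset.sum_le_sum fun b' hb' => ?_).trans (Finset.sum_le_sum_of_subset_of_nonneg
        (Finset.Ico_subset_Ico_left b0) fun _ _ _ => by positivity)
      rw [← Finset.sum_mul]
      refine mul_le_mul_of_nonneg_right ?_ (by positivity)
      exact_mod_cast t4 b b' b0 (Finset.mem_Ico.1 hb').1
  have s5 := Finset.card_nsmul_le_sum _ _ _ s4
  rw [nsmul_eq_mul, Finset.card_range, Finset.sum_add_distrib, Finset.sum_const, nsmul_eq_mul,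
    Finset.card_range, flat (fun t => g (m + 2 * W + k + t))] at s5
  have s6 := Finset.sum_Ico_eq_sum_range g (m + 2 * W + k) (m + 2 * W + k + N * W)
  rw [Nat.add_sub_cancel_left] at s6
  have s7 := Finset.sum_le_sum_of_subset_of_nonneg (f := g)
    (show Finset.Ico (m + 2 * W + k) (m + 2 * W + k + N * W) ⊆ Finset.Icc m (m + T) by
      intro j hj
      rw [add_mul] at hT
      simp only [Finset.mem_Ico, Finset.mem_Icc] at *
      omega) fun j _ _ => by rw [hg]; positivity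
  linarith

end SBlock

open SBlock in
theorem block (h1 : LevStmt) (h2 : Free2Stmt) (h3 : TreeStmt) : BlockStmt := by
  classical
  intro η e0 e1
  obtain ⟨C0, C1, κ0, hL⟩ := h1 (η / 8) (by positivity)
  obtain ⟨N, hN⟩ := exists_nat_ge (64 / η)
  have N1 : 64 ≤ η * N := by rw [div_le_iff₀ e0] at hN; linarith
  have N0 : (0 : ℝ) ≤ N := Nat.cast_nonneg N
  have N2 : 64 ≤ N := by exact_mod_cast (show (64 : ℝ) ≤ N by nlinarith)
  obtain ⟨κ1, hκ⟩ := big ((64 * N * N * P C1 + 80 * ((N + 3) * N)) / η)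
  refine ⟨P (-(κ0 + κ1 + C0 + 16 : ℕ)), P_pos _, fun c c0 c1 => ?_⟩
  obtain ⟨k, k1, k2⟩ := exists_shell c0
  have k3 := le_of_P_le (k1.trans c1)
  obtain ⟨κ, rfl⟩ : ∃ κ : ℕ, k = -κ := ⟨(-k).toNat, by omega⟩
  replace k2 : c < P (1 - κ) := k2.trans_le (P_le (by omega))
  obtain ⟨W, hW⟩ : ∃ W, W = N * κ := ⟨_, rfl⟩
  have W1 : 64 * κ ≤ W := hW ▸ Nat.mul_le_mul_right _ N2
  have W2 : (W : ℝ) = N * κ := by rw [hW, Nat.cast_mul]
  have κ2 : (16 : ℝ) ≤ κ := by exact_mod_cast (by omega)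
  obtain ⟨r1, r2⟩ := rate_bd c0.le
  have b1 := hκ κ (by omega)
  rw [div_mul_eq_mul_div, div_le_iff₀ e0] at b1
  have p1 := P_pos C1
  have p2 := P_pos (-(κ / 3 : ℕ))
  have p3 : P (κ / 3 : ℕ) * P (-(κ / 3 : ℕ)) = 1 := P_zero ▸ P_mul (by ring)
  have b2 := mul_le_mul_of_nonneg_right b1 p2.le
  rw [mul_right_comm (P _), p3, one_mul] at b2
  have p4 : P C1 * P (-(κ / 3 : ℕ)) = P (C1 - (κ / 3 : ℕ)) := P_mul (by ring)
  have p5 : c ≤ 2 * P (-(κ / 3 : ℕ)) := by
    rw [← P_succ]; exact le_P k2.le (by omega)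
  have q0 : (0 : ℝ) ≤ (N + 3) * N * κ := by positivity
  have q1 : 8 * N * W * P (C1 - (κ / 3 : ℕ)) ≤ η / 8 := by
    have := mul_nonneg q0 p2.le
    rw [W2, ← p4]; linarith
  have q2 : rate c * (((N + 3) * W : ℕ) : ℝ) ≤ η / 8 := by
    have a1 : (0 : ℝ) ≤ N * N * P C1 * κ * P (-(κ / 3 : ℕ)) := by positivity
    have a2 := mul_le_mul_of_nonneg_right (show rate c ≤ 10 * P (-(κ / 3 : ℕ)) by linarith) q0
    push_cast
    rw [W2]; linarith
  refine ⟨(N + 3) * W, 4 * W, Nat.mul_pos (by omega) (by omega), by linarith, fun m A hm _ => ?_⟩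
  have t := total h2 h3 (c := c) (ρ := (1 - η / 8) * rate c) (κ := κ) (k := κ / 3 + C0) (C1 := C1)
    (W := W) (N := N) (m := m) (A := A) ?_ (mul_nonneg (by linarith) (by linarith)) k1 (by omega) hm
    (by omega) (by omega)
  · have q3 : (1 - η / 4) * (((N + 3) * W : ℕ) : ℝ) ≤ N * (W - (4 * κ + 64)) := by
      push_cast
      have a1 := mul_le_mul_of_nonneg_right N1 q0
      have a2 : (0 : ℝ) ≤ N * (κ - 16) := mul_nonneg N0 (by linarith)
      have a3 : (64 : ℝ) ≤ N := by exact_mod_cast N2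
      have a4 : 11 * ((N : ℝ) * N * κ + N * κ) ≤ η / 4 * ((N + 3) * N * κ) + 11 * (N * N * κ) := by
        have := mul_le_mul_of_nonneg_right N1 (show (0 : ℝ) ≤ (N + 3) * κ by positivity)
        nlinarith
      rw [W2]
      have := mul_le_mul_of_nonneg_right N1 (show (0 : ℝ) ≤ N * κ by positivity)
      nlinarith
    have U0 : (0 : ℝ) ≤ (alv (Alive c) m A (m + (N + 3) * W)).card := Nat.cast_nonneg _
    have T0 : (0 : ℝ) ≤ ((N + 3) * W : ℕ) := Nat.cast_nonneg _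
    have ε0 : (0 : ℝ) ≤ 8 * N * W * P (C1 - (κ / 3 : ℕ)) := by rw [← p4]; positivity
    generalize (((N + 3) * W : ℕ) : ℝ) = T at *
    generalize ((alv (Alive c) m A (m + (N + 3) * W)).card : ℝ) = U at *
    generalize (8 : ℝ) ^ ((N + 3) * W) = E at *
    generalize 8 * N * W * P (C1 - (κ / 3 : ℕ)) = ε at *
    have r0 : 0 ≤ rate c := by linarith
    have y0 : 0 ≤ rate c * T * U := by positivity
    have a1 := mul_le_mul_of_nonneg_right q3
      (show 0 ≤ (1 - η / 8) * rate c * U from mul_nonneg (mul_nonneg (by linarith) r0) U0)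
    have a2 : (1 - η / 4) * (1 - η / 8) * (rate c * T * U) ≤ (1 + ε) * (E - U) := by linarith
    have a3 : 0 ≤ E - U := by
      refine nonneg_of_mul_nonneg_right (le_trans ?_ a2) (by linarith)
      exact mul_nonneg (mul_nonneg (by linarith) (by linarith)) y0
    have a4 : (1 - η) * (rate c * T * U) ≤ (1 - η / 8) * (E - U) := by
      refine le_of_mul_le_mul_left ?_ (show 0 < 1 + η / 8 by linarith)
      have b3 := mul_le_mul_of_nonneg_left (a2.trans (mul_le_mul_of_nonneg_right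
        (show 1 + ε ≤ 1 + η / 8 by linarith) a3)) (show 0 ≤ 1 - η / 8 by linarith)
      have b4 : (1 + η / 8) * (1 - η) ≤ (1 - η / 8) * ((1 - η / 4) * (1 - η / 8)) := by
        nlinarith [mul_nonneg (mul_nonneg e0.le e0.le) (show 0 ≤ 1 - η by linarith), sq_nonneg η]
      nlinarith [mul_le_mul_of_nonneg_right b4 y0]
    have a5 : (1 - η) * (rate c * T) ≤ η / 8 := by nlinarith [mul_nonneg r0 T0]
    nlinarith [mul_le_mul_of_nonneg_right a5 a3]
  · intro x0 b i B x1 x2 a1 a2 a3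
    obtain ⟨X, X1, X2⟩ := hL c x0 κ b i (i + (κ / 3 + C0)) B (by omega) k1 k2 x1 x2
      (Alive.sub c0 ⟨x0, x1, x2⟩) rfl a1 a2 a3
    refine X2.trans (add_le_add (Nat.cast_le.2 (Finset.card_le_card fun p hp => ?_)) le_rfl)
    obtain ⟨v1, v2, v3, v4⟩ := X1 p hp
    unfold alv
    exact Finset.mem_filter.2 ⟨mem_desc.2 v1, i, rfl, v2, v3, v4⟩

end ExOrd
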