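import Pool.Agent.Lib.MP_a94b90_nt.ES.Stmt
import Pool.Agent.Lib.MP_a94b90_nt.ED.Box

/-! ES: sharp box counting bound and the sharp upper bound for the dimension. -/

namespace ExOrd
open Set MeasureTheory Filter Topology
open scoped ENNReal NNReal

namespace SBox2

theorem exp_mul (β : ℝ) : Real.exp β * (1 - β) ≤ 1 := by
  have h3 : 1 - β ≤ Real.exp (-β) := by
    have := Real.add_one_le_exp (-β)
    linarith
  calc Real.exp β * (1 - β) ≤ Real.exp β * Real.exp (-β) :=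
        mul_le_mul_of_nonneg_left h3 (Real.exp_pos _).le
    _ = 1 := by rw [← Real.exp_add, add_neg_cancel, Real.exp_zero]

end SBox2

open DBox in
theorem box2 : Box2Stmt := by
  intro E m0 T β hE hT h0 h1 h
  have hT' : (1 : ℝ) ≤ T := by exact_mod_cast hT
  have hl := Real.log_two_gt_d9
  have hpos : (0 : ℝ) < 3 * T * Real.log 2 := by positivity
  set s : ℝ := 1 - β / (3 * T * Real.log 2) with hs
  have hs0 : 0 ≤ s := by
    have : β / (3 * T * Real.log 2) ≤ 1 := by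
      rw [div_le_one hpos]; nlinarith
    linarith
  have hcard : ∀ k : ℕ, ((alive E (m0 + k * T)).card : ℝ) ≤
      (8 ^ m0 + 1) * ((8 : ℝ) ^ T * (1 - β)) ^ k := by
    intro k
    induction k with
    | zero => simpa using card_zero E m0
    | succ k ih =>
      have h2 := card_step hE (m := m0 + k * T) (T := T) (c := 8 ^ T * (1 - β))
        fun A hA U hU => h _ A (Nat.le_add_right _ _) hA U hU
      rw [show m0 + (k + 1) * T = m0 + k * T + T by ring, pow_succ, ← mul_assoc]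
      refine h2.trans (mul_le_mul_of_nonneg_right ih ?_)
      exact mul_nonneg (by positivity) (by linarith)
  have hone : (8 : ℝ) ^ T * (1 - β) * (((8 : ℝ) ^ T)⁻¹) ^ s ≤ 1 := by
    have e1 : (8 : ℝ) ^ T * (((8 : ℝ) ^ T)⁻¹) ^ s = Real.exp β := by
      have h8 : (8 : ℝ) ^ T = (2 : ℝ) ^ ((3 * T : ℝ)) := by
        rw [Real.rpow_mul (by norm_num), Real.rpow_natCast]
        norm_num
      rw [h8, ← Real.rpow_neg (by norm_num), ← Real.rpow_mul (by norm_num),
        ← Real.rpow_add (by norm_num), Real.rpow_def_of_pos (by norm_num)]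
      congr 1
      have hl0 : Real.log 2 ≠ 0 := by positivity
      rw [hs]
      field_simp
      ring
    calc (8 : ℝ) ^ T * (1 - β) * (((8 : ℝ) ^ T)⁻¹) ^ s
        = (8 : ℝ) ^ T * (((8 : ℝ) ^ T)⁻¹) ^ s * (1 - β) := by ring
      _ ≤ 1 := by rw [e1]; exact SBox2.exp_mul β
  have hsum : ∀ k : ℕ, ((alive E (m0 + k * T)).card : ℝ) * (((8 : ℝ) ^ (m0 + k * T))⁻¹) ^ s ≤
      8 ^ m0 + 1 := by
    intro k
    have e1 : (((8 : ℝ) ^ (m0 + k * T))⁻¹) ^ s =
        (((8 : ℝ) ^ m0)⁻¹) ^ s * ((((8 : ℝ) ^ T)⁻¹) ^ s) ^ k := by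
      rw [pow_add, mul_inv, Real.mul_rpow (by positivity) (by positivity), mul_comm k T, pow_mul,
        ← inv_pow, ← inv_pow, Real.rpow_pow_comm (by positivity)]
    have e2 : (((8 : ℝ) ^ m0)⁻¹) ^ s ≤ 1 :=
      Real.rpow_le_one (by positivity) (inv_le_one_of_one_le₀ (one_le_pow₀ (by norm_num))) hs0
    have e3 : ((8 : ℝ) ^ T * (1 - β) * (((8 : ℝ) ^ T)⁻¹) ^ s) ^ k ≤ 1 :=
      pow_le_one₀ (mul_nonneg (mul_nonneg (by positivity) (by linarith)) (by positivity)) hone
    rw [mul_pow] at e3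
    have e4 : (0 : ℝ) ≤ ((8 : ℝ) ^ T * (1 - β)) ^ k :=
      pow_nonneg (mul_nonneg (by positivity) (by linarith)) k
    have e5 : (0 : ℝ) ≤ ((((8 : ℝ) ^ T)⁻¹) ^ s) ^ k := by positivity
    have e6 : (0 : ℝ) ≤ (((8 : ℝ) ^ m0)⁻¹) ^ s := by positivity
    rw [e1]
    calc ((alive E (m0 + k * T)).card : ℝ) *
          ((((8 : ℝ) ^ m0)⁻¹) ^ s * ((((8 : ℝ) ^ T)⁻¹) ^ s) ^ k)
        ≤ (8 ^ m0 + 1) * ((8 : ℝ) ^ T * (1 - β)) ^ k * (1 * ((((8 : ℝ) ^ T)⁻¹) ^ s) ^ k) :=
          mul_le_mul (hcard k) (mul_le_mul_of_nonneg_right e2 e5) (mul_nonneg e6 e5)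
            (mul_nonneg (by positivity) e4)
      _ = (8 ^ m0 + 1) * (((8 : ℝ) ^ T * (1 - β)) ^ k * ((((8 : ℝ) ^ T)⁻¹) ^ s) ^ k) := by ring
      _ ≤ (8 ^ m0 + 1) * 1 := mul_le_mul_of_nonneg_left e3 (by positivity)
      _ = 8 ^ m0 + 1 := mul_one _
  have hr : Tendsto (fun k : ℕ => ENNReal.ofReal ((8 : ℝ) ^ (m0 + k * T))⁻¹) atTop (𝓝 0) := by
    rw [← ENNReal.ofReal_zero]
    refine ENNReal.tendsto_ofReal (tendsto_inv_atTop_zero.comp ?_)
    refine (tendsto_pow_atTop_atTop_of_one_lt (by norm_num)).comp ?_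
    refine tendsto_atTop_mono (fun k => ?_) tendsto_id
    have : k * 1 ≤ k * T := Nat.mul_le_mul_left k hT
    simp only [id]
    omega
  have hμ := Measure.hausdorffMeasure_le_liminf_sum (ι := fun k : ℕ => alive E (m0 + k * T)) s E
    (l := atTop) _ hr (fun k i => Node (m0 + k * T) i)
    (Eventually.of_forall fun k i => (ediam_node _ _).le)
    (Eventually.of_forall fun k x hx => by
      obtain ⟨i, hi⟩ := exists_node (m0 + k * T) (hE hx).1
      exact mem_iUnion.2 ⟨⟨i, (mem_alive hE).2 ⟨x, hi, hx⟩⟩, hi⟩)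
  have hb : ∀ k : ℕ, ∑ i : alive E (m0 + k * T), Metric.ediam (Node (m0 + k * T) i) ^ s ≤
      ENNReal.ofReal (8 ^ m0 + 1) := by
    intro k
    simp only [ediam_node]
    rw [Finset.sum_const, Finset.card_univ, Fintype.card_coe, nsmul_eq_mul,
      ENNReal.ofReal_rpow_of_nonneg (by positivity) hs0, ← ENNReal.ofReal_natCast,
      ← ENNReal.ofReal_mul (Nat.cast_nonneg _)]
    exact ENNReal.ofReal_le_ofReal (hsum k)
  have hfin : μH[s] E ≠ ∞ :=
    ((hμ.trans (liminf_le_of_frequently_le' (Frequently.of_forall hb))).trans_lt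
      ENNReal.ofReal_lt_top).ne
  have := dimH_le_of_hausdorffMeasure_ne_top (s := E) (d := ⟨s, hs0⟩) hfin
  rwa [ENNReal.ofReal_eq_coe_nnreal hs0]

theorem sharpUp (h1 : BlockStmt) (h2 : Box2Stmt) : SharpUpStmt := by
  intro η hη
  obtain ⟨z1, z2⟩ := Z3_bd
  rcases le_or_gt 1 η with h | h
  · refine ⟨1, one_pos, fun c hc _ => ?_⟩
    refine (dimH_mono (subset_univ _)).trans ?_
    rw [Real.dimH_univ, ← ENNReal.ofReal_one]
    refine ENNReal.ofReal_le_ofReal ?_
    have : 0 ≤ 2 * c / Z3 := by positivity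
    nlinarith
  obtain ⟨c0, hc0, H⟩ := h1 η hη h
  refine ⟨c0, hc0, fun c hc hcc => ?_⟩
  obtain ⟨T, m0, hT, hr, H2⟩ := H c hc hcc
  have hT' : (1 : ℝ) ≤ T := by exact_mod_cast hT
  have r0 : 0 < rate c := by linarith [(rate_bd hc.le).1]
  have hrT : 0 < rate c * T := by positivity
  have hb := h2 (KS c) m0 T ((1 - η) * rate c * T) (fun x hx => hx.1) hT
    (by have : 0 < 1 - η := by linarith
        positivity) (by nlinarith) (fun m A hm hA U hU => ?_)
  · refine hb.trans (le_of_eq ?_)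
    congr 2
    have hl0 : Real.log 2 ≠ 0 := by have := Real.log_two_gt_d9; positivity
    have hz0 : Z3 ≠ 0 := by positivity
    unfold rate
    field_simp
    ring
  · classical
    refine le_trans ?_ (H2 m A hm hA)
    have : U ⊆ alv (Alive c) m A (m + T) := fun p hp => by
      unfold alv
      rw [Finset.mem_filter, Nat.add_sub_cancel_left, mem_desc]
      exact hU p hp
    exact_mod_cast Finset.card_le_card this

end ExOrd
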