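import Pool.Agent.Lib.MP_a94b90_nt.ES.Stmt

/-! ES: the number of forms in a box, from the covering property. -/

namespace ExOrd
open Set

namespace SBoxC

/-- translation by a form. -/
theorem tr (hf : FinStmt) {x ρ1 ρ2 : ℝ} (h : Cov x ρ1 ρ2) (a0 b0 l0 a1 b1 l1 : ℝ)
    {s lam s' lam' : ℝ} (hs : s + 2 * ρ2 ≤ s') (hl : lam + 2 * ρ1 ≤ lam') :
    {Q | InB x a0 b0 l0 s lam Q}.ncard ≤ {Q | InB x a1 b1 l1 s' lam' Q}.ncard := by
  obtain ⟨a, b, c, h1, h2, h3⟩ := h (l1 + ρ1 - l0) (a1 + ρ2 - a0) (b1 + ρ2 - b0)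
  rw [abs_le] at h1 h2 h3
  refine ncard_le_ncard_of_injOn (fun Q => Q + (a, b, c)) ?_
    (fun Q _ Q' _ e => add_right_cancel e) (hf _ _ _ _ _ _)
  rintro ⟨p, q, r⟩ ⟨⟨k1, k2⟩, ⟨k3, k4⟩, k5, k6⟩
  have e : Lv (p + a) (q + b) (r + c) x = Lv p q r x + Lv a b c x := by
    unfold Lv; push_cast; ring
  simp only at k1 k2 k3 k4 k5 k6
  refine ⟨⟨?_, ?_⟩, ⟨?_, ?_⟩, ?_, ?_⟩ <;> simp only [Prod.mk_add_mk, e] <;> push_cast <;> linarith

/-- the arcs of length `1 / K` tile the circle. -/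
theorem tile (x : ℝ) (n : ℕ) {K : ℕ} (hK : 0 < K) :
    ∑ t ∈ Finset.range K, {Q | InB x 0 0 (t / K) n (1 / K) Q}.ncard = n ^ 2 := by
  have hK' : (0 : ℝ) < K := by exact_mod_cast hK
  set g : ℕ × ℕ → ℕ := fun U => ⌊K * Int.fract (Lv U.1 U.2 0 x)⌋₊ with hg
  have e : ∀ a b c : ℤ, Lv a b c x = Lv a b 0 x + c := by
    intro a b c; unfold Lv; push_cast; ring
  have h1 : ∀ U ∈ Finset.range n ×ˢ Finset.range n, g U ∈ Finset.range K := by
    intro U _
    rw [Finset.mem_range, hg, Nat.floor_lt' hK.ne']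
    have := Int.fract_lt_one (Lv U.1 U.2 0 x)
    nlinarith
  have h2 := Finset.card_eq_sum_card_fiberwise h1
  rw [Finset.card_product, Finset.card_range] at h2
  rw [sq, h2]
  refine Finset.sum_congr rfl fun t ht => ?_
  have ht' : (t : ℝ) + 1 ≤ K := by exact_mod_cast Finset.mem_range.1 ht
  rw [← ncard_coe_finset]
  symm
  refine ncard_congr (fun U _ => ((U.1 : ℤ), (U.2 : ℤ), -⌊Lv U.1 U.2 0 x⌋)) ?_ ?_ ?_
  · rintro ⟨a, b⟩ hU
    simp only [Finset.coe_filter, Finset.mem_product, Finset.mem_range, mem_ofPred_eq] at hU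
    obtain ⟨⟨k1, k2⟩, k3⟩ := hU
    have k4 := (Nat.floor_eq_iff (mul_nonneg hK'.le (Int.fract_nonneg _))).1 k3
    have k5 : Lv a b (-⌊Lv (a : ℕ) (b : ℕ) 0 x⌋) x = Int.fract (Lv (a : ℕ) (b : ℕ) 0 x) := by
      rw [e, Int.fract]; push_cast; ring
    refine ⟨⟨by simp, by simpa using k1⟩, ⟨by simp, by simpa using k2⟩, ?_, ?_⟩
    · simp only [k5]
      rw [div_le_iff₀ hK']; linarith [k4.1]
    · simp only [k5]
      rw [← add_div, lt_div_iff₀ hK']; linarith [k4.2]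
  · rintro ⟨a, b⟩ ⟨a', b'⟩ _ _ h
    simp only [Prod.mk.injEq, Nat.cast_inj] at h
    rw [h.1, h.2.1]
  · rintro ⟨a, b, c⟩ ⟨⟨k1, k2⟩, ⟨k3, k4⟩, k5, k6⟩
    simp only [zero_add] at k1 k2 k3 k4 k5 k6
    lift a to ℕ using by exact_mod_cast k1
    lift b to ℕ using by exact_mod_cast k3
    rw [div_le_iff₀ hK'] at k5
    rw [← add_div, lt_div_iff₀ hK'] at k6
    have t0 : (0 : ℝ) ≤ t := Nat.cast_nonneg t
    have k7 : 0 ≤ Lv a b c x := by nlinarith
    have k8 : Lv a b c x < 1 := by nlinarith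
    have k9 : ⌊Lv a b 0 x⌋ = -c := by
      rw [Int.floor_eq_iff]
      rw [e] at k7 k8
      push_cast
      constructor <;> linarith
    refine ⟨(a, b), ?_, by simp [k9]⟩
    simp only [Finset.coe_filter, Finset.mem_product, Finset.mem_range, mem_ofPred_eq]
    refine ⟨⟨by exact_mod_cast k2, by exact_mod_cast k4⟩, ?_⟩
    have k10 : Int.fract (Lv a b 0 x) = Lv a b c x := by
      rw [Int.fract, k9, e _ _ c]; push_cast; ring
    simp only [hg, k10]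
    rw [Nat.floor_eq_iff (mul_nonneg hK'.le k7)]
    constructor <;> linarith

end SBoxC

theorem boxC (hf : FinStmt) : BoxCStmt := by
  intro x ρ1 ρ2 a0 b0 l0 s lam η h hl hη h1 h2 h3
  obtain ⟨a, b, c, r1, r2, -⟩ := h 0 0 0
  have p1 : 0 ≤ ρ1 := (abs_nonneg _).trans r1
  have p2 : 0 ≤ ρ2 := (abs_nonneg _).trans r2
  have e0 : 0 < η := hl.trans_le h3
  have s0 : 0 < s := by by_contra hs; nlinarith
  have hsl : 0 < s ^ 2 * lam := by positivity
  generalize hN : {Q | InB x a0 b0 l0 s lam Q}.ncard = N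
  have N0 : (0 : ℝ) ≤ N := Nat.cast_nonneg N
  have el : η * lam ≤ lam / 20 := by nlinarith
  have es : η * s ≤ s / 20 := by nlinarith
  rw [abs_le]
  constructor
  · have q0 : 0 < lam - 2 * ρ1 := by linarith
    have hK : 0 < ⌈1 / (lam - 2 * ρ1)⌉₊ := Nat.ceil_pos.2 (by positivity)
    have k1 := Nat.le_ceil (1 / (lam - 2 * ρ1))
    have k2 := Nat.ceil_lt_add_one (show 0 ≤ 1 / (lam - 2 * ρ1) by positivity)
    have k3 := Nat.floor_le (show 0 ≤ s - 2 * ρ2 by linarith)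
    have k4 := Nat.lt_floor_add_one (s - 2 * ρ2)
    generalize ⌈1 / (lam - 2 * ρ1)⌉₊ = K at hK k1 k2
    generalize ⌊s - 2 * ρ2⌋₊ = n at k3 k4
    have hK' : (0 : ℝ) < K := by exact_mod_cast hK
    have k5 : 1 / (K : ℝ) ≤ lam - 2 * ρ1 := by
      rw [div_le_iff₀ q0] at k1
      rw [div_le_iff₀ hK']; linarith
    have k6 : n ^ 2 ≤ K * N := by
      rw [← SBoxC.tile x n hK, ← hN]
      have j1 : (n : ℝ) + 2 * ρ2 ≤ s := by linarith
      have j2 : 1 / (K : ℝ) + 2 * ρ1 ≤ lam := by linarith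
      refine (Finset.sum_le_card_nsmul (Finset.range K) _ _ fun (t : ℕ) _ =>
        SBoxC.tr hf h 0 0 (t / K) a0 b0 l0 j1 j2).trans ?_
      simp
    have k7 : (n : ℝ) ^ 2 ≤ K * N := by exact_mod_cast k6
    have k8 : K * (lam - 2 * ρ1) ≤ 1 + η := by
      have := mul_le_mul_of_nonneg_right k2.le q0.le
      rw [add_mul, one_div_mul_cancel q0.ne'] at this
      linarith
    have k9 : (s * (1 - 2 * η)) ^ 2 ≤ (n : ℝ) ^ 2 :=
      pow_le_pow_left₀ (by nlinarith) (by linarith) 2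
    have k10 : (s * (1 - 2 * η)) ^ 2 * (lam * (1 - 2 * η)) ≤ K * N * (lam - 2 * ρ1) :=
      mul_le_mul (k9.trans k7) (by linarith) (by nlinarith) (by positivity)
    have k11 : K * N * (lam - 2 * ρ1) ≤ N * (1 + η) := by nlinarith
    have k12 : (1 - 10 * η) * (1 + η) ≤ (1 - 2 * η) ^ 3 := by nlinarith [sq_nonneg η]
    have k13 := mul_le_mul_of_nonneg_left k12 hsl.le
    have k14 : s ^ 2 * lam * (1 - 10 * η) * (1 + η) ≤ N * (1 + η) := by nlinarith
    have := le_of_mul_le_mul_right k14 (by linarith)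
    linarith
  · have q0 : 0 < lam + 2 * ρ1 := by linarith
    have q1 : lam + 2 * ρ1 ≤ 11 / 10 * η := by linarith
    have hK : 0 < ⌊1 / (lam + 2 * ρ1)⌋₊ := by
      rw [Nat.floor_pos, le_div_iff₀ q0]; linarith
    have k1 := Nat.floor_le (show 0 ≤ 1 / (lam + 2 * ρ1) by positivity)
    have k2 := Nat.lt_floor_add_one (1 / (lam + 2 * ρ1))
    have k3 := Nat.le_ceil (s + 2 * ρ2)
    have k4 := Nat.ceil_lt_add_one (show 0 ≤ s + 2 * ρ2 by linarith)
    generalize ⌊1 / (lam + 2 * ρ1)⌋₊ = K at hK k1 k2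
    generalize ⌈s + 2 * ρ2⌉₊ = n at k3 k4
    have hK' : (0 : ℝ) < K := by exact_mod_cast hK
    have k5 : lam + 2 * ρ1 ≤ 1 / (K : ℝ) := by
      rw [le_div_iff₀ q0] at k1
      rw [le_div_iff₀ hK']; linarith
    have k6 : K * N ≤ n ^ 2 := by
      rw [← SBoxC.tile x n hK, ← hN]
      refine le_trans ?_ (Finset.card_nsmul_le_sum _ _ _ fun t _ =>
        SBoxC.tr hf h a0 b0 l0 0 0 (t / K) k3 k5)
      simp
    have k7 : (K : ℝ) * N ≤ (n : ℝ) ^ 2 := by exact_mod_cast k6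
    have k8 : 1 - 11 / 10 * η ≤ K * (lam + 2 * ρ1) := by
      rw [div_lt_iff₀ q0] at k2
      nlinarith
    have k9 : (n : ℝ) ^ 2 ≤ (s * (1 + 2 * η)) ^ 2 :=
      pow_le_pow_left₀ (Nat.cast_nonneg n) (by linarith) 2
    have k10 : K * N * (lam + 2 * ρ1) ≤ (s * (1 + 2 * η)) ^ 2 * (lam * (1 + 2 * η)) :=
      mul_le_mul (k7.trans k9) (by linarith) q0.le (by positivity)
    have k11 : N * (1 - 11 / 10 * η) ≤ K * N * (lam + 2 * ρ1) := by nlinarith
    have k12 : (1 + 2 * η) ^ 3 ≤ (1 + 10 * η) * (1 - 11 / 10 * η) := by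
      nlinarith [mul_pos e0 e0, mul_pos (mul_pos e0 e0) e0]
    have k13 := mul_le_mul_of_nonneg_left k12 hsl.le
    have k14 : N * (1 - 11 / 10 * η) ≤ s ^ 2 * lam * (1 + 10 * η) * (1 - 11 / 10 * η) := by
      nlinarith
    have := le_of_mul_le_mul_right k14 (by linarith)
    linarith

end ExOrd
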