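import Pool.Agent.Lib.MP_a94b90_nt.ES.Stmt
import Pool.Agent.Lib.MP_a94b90_nt.EX.Cnt

/-! ES: finiteness of boxes and the covering property of the lattice of forms. -/

namespace ExOrd
open Set

namespace SCov

theorem mem_Icc_int {u v : ℝ} {a : ℤ} (h1 : u ≤ a) (h2 : a < v) : a ∈ Icc ⌊u⌋ ⌈v⌉ :=
  ⟨by exact_mod_cast (Int.floor_le u).trans h1, by exact_mod_cast h2.le.trans (Int.le_ceil v)⟩

/-- Cramer rule in dimension three. -/
theorem cramer {f1 g1 h1 f2 g2 h2 f3 g3 h3 : ℝ} (y1 y2 y3 : ℝ)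
    (hd : (g1 * h2 - h1 * g2) * f3 + (h1 * f2 - f1 * h2) * g3 + (f1 * g2 - g1 * f2) * h3 ≠ 0) :
    ∃ t1 t2 t3 : ℝ, y1 = t1 * f1 + t2 * f2 + t3 * f3 ∧ y2 = t1 * g1 + t2 * g2 + t3 * g3 ∧
      y3 = t1 * h1 + t2 * h2 + t3 * h3 := by
  obtain ⟨D, hD⟩ : ∃ D, D = (g1 * h2 - h1 * g2) * f3 + (h1 * f2 - f1 * h2) * g3 +
    (f1 * g2 - g1 * f2) * h3 := ⟨_, rfl⟩
  rw [← hD] at hd
  refine ⟨((y2 * h2 - y3 * g2) * f3 + (y3 * f2 - y1 * h2) * g3 + (y1 * g2 - y2 * f2) * h3) / D,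
    ((g1 * y3 - h1 * y2) * f3 + (h1 * y1 - f1 * y3) * g3 + (f1 * y2 - g1 * y1) * h3) / D,
    ((g1 * h2 - h1 * g2) * y1 + (h1 * f2 - f1 * h2) * y2 + (f1 * g2 - g1 * f2) * y3) / D,
    ?_, ?_, ?_⟩ <;> field_simp <;> rw [hD] <;> ring

/-- rounding the coefficients. -/
theorem rnd {f1 f2 f3 R : ℝ} (t1 t2 t3 : ℝ) (h1 : |f1| ≤ R) (h2 : |f2| ≤ R) (h3 : |f3| ≤ R) :
    |round t1 * f1 + round t2 * f2 + round t3 * f3 - (t1 * f1 + t2 * f2 + t3 * f3)| ≤ 2 * R := by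
  have k : ∀ t f : ℝ, |f| ≤ R → |(round t - t) * f| ≤ 1 / 2 * R := by
    intro t f hf
    rw [abs_mul, abs_sub_comm]
    exact mul_le_mul (abs_sub_round t) hf (abs_nonneg _) (by norm_num)
  have e : round t1 * f1 + round t2 * f2 + round t3 * f3 - (t1 * f1 + t2 * f2 + t3 * f3) =
      (round t1 - t1) * f1 + (round t2 - t2) * f2 + (round t3 - t3) * f3 := by ring
  have h0 := (abs_nonneg _).trans h1
  rw [e]
  linarith [abs_add_three ((round t1 - t1) * f1) ((round t2 - t2) * f2) ((round t3 - t3) * f3),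
    k t1 f1 h1, k t2 f2 h2, k t3 f3 h3]

theorem unscale {u y : ℝ} {α : ℤ} {G : ℕ} (h : |u / P α - y / P α| ≤ 2 * 2 ^ G) :
    |u - y| ≤ P (α + G + 1) := by
  rw [← sub_div, abs_div, abs_of_pos (P_pos α), div_le_iff₀ (P_pos α)] at h
  rw [P_succ, P_shift G rfl]
  linarith

/-- many forms in a dilated box. -/
theorem many (x : ℝ) (N M n : ℕ) (h : M + n < 2 * N) :
    ∃ T : Finset (ℤ × ℤ × ℤ), 2 ^ n < T.card ∧ ∀ Q ∈ T, |Lv Q.1 Q.2.1 Q.2.2 x| ≤ P (-M) ∧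
      |(Q.1 : ℝ)| ≤ P N ∧ |(Q.2.1 : ℝ)| ≤ P N := by
  classical
  let φ : ℕ × ℕ → ℝ := fun p => (p.1 : ℝ) * x ^ 2 + p.2 * x
  have hm : ∀ p ∈ Finset.range (2 ^ N) ×ˢ Finset.range (2 ^ N),
      ⌊2 ^ M * Int.fract (φ p)⌋₊ ∈ Finset.range (2 ^ M) := by
    intro p _
    have h1 := Int.fract_nonneg (φ p)
    have h2 := Int.fract_lt_one (φ p)
    have h3 : (0 : ℝ) < 2 ^ M := by positivity
    rw [Finset.mem_range, Nat.floor_lt (by positivity)]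
    push_cast
    nlinarith
  obtain ⟨t, -, ht⟩ := Finset.exists_lt_card_fiber_of_mul_lt_card_of_maps_to (n := 2 ^ n) hm (by
    rw [Finset.card_product, Finset.card_range, Finset.card_range, ← pow_add, ← pow_add]
    exact Nat.pow_lt_pow_right (by norm_num) (by omega))
  obtain ⟨p0, hp0⟩ := Finset.card_pos.1 ((Nat.zero_le _).trans_lt ht)
  refine ⟨Finset.image (fun p : ℕ × ℕ => ((p.1 : ℤ) - p0.1, (p.2 : ℤ) - p0.2, ⌊φ p0⌋ - ⌊φ p⌋)) _,
    ht.trans_eq (Finset.card_image_of_injOn ?_).symm, ?_⟩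
  · intro p _ q _ e
    have e1 := congrArg Prod.fst e
    have e2 := congrArg (fun Q => Q.2.1) e
    dsimp only at e1 e2
    exact Prod.ext (by omega) (by omega)
  · intro Q hQ
    obtain ⟨p, hp, rfl⟩ := Finset.mem_image.1 hQ
    obtain ⟨a1, a2⟩ := Finset.mem_filter.1 hp
    obtain ⟨b1, b2⟩ := Finset.mem_filter.1 hp0
    simp only [Finset.mem_product, Finset.mem_range] at a1 b1
    have k : ∀ u v : ℕ, u < 2 ^ N → v < 2 ^ N → |(((u : ℤ) - v : ℤ) : ℝ)| ≤ P N := by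
      intro u v hu hv
      have h1 : (u : ℝ) < 2 ^ N := by exact_mod_cast hu
      have h2 : (v : ℝ) < 2 ^ N := by exact_mod_cast hv
      have h3 : (0 : ℝ) ≤ u := Nat.cast_nonneg u
      have h4 : (0 : ℝ) ≤ v := Nat.cast_nonneg v
      rw [P_nat, abs_le]
      push_cast
      constructor <;> linarith
    refine ⟨?_, k _ _ a1.1 b1.1, k _ _ a1.2 b1.2⟩
    have e : Lv ((p.1 : ℤ) - p0.1) ((p.2 : ℤ) - p0.2) (⌊φ p0⌋ - ⌊φ p⌋) x =
        Int.fract (φ p) - Int.fract (φ p0) := by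
      unfold Lv Int.fract
      simp only [φ]
      push_cast
      ring
    have h3 : (0 : ℝ) < 2 ^ M := by positivity
    have c1 := Nat.floor_le (mul_nonneg h3.le (Int.fract_nonneg (φ p)))
    have c2 := Nat.floor_le (mul_nonneg h3.le (Int.fract_nonneg (φ p0)))
    have c3 := Nat.lt_floor_add_one (2 ^ M * Int.fract (φ p))
    have c4 := Nat.lt_floor_add_one (2 ^ M * Int.fract (φ p0))
    rw [a2] at c1 c3
    rw [b2] at c2 c4
    have c5 : (2 : ℝ) ^ M * P (-M) = 1 := by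
      rw [← P_nat, ← P_zero]
      exact P_mul (by ring)
    dsimp only
    rw [e]
    refine le_of_mul_le_mul_left ?_ h3
    rw [c5, ← abs_of_pos h3, ← abs_mul, abs_le]
    constructor <;> linarith

end SCov

theorem sfin : FinStmt := by
  intro x a0 b0 l0 s lam
  refine (((finite_Icc ⌊a0⌋ ⌈a0 + s⌉).prod (finite_Icc ⌊b0⌋ ⌈b0 + s⌉)).biUnion
    (t := fun p => (fun c => (p.1, p.2, c)) ''
      Icc ⌊l0 - (p.1 * x ^ 2 + p.2 * x)⌋ ⌈l0 + lam - (p.1 * x ^ 2 + p.2 * x)⌉)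
    fun p _ => (finite_Icc _ _).image _).subset ?_
  rintro ⟨a, b, c⟩ ⟨⟨h1, h2⟩, ⟨h3, h4⟩, h5, h6⟩
  unfold Lv at h5 h6
  dsimp only at h1 h2 h3 h4 h5 h6
  exact mem_biUnion (x := (a, b)) ⟨SCov.mem_Icc_int h1 h2, SCov.mem_Icc_int h3 h4⟩
    ⟨c, SCov.mem_Icc_int (by dsimp only; linarith) (by dsimp only; linarith), rfl⟩

theorem scov : CovStmt := by
  intro x α β G h0 h1 h2 h3 y1 y2 y3
  obtain ⟨N, hN⟩ := Int.eq_ofNat_of_zero_le h3
  obtain ⟨M, hM⟩ := Int.eq_ofNat_of_zero_le (show 0 ≤ -(α + G) by omega)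
  obtain ⟨T, hc, hT⟩ := SCov.many x N M (2 * G + 5) (by omega)
  rw [← hN, show -(M : ℤ) = α + G by omega] at hT
  have hf := fun Q hQ => Cnt.div_le (hT Q hQ).1
  have hg := fun Q hQ => Cnt.div_le (hT Q hQ).2.1
  have hh := fun Q hQ => Cnt.div_le (hT Q hQ).2.2
  have key := Cnt.count4 T (fun Q => Lv Q.1 Q.2.1 Q.2.2 x / P α) (fun Q => (Q.1 : ℝ) / P β)
    (fun Q => (Q.2.1 : ℝ) / P β) G hf hg hh (by
      rintro ⟨a, b, c⟩ _ ⟨a', b', c'⟩ _ k1 k2 k3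
      have e1 : Lv (a - a') (b - b') (c - c') x = Lv a b c x - Lv a' b' c' x := by
        unfold Lv; push_cast; ring
      obtain ⟨z1, z2, z3⟩ := h0 (a - a') (b - b') (c - c') (e1 ▸ Cnt.sub_le k1)
        (by rw [Int.cast_sub]; exact Cnt.sub_le k2) (by rw [Int.cast_sub]; exact Cnt.sub_le k3)
      rw [sub_eq_zero.1 z1, sub_eq_zero.1 z2, sub_eq_zero.1 z3])
  have hc' : P (2 * G + 5) < T.card := by
    rw [show (2 * G + 5 : ℤ) = (2 * G + 5 : ℕ) by push_cast; ring, P_nat]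
    exact_mod_cast hc
  have hn := mt key (not_le.2 hc')
  push Not at hn
  obtain ⟨p, hp, q, hq, r, hr, hd⟩ := hn
  obtain ⟨t1, t2, t3, e1, e2, e3⟩ := SCov.cramer (y1 / P α) (y2 / P β) (y3 / P β) hd
  have r1 := SCov.rnd t1 t2 t3 (hf p hp) (hf q hq) (hf r hr)
  have r2 := SCov.rnd t1 t2 t3 (hg p hp) (hg q hq) (hg r hr)
  have r3 := SCov.rnd t1 t2 t3 (hh p hp) (hh q hq) (hh r hr)
  rw [← e1] at r1
  rw [← e2] at r2
  rw [← e3] at r3
  refine ⟨round t1 * p.1 + round t2 * q.1 + round t3 * r.1,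
    round t1 * p.2.1 + round t2 * q.2.1 + round t3 * r.2.1,
    round t1 * p.2.2 + round t2 * q.2.2 + round t3 * r.2.2,
    SCov.unscale ?_, SCov.unscale ?_, SCov.unscale ?_⟩
  · convert r1 using 3
    unfold Lv; push_cast; ring
  · convert r2 using 3
    push_cast; ring
  · convert r3 using 3
    push_cast; ring

end ExOrd
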