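import Pool.Agent.Lib.MP_a94b90_nt.ES.Stmt
import Pool.Agent.Lib.MP_a94b90_nt.ED.TR

/-! ES: two independent violations give a dual vector. -/

namespace ExOrd
open Set

namespace SCross

theorem D_le {a b n : ℤ} {x : ℝ} (hx : x ∈ Icc (0 : ℝ) 1) (h : (Nh a b : ℝ) ≤ P n) :
    |Dv a b x| ≤ P (n + 1) := by
  have h1 := (abs_a_le_Nh a b).trans h
  have h2 := (abs_b_le_Nh a b).trans h
  have h3 := (abs_ab_le_Nh a b).trans h
  rw [P_succ]
  rw [abs_le] at *
  unfold Dv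
  constructor <;> nlinarith [hx.1, hx.2, P_pos n]

end SCross

theorem cross : CrossStmt := by
  rintro c κ C0 i p hc1 hc2 hκ hi hA
    ⟨x, hx, i1, a, b, d, a', b', d', j1, j2, ⟨v1, v2, v3⟩, ⟨w1, w2, w3⟩, hI⟩
  have x01 := hA.sub ((P_pos _).trans_le hc1) hx
  have hL := viol_L hc2 v1 v3
  have hL' := viol_L hc2 w1 w3
  have ha := (abs_a_le_Nh a b).trans v2
  have ha' := (abs_a_le_Nh a' b').trans w2
  have hb := (abs_b_le_Nh a b).trans v2
  have hb' := (abs_b_le_Nh a' b').trans w2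
  have hD := SCross.D_le x01 v2
  have hD' := SCross.D_le x01 w2
  obtain ⟨u, hu⟩ : ∃ u, u = b * a' - a * b' := ⟨_, rfl⟩
  obtain ⟨v, hv⟩ : ∃ v, v = a * d' - d * a' := ⟨_, rfl⟩
  obtain ⟨w, hw⟩ : ∃ w, w = d * b' - b * d' := ⟨_, rfl⟩
  have e1 : |(u : ℝ)| ≤ P (i + i1 + 1) := by
    rw [hu]
    push_cast
    exact sub_le_P (mul_le_P hb ha' le_rfl) (mul_le_P ha hb' le_rfl) (by omega) (by omega)
  have e2 : |(u : ℝ) * x - v| ≤ P (8 - κ + i - 2 * i1) := by
    rw [show (u : ℝ) * x - v = Lv a b d x * a' - a * Lv a' b' d' x by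
      rw [hu, hv]; unfold Lv; push_cast; ring]
    exact sub_le_P (mul_le_P hL ha' le_rfl) (mul_le_P ha hL' le_rfl) (by omega) (by omega)
  have e3 : |(u : ℝ) * x ^ 2 - 2 * v * x + w| ≤ P (8 - κ + i - 2 * i1) := by
    rw [show (u : ℝ) * x ^ 2 - 2 * v * x + w = Lv a b d x * Dv a' b' x - Dv a b x * Lv a' b' d' x by
      rw [hu, hv, hw]; unfold Lv Dv; push_cast; ring]
    exact sub_le_P (mul_le_P hL hD' le_rfl) (mul_le_P hD hL' le_rfl) (by omega) (by omega)
  have u0 : u ≠ 0 := by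
    rintro rfl
    have v0 : v = 0 := int_zero (by simpa using e2) (show (8 - κ + i - 2 * i1 : ℤ) < 0 by omega)
    have w0 : w = 0 := int_zero (by simpa [v0] using e3)
      (show (8 - κ + i - 2 * i1 : ℤ) < 0 by omega)
    exact hI ⟨by omega, by omega, by omega⟩
  have u1 : (1 : ℝ) ≤ |(u : ℝ)| := by exact_mod_cast Int.one_le_abs u0
  obtain ⟨n, n1, n2⟩ := exists_shell (zero_lt_one.trans_le u1)
  have n3 := le_of_P_le (n1.trans e1)
  have n4 := lt_of_P_lt ((P_zero.le.trans u1).trans_lt n2)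
  refine ⟨(2 * i + 3 - n).toNat, ?_, x, hx, u, v, w, (P_le (by omega)).trans n1,
    le_P n2.le (by omega), le_P e2 (by omega), le_P e3 (by omega)⟩
  by_contra hz
  obtain ⟨y, hy, yK⟩ := hA
  have dy := node_dist hy hx
  refine u0 (tr κ (i + 2 - 2 * κ) (10 - κ + i - 2 * i1) y u v w (KS.inK hc1 yK)
    (le_P n2.le (by omega)) ?_ ?_ (by omega)).1
  · rw [show (u : ℝ) * y - v = (u * x - v) + u * (y - x) by ring]
    exact add_le_P e2 (mul_le_P n2.le dy le_rfl) (by omega) (by omega)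
  · rw [show (u : ℝ) * y ^ 2 - 2 * v * y + w = (u * x ^ 2 - 2 * v * x + w) +
      (2 * ((u * x - v) * (y - x)) + u * (y - x) * (y - x)) by ring]
    exact add_le_P e3 (add_le_P (c := 9 - κ + i - 2 * i1)
      (two_mul_le_P (mul_le_P e2 dy le_rfl) (Int.lt_succ _))
      (mul_le_P (mul_le_P n2.le dy le_rfl) dy le_rfl) (by omega) (by omega)) (by omega) (by omega)

end ExOrd
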