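import Pool.Agent.Lib.MP_a94b90_nt.ES.Stmt
import Pool.Agent.Lib.MP_a94b90_nt.EX.Z

/-! ES: a point that avoids the main and the tail events has no violating form. -/

namespace ExOrd
open Set

namespace SDed

/-- a violating form can be taken primitive. -/
theorem prim {c x : ℝ} {a b d : ℤ} (h0 : ¬ (a = 0 ∧ b = 0 ∧ d = 0))
    (h : |Lv a b d x| * (Ht a b d : ℝ) ^ 2 < c) :
    ∃ a b d : ℤ, Prim a b d ∧ ¬ (a = 0 ∧ b = 0 ∧ d = 0) ∧
      |Lv a b d x| * (Ht a b d : ℝ) ^ 2 < c := by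
  obtain ⟨g, hg⟩ : ∃ g : ℤ, g = gcd a (gcd b d) := ⟨_, rfl⟩
  have ga : g ∣ a := hg ▸ gcd_dvd_left _ _
  have gb : g ∣ b := hg ▸ (gcd_dvd_right _ _).trans (gcd_dvd_left _ _)
  have gd : g ∣ d := hg ▸ (gcd_dvd_right _ _).trans (gcd_dvd_right _ _)
  have hm : ∀ t : ℤ, t ∣ a → t ∣ b → t ∣ d → t ∣ g := fun t h1 h2 h3 =>
    hg ▸ dvd_gcd h1 (dvd_gcd h2 h3)
  clear hg
  obtain ⟨a', rfl⟩ := ga
  obtain ⟨b', rfl⟩ := gb
  obtain ⟨d', rfl⟩ := gd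
  have g0 : g ≠ 0 := fun e => h0 (by simp [e])
  refine ⟨a', b', d', fun t h1 h2 h3 => ?_, fun e => h0 (by simp [e.1, e.2.1, e.2.2]), ?_⟩
  · have h4 := hm (g * t) (mul_dvd_mul_left g h1) (mul_dvd_mul_left g h2) (mul_dvd_mul_left g h3)
    exact isUnit_of_dvd_one ((mul_dvd_mul_iff_left g0).1 (by simpa using h4))
  · refine lt_of_le_of_lt ?_ h
    have g1 : (1 : ℝ) ≤ |(g : ℝ)| := by exact_mod_cast Int.one_le_abs g0
    have g2 : 1 ≤ g.natAbs := Int.natAbs_pos.2 g0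
    have g3 : (Ht a' b' d' : ℝ) ≤ (g.natAbs * Ht a' b' d' : ℕ) := by
      exact_mod_cast Nat.le_mul_of_pos_left _ g2
    rw [Ht_mul, Lv_mul, abs_mul]
    exact mul_le_mul (le_mul_of_one_le_left (abs_nonneg _) g1)
      (pow_le_pow_left₀ (Nat.cast_nonneg _) g3 2) (by positivity) (by positivity)

/-- with small value and derivative the height is at most four times the leading coefficient. -/
theorem ht_le {x : ℝ} {a b d : ℤ} (h0 : 0 ≤ x) (h1 : x ≤ 1) (ha : a ≠ 0)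
    (hL : |Lv a b d x| ≤ 1 / 2) (hD : |Dv a b x| ≤ 1 / 2) : (Ht a b d : ℝ) ≤ 4 * |(a : ℝ)| := by
  have a1 : (1 : ℝ) ≤ |(a : ℝ)| := by exact_mod_cast Int.one_le_abs ha
  have e1 : |(a : ℝ) * x| ≤ |(a : ℝ)| := by
    rw [abs_mul, abs_of_nonneg h0]; exact mul_le_of_le_one_right (abs_nonneg _) h1
  have e2 : |(a : ℝ) * x * x| ≤ |(a : ℝ)| := by
    rw [abs_mul, abs_of_nonneg h0]; exact (mul_le_of_le_one_right (abs_nonneg _) h1).trans e1
  have e3 : |(b : ℝ) * x| ≤ |(b : ℝ)| := by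
    rw [abs_mul, abs_of_nonneg h0]; exact mul_le_of_le_one_right (abs_nonneg _) h1
  unfold Lv at hL
  unfold Dv at hD
  have f1 := abs_le.1 e1
  have f2 := abs_le.1 e2
  have f3 := abs_le.1 hL
  have f4 := abs_le.1 hD
  have hb : |(b : ℝ)| ≤ 2 * |(a : ℝ)| + 1 / 2 := by
    rw [abs_le]; constructor <;> linarith [f1.1, f1.2, f4.1, f4.2]
  have f5 := abs_le.1 (e3.trans hb)
  refine Ht_le (by linarith) (by linarith) ?_
  rw [abs_le]; constructor <;> nlinarith [f2.1, f2.2, f3.1, f3.2, f5.1, f5.2]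

/-- a degenerate form is a multiple of the square of a rational linear form. -/
theorem sq_form {a b d : ℤ} (ha : a ≠ 0) (hd : b ^ 2 = 4 * a * d) :
    ∃ ρ : ℚ, (ρ.den : ℝ) ^ 2 ≤ |(a : ℝ)| ∧ ∀ x : ℝ, Lv a b d x = a * (x - ρ) ^ 2 := by
  have haQ : (a : ℚ) ≠ 0 := by exact_mod_cast ha
  have haR : (a : ℝ) ≠ 0 := by exact_mod_cast ha
  have hdQ : (b : ℚ) ^ 2 = 4 * a * d := by exact_mod_cast hd
  obtain ⟨ρ, hρ⟩ : ∃ ρ : ℚ, ρ = -(b : ℚ) / (2 * a) := ⟨_, rfl⟩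
  have h1 : (a : ℚ) * ρ ^ 2 = d := by
    rw [hρ]
    field_simp
    linarith
  have hρR : (ρ : ℝ) = -(b : ℝ) / (2 * a) := by rw [hρ]; push_cast; ring
  refine ⟨ρ, Z.den_sq_le ha ρ h1, fun x => ?_⟩
  have hb' : (b : ℝ) = -(2 * a * ρ) := by rw [hρR]; field_simp
  have hc' : (d : ℝ) = a * (ρ : ℝ) ^ 2 := by exact_mod_cast h1.symm
  unfold Lv
  rw [hb', hc']; ring

end SDed

theorem ded : DedStmt := by
  intro c x κ q n n' l0 l1 hc hκ hl hn hx0 hx1 hT hM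
  have h0 : 0 ≤ x := by linarith [P_le_one (show (-3 * n' : ℤ) ≤ 0 by omega)]
  refine ⟨⟨h0, hx1⟩, fun a0 b0 d0 hz => ?_⟩
  by_contra hv
  obtain ⟨a, b, d, hp, hne, hv⟩ := SDed.prim hz (not_le.1 hv)
  have hH : (1 : ℝ) ≤ Ht a b d := by
    exact_mod_cast Nat.one_le_iff_ne_zero.2 fun e => hne (Ht_eq_zero.1 e)
  obtain ⟨k, hk1, hk2⟩ := exists_mem_Ioc_zpow (lt_of_lt_of_le one_pos hH)
    (show (1 : ℝ) < 2 by norm_num)
  have hk0 : 0 ≤ k + 1 := le_of_P_le (P_zero ▸ hH.trans hk2)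
  obtain ⟨i, hi⟩ := Int.eq_ofNat_of_zero_le hk0
  have H1 : P (i - 1) < Ht a b d := (P_le (show (i - 1 : ℤ) ≤ k by omega)).trans_lt hk1
  have H2 : (Ht a b d : ℝ) ≤ P i := le_P (a := k + 1) hk2 (by omega)
  have hD : |Dv a b x| ≤ P (i - l0) :=
    not_lt.1 fun h => hM i ⟨hx0, hx1, a, b, d, hp, H1, H2, hv, h⟩
  have hA : |(a : ℝ)| ≤ P i := (abs_a_le_Ht a b d).trans H2
  have hL : |Lv a b d x| ≤ P (-6 * q - 6 - 2 * i) := by
    refine div_le_P (d := (Ht a b d : ℝ) ^ 2) (a := 1 - κ) (b := 2 * (i - 1)) ?_ ?_ (by omega)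
    · rw [← P_sq]
      exact (pow_le_pow_left₀ (P_pos _).le H1.le 2).trans (le_abs_self _)
    · rw [abs_mul, abs_of_nonneg (sq_nonneg _), mul_comm]
      exact (hv.trans hc).le
  by_cases hs : P (-1) < |Dv a b x|
  · obtain ⟨m, hm1, hm2⟩ := exists_mem_Ioc_zpow ((P_pos _).trans hs)
      (show (1 : ℝ) < 2 by norm_num)
    have e1 : -1 < m + 1 := lt_of_P_lt (hs.trans_le hm2)
    have e2 : m < i - l0 := lt_of_P_lt (lt_of_lt_of_le hm1 hD)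
    obtain ⟨l, hl'⟩ := Int.eq_ofNat_of_zero_le (show 0 ≤ (i - m - 1) / 3 by omega)
    refine hT (i + (2 * q + 2) - l) (by omega) (Or.inl ⟨l, by omega, by omega, a, b, d,
      ⟨le_P hL (by omega), le_P (a := m + 1) hm2 (by omega), le_P hA (by omega)⟩, ?_⟩)
    exact (P_le (b := m) (by omega)).trans_lt hm1
  have hd : b ^ 2 = 4 * a * d := by
    by_contra hd
    exact hs (rg ⟨hL, hD, hA⟩ (by omega) hd)
  have ha : a ≠ 0 := by
    rintro rfl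
    have hb : b = 0 := by simpa using hd
    subst hb
    have e : Lv 0 0 d x = d := by simp [Lv]
    rw [e] at hL
    exact hne ⟨rfl, rfl, int_zero hL (by omega)⟩
  obtain ⟨ρ, r1, r2⟩ := SDed.sq_form ha hd
  have h4 := SDed.ht_le h0 hx1 ha (P_neg_one ▸ le_P hL (by omega)) (P_neg_one ▸ not_lt.1 hs)
  have h5 : P (i - 3) ≤ |(a : ℝ)| := by
    have := P_shift 2 (show (i - 1 : ℤ) = i - 3 + (2 : ℕ) by push_cast; ring)
    linarith
  rw [r2] at hL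
  have h6 := div_le_P h5 hL le_rfl
  rw [abs_pow] at h6
  exact hT ((i + 2 * q + 1) / 2) (by omega) (Or.inr ⟨ρ, le_P (r1.trans hA) (by omega),
    Z.le_of_sq (abs_nonneg _) h6 (by omega)⟩)

end ExOrd
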