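import Pool.Agent.Lib.MP_a94b90_nt.ES.Stmt
import Pool.Agent.Lib.MP_a94b90_nt.ED.CntG

/-! ES: counting dual vectors in a box. -/

namespace ExOrd
open Set Matrix

namespace SDualCnt

/-- Separated points on a line. -/
theorem line {ι : Type} (T : Finset ι) (g : Fin 3 → ι → ℝ) (G : ℕ)
    (hb : ∀ i, ∀ Q ∈ T, |g i Q| ≤ 2 ^ G)
    (inj : ∀ Q ∈ T, ∀ Q' ∈ T, (∀ i, |g i Q - g i Q'| ≤ 1) → Q = Q')
    (par : ∀ i j Q Q', Q ∈ T → Q' ∈ T → g i Q * g j Q' = g j Q * g i Q') :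
    (T.card : ℝ) ≤ P (G + 2) := by
  rcases T.eq_empty_or_nonempty with h | h
  · simp only [h, Finset.card_empty, Nat.cast_zero]; exact (P_pos _).le
  obtain ⟨⟨i, R⟩, hR, mx⟩ := Finset.exists_max_image (Finset.univ ×ˢ T)
    (fun z : Fin 3 × ι => |g z.1 z.2|) (Finset.univ_nonempty.product h)
  have hR' : R ∈ T := (Finset.mem_product.1 hR).2
  have m : ∀ j, ∀ Q ∈ T, |g j Q| ≤ |g i R| := fun j Q hQ =>
    mx (j, Q) (Finset.mem_product.2 ⟨Finset.mem_univ _, hQ⟩)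
  have k := Finset.card_le_card_of_injOn (s := T) (t := Finset.Icc (-(2 ^ G : ℤ)) (2 ^ G))
    (fun Q => ⌊g i Q⌋) (fun Q hQ => by
      obtain ⟨h1, h2⟩ := abs_le.1 (hb i Q hQ)
      exact Finset.mem_coe.2 (Finset.mem_Icc.2 ⟨Int.le_floor.2 (by push_cast; exact h1),
        Int.cast_le (R := ℝ).1 ((Int.floor_le _).trans (by push_cast; exact h2))⟩))
    (fun Q hQ Q' hQ' e => inj Q hQ Q' hQ' fun j => by
      have h1 := (Int.abs_sub_lt_one_of_floor_eq_floor e).le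
      rcases (abs_nonneg (g i R)).eq_or_lt with z | z
      · rw [abs_nonpos_iff.1 ((m j Q hQ).trans z.ge), abs_nonpos_iff.1 ((m j Q' hQ').trans z.ge)]
        simp
      · have h2 : |g j Q - g j Q'| * |g i R| = |g i Q - g i Q'| * |g j R| := by
          rw [← abs_mul, ← abs_mul, sub_mul, sub_mul, par j i Q R hQ hR', par j i Q' R hQ' hR']
        refine le_of_mul_le_mul_right (h2 ▸ ?_) z
        exact mul_le_mul h1 (m j R hR') (abs_nonneg _) zero_le_one)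
  rw [Int.card_Icc] at k
  have k1 : (T.card : ℤ) ≤ 2 ^ G + 1 - -2 ^ G :=
    (Int.le_toNat (by have : (0 : ℤ) < 2 ^ G := by positivity
                      linarith)).1 k
  have k2 : (T.card : ℝ) ≤ 2 ^ G + 1 - -2 ^ G := by exact_mod_cast k1
  have k3 : P (G + 2) = 2 ^ 2 * 2 ^ G := by rw [← P_nat G]; exact P_shift 2 rfl
  have k4 : (1 : ℝ) ≤ 2 ^ G := one_le_pow₀ one_le_two
  linarith

variable {a1 a2 a3 : ℤ} {x : ℝ} {u v w : Fin 3 → ℤ}

/-- The box of dual vectors. -/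
def In (a1 a2 a3 : ℤ) (x : ℝ) (V : Fin 3 → ℤ) : Prop :=
  |(V 0 : ℝ)| ≤ P a1 ∧ |(V 0 : ℝ) * x - V 1| ≤ P a2 ∧
    |(V 0 : ℝ) * x ^ 2 - 2 * V 1 * x + V 2| ≤ P a3

theorem minors (h : In a1 a2 a3 x u) (h' : In a1 a2 a3 x v) :
    Bx (a2 + a3 + 1) (a1 + a3 + 1) (a1 + a2 + 1) x (u 0 * v 1 - u 1 * v 0) (u 2 * v 0 - u 0 * v 2)
      (u 1 * v 2 - u 2 * v 1) := by
  obtain ⟨p1, p2, p3⟩ := h
  obtain ⟨q1, q2, q3⟩ := h'
  refine ⟨?_, ?_, ?_⟩
  · convert sub_le_P (c := a2 + a3 + 1) (mul_le_P p3 q2 le_rfl) (mul_le_P p2 q3 le_rfl) (by omega)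
      (by omega) using 2
    unfold Lv; push_cast; ring
  · convert sub_le_P (c := a1 + a3 + 1) (mul_le_P p3 q1 le_rfl) (mul_le_P p1 q3 le_rfl) (by omega)
      (by omega) using 2
    unfold Dv; push_cast; ring
  · convert sub_le_P (c := a1 + a2 + 1) (mul_le_P p2 q1 le_rfl) (mul_le_P p1 q2 le_rfl) (by omega)
      (by omega) using 2
    push_cast; ring

/-- The determinant. -/
def dt (u v w : Fin 3 → ℤ) : ℤ :=
  (u 1 * v 2 - u 2 * v 1) * w 0 + (u 2 * v 0 - u 0 * v 2) * w 1 + (u 0 * v 1 - u 1 * v 0) * w 2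

theorem det_eq (A : Matrix (Fin 3) (Fin 3) ℤ) : A.det = dt (A 0) (A 1) (A 2) := by
  rw [det_fin_three, dt]; ring

theorem dt_le (h : In a1 a2 a3 x u) (h' : In a1 a2 a3 x v) (h'' : In a1 a2 a3 x w) :
    |(dt u v w : ℝ)| ≤ 3 * P (a1 + a2 + a3 + 1) := by
  obtain ⟨p1, p2, p3⟩ := minors h h'
  obtain ⟨q1, q2, q3⟩ := h''
  have t1 := mul_le_P (c := a1 + a2 + a3 + 1) q1 p1 (by omega)
  have t2 := mul_le_P (c := a1 + a2 + a3 + 1) q2 p2 (by omega)
  have t3 := mul_le_P (c := a1 + a2 + a3 + 1) q3 p3 (by omega)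
  rw [← abs_neg] at t2
  refine le_trans (le_of_eq ?_) ((abs_add_three _ _ _).trans
    ((add_le_add (add_le_add t1 t2) t3).trans (by linarith)))
  congr 1
  unfold dt Lv Dv; push_cast; ring

theorem dt_pl (h0 : ∀ a b c : ℤ, Bx (-a1) (-a2) (-a3) x a b c → a = 0 ∧ b = 0 ∧ c = 0)
    {a b c : ℤ} (h : In a1 a2 a3 x u) (h' : In a1 a2 a3 x v) (hu : c * u 0 + b * u 1 + a * u 2 = 0)
    (hv : c * v 0 + b * v 1 + a * v 2 = 0) (hw : c * w 0 + b * w 1 + a * w 2 = 1) :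
    |(dt u v w : ℝ)| ≤ P (a1 + a2 + a3 + 1) := by
  by_contra hn
  have hk := (not_le.1 hn).le
  obtain ⟨p1, p2, p3⟩ := minors h h'
  have e1 : u 0 * v 1 - u 1 * v 0 = dt u v w * a := by
    unfold dt
    linear_combination (-(v 0 * w 1 - v 1 * w 0)) * hu - (w 0 * u 1 - w 1 * u 0) * hv -
      (u 0 * v 1 - u 1 * v 0) * hw
  have e2 : u 2 * v 0 - u 0 * v 2 = dt u v w * b := by
    unfold dt
    linear_combination (-(v 2 * w 0 - v 0 * w 2)) * hu - (w 2 * u 0 - w 0 * u 2) * hv -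
      (u 2 * v 0 - u 0 * v 2) * hw
  have e3 : u 1 * v 2 - u 2 * v 1 = dt u v w * c := by
    unfold dt
    linear_combination (-(v 1 * w 2 - v 2 * w 1)) * hu - (w 1 * u 2 - w 2 * u 1) * hv -
      (u 1 * v 2 - u 2 * v 1) * hw
  rw [e1, e2] at p1 p2
  rw [e3] at p1
  rw [e1, Int.cast_mul] at p3
  generalize dt u v w = k at hk p1 p2 p3
  rw [show Lv (k * a) (k * b) (k * c) x = k * Lv a b c x by unfold Lv; push_cast; ring] at p1
  rw [show Dv (k * a) (k * b) x = k * Dv a b x by unfold Dv; push_cast; ring] at p2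
  obtain ⟨rfl, rfl, rfl⟩ := h0 a b c
    ⟨div_le_P hk p1 (by omega), div_le_P hk p2 (by omega), div_le_P hk p3 (by omega)⟩
  simp at hw

theorem bez (a b c : ℤ) (h : ¬ (a = 0 ∧ b = 0 ∧ c = 0)) : ∃ (g a' b' c' : ℤ) (w : Fin 3 → ℤ),
    g ≠ 0 ∧ a = g * a' ∧ b = g * b' ∧ c = g * c' ∧ c' * w 0 + b' * w 1 + a' * w 2 = 1 := by
  have g1 := Int.gcd_eq_gcd_ab a b
  have g2 := Int.gcd_eq_gcd_ab (Int.gcd a b) c
  obtain ⟨a', ea⟩ := (Int.gcd_dvd_left (Int.gcd a b) c).trans (Int.gcd_dvd_left a b)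
  obtain ⟨b', eb⟩ := (Int.gcd_dvd_left (Int.gcd a b) c).trans (Int.gcd_dvd_right a b)
  obtain ⟨c', ec⟩ := Int.gcd_dvd_right (Int.gcd a b) c
  generalize Int.gcdA a b = A at g1
  generalize Int.gcdB a b = B at g1
  generalize Int.gcdA (Int.gcd a b) c = C at g2
  generalize Int.gcdB (Int.gcd a b) c = E at g2
  generalize ((Int.gcd (Int.gcd a b) c : ℕ) : ℤ) = g at g2 ea eb ec
  have g0 : g ≠ 0 := fun e => h (by rw [e, zero_mul] at ea eb ec; exact ⟨ea, eb, ec⟩)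
  refine ⟨g, a', b', c', ![E, B * C, A * C], g0, ea, eb, ec, mul_left_cancel₀ g0 ?_⟩
  simp only [cons_val_zero, cons_val_one, cons_val]
  linear_combination (-E) * ec - B * C * eb - A * C * ea - C * g1 - g2

theorem main {G : ℕ} (T : Finset (Fin 3 → ℤ))
    (h0 : ∀ a b c : ℤ, Bx (-a1) (-a2) (-a3) x a b c → a = 0 ∧ b = 0 ∧ c = 0)
    (h1 : ∀ p q t : ℤ, |(p : ℝ)| ≤ P (a1 - G) → |(p : ℝ) * x - q| ≤ P (a2 - G) →
      |(p : ℝ) * x ^ 2 - 2 * q * x + t| ≤ P (a3 - G) → p = 0 ∧ q = 0 ∧ t = 0)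
    (hT : ∀ V ∈ T, In a1 a2 a3 x V) : (T.card : ℝ) ≤ P (a1 + a2 + a3 + 8) + P (G + 2) := by
  classical
  have e8 : P (a1 + a2 + a3 + 8) = 2 ^ 7 * P (a1 + a2 + a3 + 1) := P_shift 7 (by push_cast; ring)
  have p8 := P_pos (a1 + a2 + a3 + 1)
  by_cases hz : ∀ u ∈ T, ∀ v ∈ T,
      u 0 * v 1 - u 1 * v 0 = 0 ∧ u 2 * v 0 - u 0 * v 2 = 0 ∧ u 1 * v 2 - u 2 * v 1 = 0
  · refine le_add_of_nonneg_of_le (P_pos _).le ?_
    let g : Fin 3 → (Fin 3 → ℤ) → ℝ := ![fun V => (V 0 : ℝ) / P (a1 - G),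
      fun V => ((V 0 : ℝ) * x - V 1) / P (a2 - G),
      fun V => ((V 0 : ℝ) * x ^ 2 - 2 * V 1 * x + V 2) / P (a3 - G)]
    have lin : ∀ i, ∃ m0 m1 m2 : ℝ, ∀ V, g i V = m0 * V 0 + m1 * V 1 + m2 * V 2 := fun i => by
      fin_cases i
      · exact ⟨1 / P (a1 - G), 0, 0, fun V => by simp only [g]; simp; ring⟩
      · exact ⟨x / P (a2 - G), -1 / P (a2 - G), 0, fun V => by simp only [g]; simp; ring⟩
      · exact ⟨x ^ 2 / P (a3 - G), -2 * x / P (a3 - G), 1 / P (a3 - G),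
          fun V => by simp only [g]; simp; ring⟩
    refine line T g G (fun i Q hQ => ?_) (fun Q _ Q' _ h => ?_) fun i j Q Q' hQ hQ' => ?_
    · obtain ⟨p1, p2, p3⟩ := hT Q hQ
      fin_cases i
      · exact Cnt.div_le (by rwa [sub_add_cancel])
      · exact Cnt.div_le (by rwa [sub_add_cancel])
      · exact Cnt.div_le (by rwa [sub_add_cancel])
    · obtain ⟨z0, z1, z2⟩ := h1 (Q 0 - Q' 0) (Q 1 - Q' 1) (Q 2 - Q' 2)
        (by convert Cnt.sub_le (h 0) using 2; push_cast; ring)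
        (by convert Cnt.sub_le (h 1) using 2; push_cast; ring)
        (by convert Cnt.sub_le (h 2) using 2; push_cast; ring)
      funext i
      fin_cases i
      exacts [sub_eq_zero.1 z0, sub_eq_zero.1 z1, sub_eq_zero.1 z2]
    · obtain ⟨m0, m1, m2, hm⟩ := lin i
      obtain ⟨n0, n1, n2, hn⟩ := lin j
      obtain ⟨z0, z1, z2⟩ := hz Q hQ Q' hQ'
      have y0 : (Q 0 : ℝ) * Q' 1 - Q 1 * Q' 0 = 0 := by exact_mod_cast z0
      have y1 : (Q 2 : ℝ) * Q' 0 - Q 0 * Q' 2 = 0 := by exact_mod_cast z1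
      have y2 : (Q 1 : ℝ) * Q' 2 - Q 2 * Q' 1 = 0 := by exact_mod_cast z2
      rw [hm, hm, hn, hn]
      linear_combination (m0 * n1 - m1 * n0) * y0 + (m2 * n0 - m0 * n2) * y1 +
        (m1 * n2 - m2 * n1) * y2
  refine le_add_of_le_of_nonneg ?_ (P_pos _).le
  by_cases hd : ∃ u ∈ T, ∃ v ∈ T, ∃ w ∈ T, dt u v w ≠ 0
  · obtain ⟨u, hu, v, hv, w, hw, hd⟩ := hd
    have k := DCntG.vol T (D := 3 * P (a1 + a2 + a3 + 1)) (fun A hA => by
      rw [det_eq]
      exact dt_le (hT _ (hA 0)) (hT _ (hA 1)) (hT _ (hA 2))) (Matrix.of ![u, v, w])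
      (fun i => by fin_cases i <;> assumption) (by rw [det_eq]; exact hd)
    linarith
  push Not at hd
  simp only [not_forall] at hz
  obtain ⟨u, hu, v, hv, hz⟩ := hz
  obtain ⟨g, a, b, c, w, g0, ea, eb, ec, hw⟩ := bez _ _ _ hz
  have pl : ∀ V ∈ T, c * V 0 + b * V 1 + a * V 2 = 0 := fun V hV => mul_left_cancel₀ g0 (by
    have := hd u hu v hv V hV
    rw [dt, ea, eb, ec] at this
    linear_combination this)
  have k1 : ∀ r ∈ T, ∀ s ∈ T, |(dt r s w : ℝ)| ≤ P (a1 + a2 + a3 + 1) := fun r hr s hs =>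
    dt_pl h0 (hT r hr) (hT s hs) (pl r hr) (pl s hs) hw
  have k0 : ∀ {d : ℤ}, d = 0 → |(d : ℝ)| ≤ P (a1 + a2 + a3 + 1) := fun e => by
    rw [e, Int.cast_zero, abs_zero]; exact p8.le
  have k := DCntG.vol (insert w T) (D := P (a1 + a2 + a3 + 1)) (fun A hA => by
    rw [det_eq]
    have m0 := Finset.mem_insert.1 (hA 0)
    have m1 := Finset.mem_insert.1 (hA 1)
    have m2 := Finset.mem_insert.1 (hA 2)
    generalize A 0 = r at m0 ⊢
    generalize A 1 = s at m1 ⊢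
    generalize A 2 = t at m2 ⊢
    rcases m0 with rfl | m0
    · rcases m1 with rfl | m1
      · exact k0 (by unfold dt; ring)
      · rcases m2 with rfl | m2
        · exact k0 (by unfold dt; ring)
        · rw [show dt r s t = dt s t r by unfold dt; ring]; exact k1 s m1 t m2
    · rcases m1 with rfl | m1
      · rcases m2 with rfl | m2
        · exact k0 (by unfold dt; ring)
        · rw [show dt r s t = dt t r s by unfold dt; ring]; exact k1 t m2 r m0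
      · rcases m2 with rfl | m2
        · exact k1 r m0 s m1
        · exact k0 (hd r m0 s m1 t m2)) (Matrix.of ![u, v, w])
    (fun i => by
      fin_cases i
      exacts [Finset.mem_insert_of_mem hu, Finset.mem_insert_of_mem hv,
        Finset.mem_insert_self _ _]) (by
      rw [det_eq]
      show dt u v w ≠ 0
      rw [dt, ea, eb, ec]
      intro e
      exact g0 (by linear_combination e - g * hw))
  have k2 : (T.card : ℝ) ≤ (insert w T).card := by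
    exact_mod_cast Finset.card_le_card (Finset.subset_insert w T)
  linarith

end SDualCnt

theorem dualCnt : DualCntStmt := by
  classical
  intro a1 a2 a3 G x T h0 h1 hT
  have hφ : Function.Injective fun Q : ℤ × ℤ × ℤ => ![Q.1, Q.2.1, Q.2.2] := fun Q Q' e =>
    Prod.ext (congrFun e 0) (Prod.ext (congrFun e 1) (congrFun e 2))
  rw [← Finset.card_image_of_injective T hφ]
  refine SDualCnt.main _ h0 h1 fun V hV => ?_
  obtain ⟨Q, hQ, rfl⟩ := Finset.mem_image.1 hV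
  exact hT Q hQ

end ExOrd
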