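import Pool.Agent.Lib.MP_a94b90_nt.ES.Stmt

/-! ES: the gaps of the forms of one square. -/

namespace ExOrd
open Set

namespace SFSq

theorem num {ε : ℝ} (h0 : 0 < ε) :
    (1 - 30 * ε) * ((1 + ε / 2) * (1 + ε) ^ 2) ≤ (1 - 2 * ε / 5) * (1 - ε / 4) := by
  nlinarith [mul_pos h0 h0, mul_pos h0 (mul_pos h0 h0), mul_pos (mul_pos h0 h0) (mul_pos h0 h0)]

theorem dv {s x0 h x a b u v k : ℝ} (hs : 0 < s) (hu : |u| ≤ k) (hx0 : 0 ≤ x0) (h1 : x0 ≤ x)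
    (h2 : x ≤ x0 + h) (hx : x ≤ 1) (hk : (k + 2) * h ≤ 1) (ha : u * s ≤ a ∧ a < u * s + s)
    (hb : v * s ≤ b ∧ b < v * s + s) :
    s * (2 * u * x0 + v - 2) ≤ 2 * a * x + b ∧ 2 * a * x + b ≤ s * (2 * u * x0 + v + 5) := by
  have k0 : 0 ≤ k := (abs_nonneg _).trans hu
  have k1 : |u * (x - x0)| ≤ 1 := by
    rw [abs_mul, abs_of_nonneg (sub_nonneg.2 h1)]
    have := mul_le_mul hu (show x - x0 ≤ h by linarith) (sub_nonneg.2 h1) k0
    nlinarith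
  obtain ⟨k2, k3⟩ := abs_le.1 k1
  have k4 := mul_le_mul_of_nonneg_left k2 hs.le
  have k5 := mul_le_mul_of_nonneg_left k3 hs.le
  have k6 := mul_le_mul_of_nonneg_right ha.1 (hx0.trans h1)
  have k7 := mul_le_mul_of_nonneg_right ha.2.le (hx0.trans h1)
  have k8 := mul_le_mul_of_nonneg_left hx hs.le
  constructor <;> nlinarith [hb.1, hb.2]

theorem ab {s a u k t : ℝ} (hs : 0 < s) (hu : |u| ≤ k) (h1 : u * s ≤ a) (h2 : a ≤ u * s + t * s)
    (ht : 0 ≤ t) : |a| ≤ (k + t) * s := by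
  obtain ⟨k2, k3⟩ := abs_le.1 hu
  have k4 := mul_le_mul_of_nonneg_right k2 hs.le
  have k5 := mul_le_mul_of_nonneg_right k3 hs.le
  have k6 := mul_nonneg ht hs.le
  rw [abs_le]
  constructor <;> nlinarith

theorem cvx {x p q M : ℝ} (h0 : 0 ≤ x) (h1 : x ≤ 1) (hp : |p| ≤ M) (hq : |q| ≤ M) :
    |x * p + (1 - x) * q| ≤ M := by
  obtain ⟨k1, k2⟩ := abs_le.1 hp
  obtain ⟨k3, k4⟩ := abs_le.1 hq
  have h2 := sub_nonneg.2 h1
  have := mul_le_mul_of_nonneg_left k1 h0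
  have := mul_le_mul_of_nonneg_left k2 h0
  have := mul_le_mul_of_nonneg_left k3 h2
  have := mul_le_mul_of_nonneg_left k4 h2
  rw [abs_le]
  constructor <;> nlinarith

theorem ht {s x u v k : ℝ} {a b d : ℤ} (hs : 0 < s) (hu : |u| ≤ k) (hv : |v| ≤ k)
    (huv : |u + v| ≤ k) (h0 : 0 ≤ x) (h1 : x ≤ 1) (ha : u * s ≤ a ∧ a < u * s + s)
    (hb : v * s ≤ b ∧ b < v * s + s) (hL : |Lv a b d x| ≤ 1) :
    (Ht a b d : ℝ) ≤ (k + 2) * s + 1 := by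
  have k1 : |(a : ℝ)| ≤ (k + 2) * s := ab hs hu ha.1 (by linarith [ha.2]) (by norm_num)
  have k2 : |(b : ℝ)| ≤ (k + 2) * s := ab hs hv hb.1 (by linarith [hb.2]) (by norm_num)
  have k3 : |(a : ℝ) + b| ≤ (k + 2) * s :=
    ab hs huv (by linarith [ha.1, hb.1]) (by linarith [ha.2, hb.2]) (by norm_num)
  have k4 := cvx h0 h1 k3 k2
  have k5 := cvx h0 h1 k4 (show |(0 : ℝ)| ≤ _ from by simpa using (abs_nonneg _).trans k1)
  refine Ht_le (by linarith) (by linarith) ?_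
  have e : (d : ℝ) = Lv a b d x - (x * (x * (a + b) + (1 - x) * b) + (1 - x) * 0) := by
    unfold Lv; ring
  rw [e]
  exact (abs_sub _ _).trans (by linarith)

/-- the final inequality. -/
theorem fin {ε c s z h k D J τ : ℝ} (h0 : 0 < ε) (h1 : ε ≤ 1 / 100) (hc : 0 < c) (hz : 0 ≤ z)
    (hs : 0 < s) (hh : 0 < h) (hk : 0 < k) (hD : 0 < D) (hDk : D ≤ 2 * k) (hJ : 0 < J)
    (hτ : τ * ((1 + ε) * k * s) ^ 2 = c) (hτ' : 10 * τ ≤ ε * (s * D * h))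
    (hj : 16 * (k * s) ^ 3 ≤ ε * c * J) :
    0 ≤ 2 * τ * J / (s * D * (1 + ε / 2)) - 2 ∧
    (1 - 30 * ε) * (2 * c * z * (J * h)) / k ^ 2 ≤
      z * (s ^ 2 * (s * D * (1 - ε / 5) * h - 2 * τ)) * (2 * τ * J / (s * D * (1 + ε / 2)) - 2) := by
  have hks : 0 < k * s := mul_pos hk hs
  have hτ0 : 0 < τ := by
    by_contra hn
    have := mul_nonpos_of_nonpos_of_nonneg (not_lt.1 hn) (sq_nonneg ((1 + ε) * k * s))
    linarith
  obtain ⟨g, hg⟩ : ∃ g, g = 2 * τ * J / (s * D * (1 + ε / 2)) := ⟨_, rfl⟩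
  have hp : 0 < s * D * (1 + ε / 2) := by positivity
  have e1 : g * (s * D * (1 + ε / 2)) = 2 * τ * J := by rw [hg]; field_simp
  have g0 : 0 < g := by rw [hg]; positivity
  have k1 : 16 * (k * s) ≤ ε * τ * J * (1 + ε) ^ 2 := by
    refine le_of_mul_le_mul_right ?_ (pow_pos hks 2)
    calc 16 * (k * s) * (k * s) ^ 2 = 16 * (k * s) ^ 3 := by ring
      _ ≤ ε * c * J := hj
      _ = _ := by rw [← hτ]; ring
  have k2 : (1 + ε / 2) * (1 + ε) ^ 2 ≤ 2 := by nlinarith [mul_pos h0 h0, mul_pos h0 (mul_pos h0 h0)]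
  have k3 : 8 ≤ ε * g := by
    refine le_of_mul_le_mul_right ?_ (show 0 < 4 * (k * s) by positivity)
    have a1 : s * D * ((1 + ε / 2) * (1 + ε) ^ 2) ≤ s * (2 * k) * 2 := by gcongr
    have a2 := mul_le_mul_of_nonneg_left a1 (mul_pos h0 g0).le
    have a3 : ε * g * (s * D * ((1 + ε / 2) * (1 + ε) ^ 2)) = 2 * (ε * τ * J * (1 + ε) ^ 2) := by
      linear_combination (ε * (1 + ε) ^ 2) * e1
    nlinarith
  have k4 : (1 - ε / 4) * g ≤ g - 2 := by linarith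
  have k5 : 0 ≤ (1 - ε / 4) * g := mul_nonneg (by linarith) g0.le
  have k6 : (1 - 2 * ε / 5) * (s * D * h) ≤ s * D * (1 - ε / 5) * h - 2 * τ := by linarith
  have k7 : 0 ≤ (1 - 2 * ε / 5) * (s * D * h) := mul_nonneg (by linarith) (by positivity)
  rw [← hg]
  refine ⟨by linarith, le_trans ?_ (mul_le_mul (mul_le_mul_of_nonneg_left
    (mul_le_mul_of_nonneg_left k6 (sq_nonneg s)) hz) k4 k5
    (mul_nonneg hz (mul_nonneg (sq_nonneg s) (k7.trans k6))))⟩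
  rw [div_le_iff₀ (pow_pos hk 2)]
  refine le_of_mul_le_mul_right ?_ (show 0 < (1 + ε / 2) * (1 + ε) ^ 2 by positivity)
  have a1 := mul_le_mul_of_nonneg_right (num h0) (show 0 ≤ 2 * c * z * (J * h) by positivity)
  have a2 : z * (s ^ 2 * ((1 - 2 * ε / 5) * (s * D * h))) * ((1 - ε / 4) * g) * k ^ 2 *
      ((1 + ε / 2) * (1 + ε) ^ 2) = (1 - 2 * ε / 5) * (1 - ε / 4) * (2 * c * z * (J * h)) := by
    rw [← hτ]
    linear_combination (z * s ^ 2 * (1 - 2 * ε / 5) * h * (1 - ε / 4) * k ^ 2 * (1 + ε) ^ 2) * e1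
  rw [a2]
  linarith

end SFSq

open SFSq

theorem fsq (hf : FinStmt) (h : FormLoStmt) : FSqStmt := by
  intro ε c s z m j A k Y u v h0 h1 hc _ hz hmj hsub hN hD hk hs hkh h8 hch hj hcnt
  have hh := P_pos (-3 * m)
  have hl := hsub (node_left m A)
  obtain ⟨w, hw⟩ : ∃ w, w = P (-3 * m) := ⟨_, rfl⟩
  obtain ⟨x0, hx0⟩ : ∃ x0, x0 = (A : ℝ) * P (-3 * m) := ⟨_, rfl⟩
  rw [← hx0] at hD hcnt hl ⊢
  obtain ⟨D, hDe⟩ : ∃ D, D = 2 * u * x0 + v := ⟨_, rfl⟩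
  have u1 := abs_a_le_Nh u v
  have u2 := abs_b_le_Nh u v
  have u3 := abs_ab_le_Nh u v
  rw [hN] at u1 u2 u3
  rw [← hDe] at hD ⊢
  have s1 : 100 ≤ s := by nlinarith
  have s0 : 0 < s := by linarith
  have k1 : (1000 : ℝ) ≤ k := by nlinarith
  have d1 : 1000 ≤ D := by nlinarith
  have d2 : D ≤ 2 * k := by
    have a1 := (abs_le.1 (cvx hl.1 hl.2 u3 u2)).2
    have a2 := (abs_le.1 (cvx hl.1 hl.2 u1 (show |(0 : ℝ)| ≤ k by simp))).2
    rw [hDe]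
    linarith
  have hq : 0 < ((1 + ε) * k * s) ^ 2 := by positivity
  obtain ⟨τ, hτ⟩ : ∃ τ, τ * ((1 + ε) * k * s) ^ 2 = c := ⟨c / _, div_mul_cancel₀ _ hq.ne'⟩
  have t0 : 0 < τ := by
    by_contra hn
    have := mul_nonpos_of_nonpos_of_nonneg (not_lt.1 hn) hq.le
    linarith
  rw [← hw] at hh hkh h8 hch hcnt ⊢
  have sw : 0 < s * w := mul_pos s0 hh
  have t1 : τ ≤ ε * (s * w) := by
    refine le_of_mul_le_mul_right ?_ (pow_pos s0 2)
    have a1 : s ^ 2 ≤ ((1 + ε) * k * s) ^ 2 := by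
      refine pow_le_pow_left₀ s0.le (le_mul_of_one_le_left s0.le ?_) 2
      nlinarith
    have a2 := mul_le_mul_of_nonneg_left a1 t0.le
    linarith
  have t2 : 10 * τ ≤ ε * (s * D * w) := by
    have := mul_le_mul_of_nonneg_left (show 10 ≤ D by linarith) (mul_pos h0 sw).le
    linarith
  have t3 : ε * (s * D * w) ≤ 1 / 100 * (s * D * w) :=
    mul_le_mul_of_nonneg_right h1 (by positivity)
  have t4 : 1000 * (s * w) ≤ s * D * w := by nlinarith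
  have t5 : s * D * w ≤ 2 * k * s * w := by nlinarith
  have t6 : 0 < ε * (s * D * w) := by positivity
  obtain ⟨f1, f2⟩ := fin h0 h1 hc hz s0 hh (by linarith) (by linarith) d2 (P_pos (3 * j)) hτ t2 hj
  have hcn := hcnt (τ - s * D * (1 - ε / 5) * w) (s * D * (1 - ε / 5) * w - 2 * τ)
    (by linarith) (by linarith)
  have hfin := (hf x0 (u * s) (v * s) (τ - s * D * (1 - ε / 5) * w) s
    (s * D * (1 - ε / 5) * w - 2 * τ)).subset
    (fun Q (hQ : Q ∈ {Q | InB x0 (u * s) (v * s) (τ - s * D * (1 - ε / 5) * w) s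
      (s * D * (1 - ε / 5) * w - 2 * τ) Q ∧ Rough Y Q.1 Q.2.1 Q.2.2}) => hQ.1)
  have key : ∀ Q ∈ hfin.toFinset, |Lv Q.1 Q.2.1 Q.2.2 x0| ≤ 8 * k * s * w ∧
      ∀ x ∈ Node m A, s * D * (1 - ε / 5) ≤ Dv Q.1 Q.2.1 x ∧
        Dv Q.1 Q.2.1 x ≤ s * D * (1 + ε / 2) := by
    intro Q hQ
    obtain ⟨⟨q1, q2, q3, q4⟩, -⟩ := hfin.mem_toFinset.1 hQ
    refine ⟨abs_le.2 ⟨by linarith, by linarith⟩, fun x hx => ?_⟩
    have a0 := (hsub hx).2
    obtain ⟨a1, a2⟩ := hx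
    rw [add_mul, one_mul, ← hx0] at a2
    rw [← hx0] at a1
    rw [← hw] at a2
    obtain ⟨a3, a4⟩ := dv s0 u1 hl.1 a1 a2 a0 hkh q1 q2
    rw [← hDe] at a3 a4
    have a5 := mul_le_mul_of_nonneg_left hD s0.le
    unfold Dv
    constructor <;> linarith
  refine ⟨hfin.toFinset, fun Q hQ => ?_, ?_⟩
  · obtain ⟨⟨q1, q2, -, -⟩, q5⟩ := hfin.mem_toFinset.1 hQ
    refine ⟨q5, q1, q2, (key Q hQ).1, fun x hx => le_trans ?_ ((key Q hQ).2 x hx).1⟩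
    have := mul_le_mul_of_nonneg_left h1 (show 0 ≤ s * D by positivity)
    have : 0 ≤ s * D := by positivity
    linarith
  · rw [show P (3 * j - 3 * m) = P (3 * j) * w by rw [hw]; exact (P_mul (by ring)).symm]
    rw [Set.ncard_eq_toFinset_card _ hfin] at hcn
    refine f2.trans ((mul_le_mul_of_nonneg_right hcn f1).trans ?_)
    rw [← nsmul_eq_mul]
    refine Finset.card_nsmul_le_sum _ _ _ fun Q hQ => ?_
    obtain ⟨⟨q1, q2, q3, q4⟩, -⟩ := hfin.mem_toFinset.1 hQ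
    have a1 := ht s0 u1 u2 u3 hl.1 hl.2 q1 q2 ((key Q hQ).1.trans h8)
    have a2 : (Ht Q.1 Q.2.1 Q.2.2 : ℝ) ≤ (1 + ε) * k * s := by
      have := mul_le_mul_of_nonneg_right hk s0.le
      linarith
    refine h Q.1 Q.2.1 Q.2.2 m j A c τ (s * D * (1 - ε / 5)) _ hmj
      (mul_pos (by positivity) (by linarith)) t0 ?_ (key Q hQ).2 ?_ ?_
    · rw [← hτ]
      exact mul_le_mul_of_nonneg_left (pow_le_pow_left₀ (Nat.cast_nonneg _) a2 2) t0.le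
    · rw [← hx0, ← hw]; exact q3
    · rw [← hx0]; linarith

end ExOrd
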