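import Pool.Agent.Lib.MP_a94b90_nt.ES.Stmt

/-! ES: a family of primitive forms whose gaps have the right total size. -/

namespace ExOrd
open Set

namespace SFam

theorem dv_le {a b β : ℤ} {t : ℝ} (ht : t ∈ Icc (0 : ℝ) 1) (ha : |(a : ℝ)| ≤ P β)
    (hb : |(b : ℝ)| ≤ P β) : |Dv a b t| ≤ P (β + 2) := by
  have h1 : |t| ≤ P 0 := by rw [P_zero, abs_of_nonneg ht.1]; exact ht.2
  have h2 : |2 * ((a : ℝ) * t)| ≤ P (β + 1) :=
    two_mul_le_P (mul_le_P ha h1 (le_refl (β + 0))) (by omega)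
  rw [Dv, mul_assoc]
  exact add_le_P h2 hb (by omega) (by omega)

theorem cov (h3 : CovStmt) {κ m A : ℕ} {x0 x : ℝ} (hx0 : x0 ∈ Node m A) (hx : x ∈ Node m A)
    (hK : InK κ x0) (hs : Node m A ⊆ Icc 0 1) (hm : κ + 10 ≤ m) :
    Cov x (P (-2 * m + 2 * (κ / 3 : ℕ) + 21)) (P (m + 2 * (κ / 3 : ℕ) + 21)) := by
  have := h3 x (-2 * m - (κ / 3 : ℕ) - 6) (m - (κ / 3 : ℕ) - 6) (26 + 3 * (κ / 3))
    (fun a b c hL ha hb => by
      have hmid : (x + x0) / 2 ∈ Icc (0 : ℝ) 1 :=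
        ⟨by linarith [(hs hx).1, (hs hx0).1], by linarith [(hs hx).2, (hs hx0).2]⟩
      have e : Lv a b c x0 = Lv a b c x + Dv a b ((x + x0) / 2) * (x0 - x) := by
        unfold Lv Dv; ring
      have k : |Lv a b c x0| ≤ P (-2 * m - (κ / 3 : ℕ) - 3) := by
        rw [e]
        exact add_le_P hL (mul_le_P (dv_le hmid ha hb) (node_dist hx0 hx) le_rfl) (by omega)
          (by omega)
      exact zk hK (M := m - (κ / 3 : ℕ) - 6 + 2) ⟨k, dv_le (hs hx0) ha hb, ha⟩ (by omega) (by omega)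
        (by omega) (by omega))
    (by omega) (by omega) (by omega)
  convert this using 2 <;> omega

theorem nh_cast (u v : ℤ) : (Nh u v : ℝ) = max |(u : ℝ)| (max |(v : ℝ)| |(u : ℝ) + v|) := by
  unfold Nh
  push_cast [Nat.cast_max, Nat.cast_natAbs]
  rfl

theorem nh_bd {u v a b : ℤ} {s : ℝ} (ha : u * s ≤ a ∧ a < u * s + s)
    (hb : v * s ≤ b ∧ b < v * s + s) :
    (Nh u v - 2) * s ≤ Nh a b ∧ Nh a b ≤ (Nh u v + 2) * s := by
  have hs : 0 < s := by linarith [ha.1, ha.2]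
  have k : ∀ w t : ℝ, w * s ≤ t → t ≤ w * s + 2 * s → (|w| - 2) * s ≤ |t| ∧ |t| ≤ (|w| + 2) * s :=
    fun w t h1 h2 => by
      have e : |w * s| = |w| * s := by rw [abs_mul, abs_of_pos hs]
      have := abs_abs_sub_abs_le_abs_sub t (w * s)
      have h3 : |t - w * s| ≤ 2 * s := abs_le.2 ⟨by linarith, by linarith⟩
      have h4 := abs_le.1 (this.trans h3)
      constructor <;> linarith [h4.1, h4.2]
  have k1 := k u a ha.1 (by linarith [ha.2])
  have k2 := k v b hb.1 (by linarith [hb.2])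
  have k3 := k (u + v) (a + b) (by linarith [ha.1, hb.1]) (by linarith [ha.2, hb.2])
  have a1 := abs_a_le_Nh a b
  have a2 := abs_b_le_Nh a b
  have a3 := abs_ab_le_Nh a b
  have u1 := mul_le_mul_of_nonneg_right (abs_a_le_Nh u v) hs.le
  have u2 := mul_le_mul_of_nonneg_right (abs_b_le_Nh u v) hs.le
  have u3 := mul_le_mul_of_nonneg_right (abs_ab_le_Nh u v) hs.le
  constructor
  · rw [nh_cast u v]
    rcases max_choice |(u : ℝ)| (max |(v : ℝ)| |(u : ℝ) + v|) with e | e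
    · rw [e]; linarith [k1.1]
    · rw [e]
      rcases max_choice |(v : ℝ)| |(u : ℝ) + v| with e | e <;> rw [e] <;> linarith [k2.1, k3.1]
  · rw [nh_cast a b]
    exact max_le (by linarith [k1.2]) (max_le (by linarith [k2.2]) (by linarith [k3.2]))

theorem uniq {u u' a : ℤ} {s : ℝ} (h : u * s ≤ a ∧ a < u * s + s)
    (h' : u' * s ≤ a ∧ a < u' * s + s) : u = u' := by
  have hs : 0 < s := by linarith [h.1, h.2]
  have k1 : (u : ℝ) < u' + 1 := lt_of_mul_lt_mul_right (by linarith [h.1, h'.2]) hs.le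
  have k2 : (u' : ℝ) < u + 1 := lt_of_mul_lt_mul_right (by linarith [h'.1, h.2]) hs.le
  have k3 : u < u' + 1 := by exact_mod_cast k1
  have k4 : u' < u + 1 := by exact_mod_cast k2
  omega

theorem num {e a b y g H : ℝ} (he : 0 < e) (he1 : e ≤ 1) (ha : a ≤ e / 10) (hb : b ≤ e / 5)
    (hy : 1 / 2 ≤ y) (hg : 2 / 3 ≤ g) (hH : 3 * g - b ≤ H) :
    (1 - e) * (6 * g * y) + e / 4 ≤ (1 - a) * (2 * (y - e / 40)) * H := by
  have k1 : y * (1 - e / 20) ≤ y - e / 40 := by nlinarith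
  have k2 : 3 * g * (1 - e / 10) ≤ H := by nlinarith
  have p1 : 0 ≤ y * (1 - e / 20) := mul_nonneg (by linarith) (by linarith)
  have p2 : 0 ≤ 3 * g * (1 - e / 10) := mul_nonneg (by linarith) (by linarith)
  have k3 : (1 - e / 10) * (2 * (y * (1 - e / 20))) ≤ (1 - a) * (2 * (y - e / 40)) :=
    mul_le_mul (by linarith) (by linarith) (by linarith) (by linarith)
  have p3 : 0 ≤ (1 - e / 10) * (2 * (y * (1 - e / 20))) := mul_nonneg (by linarith) (by linarith)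
  have k4 := mul_le_mul k3 k2 p2 (p3.trans k3)
  have k5 : 1 / 3 ≤ g * y := by nlinarith
  have k6 : 1 - e / 4 ≤ (1 - e / 10) * (1 - e / 20) * (1 - e / 10) := by nlinarith [mul_pos he he]
  have k7 := mul_le_mul_of_nonneg_left k6 (show 0 ≤ 6 * (g * y) by linarith)
  nlinarith

end SFam

open SFam

theorem fam (h1 : FSqStmt) (h2 : SieveStmt) (h3 : CovStmt) (h4 : HexLoStmt) (h5 : NonPrimStmt)
    (h6 : GapCardStmt) : FamStmt := by
  classical
  intro η hη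
  obtain ⟨e, he, he1, he2⟩ : ∃ e : ℝ, 0 < e ∧ e ≤ 1 ∧ e ≤ η :=
    ⟨min 1 η, lt_min one_pos hη, min_le_left _ _, min_le_right _ _⟩
  obtain ⟨w, hw⟩ : ∃ w : ℕ, P (-w) ≤ e / 400 := by
    obtain ⟨w, hw⟩ := exists_nat_ge (400 / e)
    have k1 := nat_lt_P w
    have k2 : P (-w) * P w = 1 := by rw [← P_zero]; exact P_mul (by omega)
    have k3 := P_pos (-w)
    rw [div_le_iff₀ he] at hw
    exact ⟨w, by nlinarith [mul_pos k3 he]⟩
  obtain ⟨Y0, hY0⟩ := exists_nat_ge (P (43 + w) * 4 / e)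
  obtain ⟨Y, ω, hY, hS⟩ := h2 (e / 40) (by positivity) Y0
  have hY1 : P (43 + w) * 4 / e ≤ Y := hY0.trans (by exact_mod_cast hY)
  have hY2 : (0 : ℝ) < Y := lt_of_lt_of_le (by have := P_pos (43 + w); positivity) hY1
  refine ⟨w + 2, w + 6, 40 + ω + 4 * w, fun c x0 κ m i j A hc hc' hκ hx0 hK hs hj hi hi' => ?_⟩
  have hc0 : 0 < c := (P_pos _).trans_le hc
  have hc1 : c ≤ 1 := hc'.le.trans (P_le_one (by omega))
  have hε := P_pos (-w)
  obtain ⟨z1, z2⟩ := Z3_bd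
  have hy : 1 / 2 ≤ 1 / Z3 := one_div_le_one_div_of_le (by linarith) z2
  have hx := node_left m A
  have hcov := cov h3 hx0 hx hK hs (by omega)
  have hM : ((2 ^ (2 * w + 4) : ℕ) : ℝ) = P (2 * w + 4) := by
    rw [Nat.cast_pow, Nat.cast_ofNat, ← P_nat]; congr 1
  have hM0 := P_pos (2 * w + 4)
  have hM1 : P (-w) * P (2 * w + 4) = P (w + 4) := P_mul (by omega)
  have h16 : ∀ t : ℤ, 4 ≤ t → 16 ≤ P t := fun t ht =>
    le_of_eq_of_le (by unfold P; norm_num) (P_le ht)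
  obtain ⟨S, hS1, hS2⟩ := h4 (A * P (-3 * m)) (P (-w)) (2 ^ (2 * w + 4)) (by
    have := h16 (2 * w + 4) (by omega)
    rw [← hM] at this
    have : 16 ≤ 2 ^ (2 * w + 4) := by exact_mod_cast this
    omega) hε
  rw [hM] at hS1 hS2
  obtain ⟨s, hsd⟩ : ∃ s, s = P (i - 1 - (2 * w + 4)) := ⟨_, rfl⟩
  have hs0 : 0 < s := hsd ▸ P_pos _
  have hlen := P_pos (-3 * m)
  have hMs : P (2 * w + 4) * s = P (i - 1) := hsd ▸ P_mul (by omega)
  have hi2 : P i = 2 * P (i - 1) := by rw [← P_succ]; congr 1; omega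
  have hk : ∀ U ∈ S, P (2 * w + 4) + 3 ≤ Nh U.1 U.2 ∧ (Nh U.1 U.2 : ℝ) + 3 ≤ 2 * P (2 * w + 4) :=
    fun U hU => by
      rw [← hM]
      exact ⟨by exact_mod_cast (hS1 U hU).1, by exact_mod_cast (hS1 U hU).2.1⟩
  have hks : ∀ U ∈ S, Nh U.1 U.2 * s ≤ P i := fun U hU => by nlinarith [(hk U hU).2]
  have h8 : ∀ U ∈ S, 8 * (Nh U.1 U.2 : ℝ) * s * P (-3 * m) ≤ P (i + 3 - 3 * m) := fun U hU => by
    have e1 : P (i + 3 - 3 * m) = 2 ^ 3 * P (i - 3 * m) := P_shift 3 (by omega)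
    have e2 : P i * P (-3 * m) = P (i - 3 * m) := P_mul (by omega)
    have := mul_le_mul_of_nonneg_right (hks U hU) hlen.le
    linarith
  have hcP : ∀ t : ℤ, P (3 * i - 2 + 3 * (w + 6) + t) ≤ c * P (3 * j + t) := fun t => by
    have e1 : P (-κ) * P (3 * j + t) = P (3 * j + t - κ) := P_mul (by omega)
    exact (P_le (by omega)).trans (e1.ge.trans (mul_le_mul_of_nonneg_right hc (P_pos _).le))
  have key := fun (U : ℤ × ℤ) (hU : U ∈ S) => h1 (P (-w)) c s (1 / Z3 - e / 40) m j A _ Y U.1 U.2 hε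
    (by linarith) hc0 hc1 (by linarith) (by omega) hs rfl
    (by
      have e1 : P (-w) * P (w + 4) = P 4 := P_mul (by omega)
      have := mul_le_mul_of_nonneg_left (hS1 U hU).2.2 hε.le
      rw [hM1, e1] at this
      linarith [h16 4 le_rfl])
    (by
      have := mul_le_mul_of_nonneg_left (show P (2 * w + 4) ≤ Nh U.1 U.2 by
        linarith [(hk U hU).1]) hε.le
      linarith [h16 (w + 4) (by omega)])
    (by rw [hsd, ← P_add]; exact one_le_P (by omega))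
    (by
      have e1 : P (2 * w + 4) * P (-3 * m) = P (2 * w + 4 - 3 * m) := P_mul (by omega)
      have e2 := P_succ (2 * w + 4 - 3 * m)
      have e3 : P (2 * w + 4 - 3 * m + 1) ≤ 1 := P_le_one (by omega)
      nlinarith [(hk U hU).2])
    ((h8 U hU).trans (P_le_one (by omega)))
    (by rw [hsd, P_cube, ← P_add, ← P_add]; exact hc1.trans (one_le_P (by omega)))
    (by
      have e1 : (Nh U.1 U.2 * s) ^ 3 ≤ P i ^ 3 := pow_le_pow_left₀ (by positivity) (hks U hU) 3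
      have e2 := mul_le_mul_of_nonneg_left (hcP 0) hε.le
      rw [← P_add, add_zero, add_zero] at e2
      have e3 : P (3 * i + 4) = 2 ^ 4 * P (3 * i) := P_shift 4 (by omega)
      have e4 : P (3 * i + 4) ≤ P (-w + (3 * i - 2 + 3 * (w + 6))) := P_le (by omega)
      rw [P_cube] at e1
      linarith)
    (fun l lam a1 a2 => by
      have e1 : s * P (-3 * m) = P (i - 1 - (2 * w + 4) - 3 * m) := hsd ▸ P_mul (by omega)
      have := hS _ _ _ (U.1 * s) (U.2 * s) l s lam hcov (lt_of_lt_of_le (by positivity) a1)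
        (le_trans (by rw [e1, ← P_add]; exact P_le (by omega))
          (mul_le_mul_of_nonneg_left a1 (P_pos _).le))
        (by rw [hsd, ← P_add, ← P_zero]; exact P_add_le (by omega) (by omega))
        (a2.trans ((h8 U hU).trans (P_le (by omega))))
      have e2 := (abs_le.1 this).1
      have e3 : s ^ 2 * lam / Z3 = 1 / Z3 * (s ^ 2 * lam) := by ring
      linarith)
  choose! F hF hF' using key
  have hall : ∀ Q ∈ S.biUnion F, Rough Y Q.1 Q.2.1 Q.2.2 ∧ P (i - 1) < Nh Q.1 Q.2.1 ∧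
      (Nh Q.1 Q.2.1 : ℝ) ≤ P i ∧ |Lv Q.1 Q.2.1 Q.2.2 (A * P (-3 * m))| ≤ P (i + 3 - 3 * m) ∧
      ∀ x ∈ Node m A, P (i - (w + 2 : ℕ)) ≤ Dv Q.1 Q.2.1 x := fun Q hQ => by
    obtain ⟨U, hU, hQ⟩ := Finset.mem_biUnion.1 hQ
    obtain ⟨a1, a2, a3, a4, a5⟩ := hF U hU Q hQ
    obtain ⟨b1, b2⟩ := nh_bd a2 a3
    refine ⟨a1, by nlinarith [(hk U hU).1], by nlinarith [(hk U hU).2], a4.trans (h8 U hU),
      fun x hx => le_trans ?_ (a5 x hx)⟩
    have e1 := mul_le_mul_of_nonneg_right (hS1 U hU).2.2 hs0.le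
    have e2 : P (-w) * P (i - 1) = 2 ^ 1 * P (i - (w + 2 : ℕ)) := by
      rw [← P_add]; exact P_shift 1 (by omega)
    rw [mul_assoc, hMs] at e1
    linarith
  refine ⟨(S.biUnion F).filter fun Q => Prim Q.1 Q.2.1 Q.2.2, fun Q hQ => ?_, ?_⟩
  · obtain ⟨a, b⟩ := Finset.mem_filter.1 hQ
    exact ⟨b, (hall Q a).2.1, (hall Q a).2.2.1, (hall Q a).2.2.2.2⟩
  have t1 := Finset.sum_filter_add_sum_filter_not (S.biUnion F) (fun Q => Prim Q.1 Q.2.1 Q.2.2)
    fun Q => ((gapN c m A j Q).card : ℝ)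
  rw [Finset.sum_biUnion fun U hU U' hU' hne => Finset.disjoint_left.2 fun Q a b =>
    hne (Prod.ext (uniq (hF U hU Q a).2.1 (hF U' hU' Q b).2.1)
      (uniq (hF U hU Q a).2.2.1 (hF U' hU' Q b).2.2.1))] at t1
  have t2 := Finset.sum_le_sum hF'
  have t3 := h5 κ m i A Y x0 _ ((S.biUnion F).filter fun Q => ¬ Prim Q.1 Q.2.1 Q.2.2)
    (by exact_mod_cast hY2) (by omega) (by omega) hx0 hx hK fun Q hQ => by
      obtain ⟨a, b⟩ := Finset.mem_filter.1 hQ
      obtain ⟨a1, a2, a3, a4, -⟩ := hall Q a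
      refine ⟨fun e0 => ?_, a1, b, (abs_a_le_Nh _ _).trans a3, (abs_b_le_Nh _ _).trans a3, a4⟩
      rw [e0] at a2
      have := P_pos (i - 1)
      simp [Nh] at a2
      linarith
  have t4 := Finset.sum_le_card_nsmul ((S.biUnion F).filter fun Q => ¬ Prim Q.1 Q.2.1 Q.2.2)
    (fun Q => ((gapN c m A j Q).card : ℝ)) _ fun Q hQ =>
      h6 Q.1 Q.2.1 Q.2.2 c κ m i j A (w + 2) (w + 6) hc' hj (by omega)
        (hall Q (Finset.mem_filter.1 hQ).1).2.1 (hall Q (Finset.mem_filter.1 hQ).1).2.2.2.2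
  rw [nsmul_eq_mul] at t4
  obtain ⟨R, hR⟩ : ∃ R, R = c * P (3 * j - 3 * m) := ⟨_, rfl⟩
  have hR0 : 0 < R := hR ▸ mul_pos hc0 (P_pos _)
  have t5 : ((((S.biUnion F).filter fun Q => ¬ Prim Q.1 Q.2.1 Q.2.2).card : ℕ) : ℝ) *
      P ((w + 2 : ℕ) + 3 * (w + 6 : ℕ) + 8) ≤ e / 4 * R := by
    refine (mul_le_mul_of_nonneg_right (t3.trans (div_le_div_of_nonneg_right
      (P_add_le (c := 3 * (i - m) + 31) (by omega) (by omega)) hY2.le)) (P_pos _).le).trans ?_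
    have e1 := hcP (-3 * m)
    rw [show 3 * (j : ℤ) + -3 * m = 3 * j - 3 * m by ring, ← hR] at e1
    rw [div_mul_eq_mul_div, ← P_add, div_le_iff₀ hY2]
    rw [div_le_iff₀ he] at hY1
    have e2 : P (43 + w) * P (3 * i - 2 + 3 * (w + 6) + -3 * m) =
        P (3 * (i - m) + 31 + ((w + 2 : ℕ) + 3 * (w + 6 : ℕ) + 8)) := P_mul (by omega)
    have e3 := mul_le_mul (show P (43 + w) ≤ Y * e / 4 by linarith) e1 (P_pos _).le (by positivity)
    linarith
  have t6 : ∑ U ∈ S, (1 - 30 * P (-w)) * (2 * c * (1 / Z3 - e / 40) * P (3 * j - 3 * m)) /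
      (Nh U.1 U.2 : ℝ) ^ 2 = (1 - 30 * P (-w)) * (2 * (1 / Z3 - e / 40)) *
        (∑ U ∈ S, 1 / (Nh U.1 U.2 : ℝ) ^ 2) * R := by
    rw [Finset.mul_sum, Finset.sum_mul, hR]
    exact Finset.sum_congr rfl fun U _ => by ring
  have t7 : 40 / P (2 * w + 4) ≤ 40 * P (-w) := by
    rw [div_le_iff₀ hM0, mul_assoc, hM1]
    linarith [h16 (w + 4) (by omega)]
  have t8 := mul_le_mul_of_nonneg_right (num (a := 30 * P (-w))
    (b := 30 * P (-w) + 40 / P (2 * w + 4)) (g := Real.log 2)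
    (H := ∑ U ∈ S, 1 / (Nh U.1 U.2 : ℝ) ^ 2) he he1 (by linarith) (by linarith) hy
    (by linarith [Real.log_two_gt_d9]) (by linarith)) hR0.le
  have t9 : rate c * P (3 * j - 3 * m) = 6 * Real.log 2 * (1 / Z3) * R := by
    rw [hR, rate]; ring
  have t10 : 0 ≤ 6 * Real.log 2 * (1 / Z3) * R := by
    have := Real.log_two_gt_d9
    positivity
  rw [mul_assoc, t9]
  nlinarith

end ExOrd
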