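import Pool.Agent.Lib.MP_a94b90_nt.ES.Stmt

/-! ES row 15: the number of nodes inside the gap of one form, from below and from above. -/

namespace ExOrd
open Set

namespace SForm

theorem Lv_mid (a b d : ℤ) (x y : ℝ) :
    Lv a b d y - Lv a b d x = Dv a b ((x + y) / 2) * (y - x) := by
  unfold Lv Dv; ring

theorem mid_mem {m A : ℕ} {x y : ℝ} (hx : x ∈ Node m A) (hy : y ∈ Node m A) :
    (x + y) / 2 ∈ Node m A :=
  ⟨by linarith [hx.1, hy.1], by linarith [hx.2, hy.2]⟩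

theorem Lv_cont (a b d : ℤ) : Continuous (Lv a b d) := by
  unfold Lv; fun_prop

theorem Lv_lt {a b d : ℤ} {m A : ℕ} {Dm x y : ℝ} (hD : 0 < Dm)
    (h : ∀ x ∈ Node m A, Dm ≤ Dv a b x) (hx : x ∈ Node m A) (hy : y ∈ Node m A) (hxy : x < y) :
    Lv a b d x < Lv a b d y := by
  have h1 := Lv_mid a b d x y
  have h2 := h _ (mid_mem hx hy)
  have h3 : 0 < Dv a b ((x + y) / 2) * (y - x) := mul_pos (by linarith) (by linarith)
  linarith

end SForm

open SForm in
theorem formLo : FormLoStmt := by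
  classical
  intro a b d m j A c τ Dm Dp hmj hDm hτ hc hD h1 h2
  obtain ⟨e, rfl⟩ := Nat.exists_eq_add_of_le hmj
  have hl := P_pos (-3 * m)
  have hL := node_left m A
  have hR : ((A : ℝ) + 1) * P (-3 * m) ∈ Node m A := ⟨by nlinarith, le_rfl⟩
  have hH : (1 : ℝ) ≤ Ht a b d := by
    have k1 : Ht a b d ≠ 0 := by
      intro h0
      obtain ⟨ea, eb, -⟩ := Ht_eq_zero.1 h0
      have := (hD _ hL).1
      simp only [ea, eb, Dv] at this
      norm_num at this
      linarith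
    exact_mod_cast Nat.one_le_iff_ne_zero.2 k1
  have hτR : τ ≤ Lv a b d (((A : ℝ) + 1) * P (-3 * m)) := by
    have k1 := Lv_mid a b d (A * P (-3 * m)) (((A : ℝ) + 1) * P (-3 * m))
    have k2 := (hD _ (mid_mem hL hR)).1
    have k3 : ((A : ℝ) + 1) * P (-3 * m) - A * P (-3 * m) = P (-3 * m) := by ring
    rw [k3] at k1
    nlinarith
  obtain ⟨x1, hx1, e1⟩ := intermediate_value_Icc (show (A : ℝ) * P (-3 * m) ≤ _ from hR.1)
    (Lv_cont a b d).continuousOn (show -τ ∈ Icc _ _ from ⟨h2, by linarith⟩)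
  obtain ⟨x2, hx2, e2⟩ := intermediate_value_Icc hx1.2
    (Lv_cont a b d).continuousOn (show τ ∈ Icc _ _ from ⟨by linarith, hτR⟩)
  have n1 : x1 ∈ Node m A := hx1
  have n2 : x2 ∈ Node m A := ⟨hx1.1.trans hx2.1, hx2.2⟩
  have hDp : 0 < Dp := hDm.trans_le ((hD _ hL).1.trans (hD _ hL).2)
  have hw : 2 * τ ≤ Dp * (x2 - x1) := by
    have k1 := Lv_mid a b d x1 x2
    have k2 := (hD _ (mid_mem n1 n2)).2
    have k3 := mul_le_mul_of_nonneg_right k2 (sub_nonneg.2 hx2.1)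
    linarith
  obtain ⟨h, hh⟩ : ∃ h, h = P (-3 * (m + e : ℕ)) := ⟨_, rfl⟩
  have hp : 0 < h := hh ▸ P_pos _
  have hq : P (3 * (m + e : ℕ)) * h = 1 := by
    rw [hh, ← P_zero]; exact P_mul (by ring)
  have x10 : 0 ≤ x1 := le_trans (by positivity) hx1.1
  have hsub : Finset.Ico (⌊x1 / h⌋₊ + 1) (⌈x2 / h⌉₊ - 1) ⊆ gapN c m A (m + e) (a, b, d) := by
    intro p hp'
    obtain ⟨p1, p2⟩ := Finset.mem_Ico.1 hp'
    have q1 : x1 < p * h := by
      have k1 := Nat.lt_floor_add_one (x1 / h)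
      have k2 : ((⌊x1 / h⌋₊ : ℕ) : ℝ) + 1 ≤ p := by exact_mod_cast p1
      exact (div_lt_iff₀ hp).1 (k1.trans_le k2)
    have q2 : ((p : ℝ) + 1) * h < x2 := by
      have k1 : p + 1 < ⌈x2 / h⌉₊ := by omega
      have k2 := Nat.lt_ceil.1 k1
      push_cast at k2
      exact (lt_div_iff₀ hp).1 k2
    have q3 : ∀ x ∈ Node (m + e) p, x1 < x ∧ x < x2 := by
      intro x hx
      have k1 := hx.1
      have k2 := hx.2
      rw [← hh] at k1 k2
      exact ⟨by linarith, by linarith⟩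
    have q4 : Node (m + e) p ⊆ Node m A := fun x hx =>
      ⟨n1.1.trans (q3 x hx).1.le, (q3 x hx).2.le.trans n2.2⟩
    unfold gapN
    rw [Finset.mem_filter, mem_desc, Nat.add_sub_cancel_left]
    refine ⟨node_index q4, fun x hx => ?_⟩
    have k1 := Lv_lt (d := d) hDm (fun y hy => (hD y hy).1) n1 (q4 hx) (q3 x hx).1
    have k2 := Lv_lt (d := d) hDm (fun y hy => (hD y hy).1) (q4 hx) n2 (q3 x hx).2
    have k3 : |Lv a b d x| < τ := abs_lt.2 ⟨by linarith, by linarith⟩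
    have k4 : (0 : ℝ) < (Ht a b d : ℝ) ^ 2 := by positivity
    exact (mul_lt_mul_of_pos_right k3 k4).trans_le hc
  have c1 := Finset.card_le_card hsub
  rw [Nat.card_Ico] at c1
  have c2 : ⌈x2 / h⌉₊ ≤ (gapN c m A (m + e) (a, b, d)).card + ⌊x1 / h⌋₊ + 2 := by omega
  have c3 : ((⌈x2 / h⌉₊ : ℕ) : ℝ) ≤ (gapN c m A (m + e) (a, b, d)).card + (⌊x1 / h⌋₊ : ℕ) + 2 := by
    exact_mod_cast c2
  have c4 := Nat.le_ceil (x2 / h)
  have c5 := Nat.floor_le (div_nonneg x10 hp.le)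
  have c6 : 2 * τ * P (3 * (m + e : ℕ)) / Dp ≤ x2 / h - x1 / h := by
    rw [← sub_div, div_le_div_iff₀ hDp hp, mul_assoc, hq]
    linarith
  linarith

open SForm in
theorem gapCard : GapCardStmt := by
  classical
  intro a b d c κ m i j A l0 C0 hc hj hmj hN hD
  have key := diam_P (j := j) (ρ := 6 + l0 + 3 * C0)
    (E := fun x => x ∈ Node m A ∧ |Lv a b d x| ≤ P (5 - κ - 2 * i)) (by
      rintro x y ⟨hx, ex⟩ ⟨hy, ey⟩
      have k1 : |Lv a b d x - Lv a b d y| ≤ P (6 - κ - 2 * i) :=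
        sub_le_P ex ey (by omega) (by omega)
      rw [Lv_mid] at k1
      exact div_le_P ((hD _ (mid_mem hy hx)).trans (le_abs_self _)) k1 (by omega))
    (gapN c m A j (a, b, d)) (by
      intro p hp
      unfold gapN at hp
      rw [Finset.mem_filter, mem_desc] at hp
      refine ⟨_, node_left j p, ?_, viol_L hc hN (hp.2 _ (node_left j p))⟩
      have k1 := node_sub m (j - m) p
      rw [hp.1, Nat.add_sub_cancel' hmj] at k1
      exact k1 (node_left j p))
  exact le_P key (by omega)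

end ExOrd
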