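import Pool.Agent.Lib.MP_a94b90_nt.ES.Stmt
import Pool.Agent.Lib.MP_a94b90_nt.ED.TR
import Pool.Agent.Lib.MP_a94b90_nt.ED.Free

/-! ES: all levels of a long window, except one short interval, have no form of small derivative. -/

namespace ExOrd
open Set

namespace SFree2

/-- two spoiled levels of the window are close. -/
theorem far {κ m W f j : ℕ} {x : ℝ} (hx : InK κ x) (hW : 8 * κ + 200 ≤ W) (f1 : m + 2 * W ≤ f)
    (j1 : f + 2 * κ + 64 ≤ j) (j2 : j ≤ m + 3 * W + κ) (hf : ¬ NoSp κ m f x) : NoSp κ m j x := by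
  unfold NoSp at hf
  push Not at hf
  obtain ⟨a, b, c, ⟨hL, hD, ha⟩, hne⟩ := hf
  have hne' : ¬ (a = 0 ∧ b = 0 ∧ c = 0) := fun k => hne k.1 k.2.1 k.2.2
  intro a' b' c' ⟨hL', hD', ha'⟩
  have e1 : ((b * a' - a * b' : ℤ) : ℝ) = Dv a b x * a' - a * Dv a' b' x := by
    unfold Dv; push_cast; ring
  have e2 : ((b * a' - a * b' : ℤ) : ℝ) * x - ((a * c' - c * a' : ℤ) : ℝ) =
      Lv a b c x * a' - a * Lv a' b' c' x := by
    unfold Lv; push_cast; ring
  have e3 : ((b * a' - a * b' : ℤ) : ℝ) * x ^ 2 - 2 * ((a * c' - c * a' : ℤ) : ℝ) * x +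
      ((c * b' - b * c' : ℤ) : ℝ) = Lv a b c x * Dv a' b' x - Dv a b x * Lv a' b' c' x := by
    unfold Lv Dv; push_cast; ring
  obtain ⟨z1, z2, z3⟩ := tr κ m (-2 * (f : ℤ) + 3 * κ + 121 + j) x (b * a' - a * b')
    (a * c' - c * a') (c * b' - b * c') hx
    (by
      rw [e1]
      exact sub_le_P (mul_le_P hD ha' le_rfl) (mul_le_P ha hD' le_rfl) (by omega) (by omega))
    (by
      rw [e2]
      exact sub_le_P (mul_le_P hL ha' le_rfl) (mul_le_P ha hL' le_rfl) (by omega) (by omega))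
    (by
      rw [e3]
      exact sub_le_P (mul_le_P hL hD' le_rfl) (mul_le_P hD hL' le_rfl) (by omega) (by omega))
    (by omega)
  obtain ⟨t, t1, t2, t3⟩ := DFree.par hne' z1 z2 z3
  have tL : Lv a' b' c' x = t * Lv a b c x := by
    unfold Lv; rw [t1, t2, t3]; ring
  have tD : Dv a' b' x = t * Dv a b x := by
    unfold Dv; rw [t1, t2]; ring
  rcases le_total |t| 1 with ht | ht
  · exact zk (M := f) hx ⟨hL', (DFree.small ht tD).trans hD, (DFree.small ht t1).trans ha⟩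
      (by omega) (by omega) le_rfl (by omega)
  · exact absurd (zk (M := f) hx ⟨(DFree.large ht tL).trans hL', hD, ha⟩
      (by omega) (by omega) le_rfl (by omega)) hne'

end SFree2

theorem free2 : Free2Stmt := by
  intro κ m W x hx hW
  by_cases h0 : ∃ f, m + 2 * W ≤ f ∧ ¬ NoSp κ m f x
  · classical
    refine ⟨Nat.find h0, fun j j1 j2 hj => ?_⟩
    obtain ⟨f1, hf⟩ := Nat.find_spec h0
    rcases hj with hj | hj
    · by_contra hn
      exact Nat.find_min h0 hj ⟨j1, hn⟩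
    · exact SFree2.far hx hW f1 hj j2 hf
  · exact ⟨0, fun j j1 _ _ => by_contra fun hn => h0 ⟨j, j1, hn⟩⟩

end ExOrd
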