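import Pool.Agent.Lib.MP_a94b90_nt.ES.Stmt

/-! ES: points of given hexagonal norm. -/

namespace ExOrd

theorem hexCnt2 : HexCntStmt := by
  intro k hk
  rw [Finset.card_filter, Finset.sum_product]
  have h1 : ∀ u ∈ Finset.Icc (-(k : ℤ)) k, (∑ v ∈ Finset.Icc (-(k : ℤ)) k,
      if Nh u v = k then 1 else 0) = 2 + if u ∈ ({-(k : ℤ), (k : ℤ)} : Finset ℤ) then k - 1 else 0 := by
    intro u hu
    rw [← Finset.card_filter]
    rw [Finset.mem_Icc] at hu
    split_ifs with h
    · have : (Finset.Icc (-(k : ℤ)) k).filter (fun v => Nh u v = k) =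
          Finset.Icc (min 0 (-u)) (max 0 (-u)) := by
        ext v
        simp only [Finset.mem_filter, Finset.mem_Icc, Finset.mem_insert, Finset.mem_singleton, Nh] at *
        omega
      rw [this, Int.card_Icc]
      simp only [Finset.mem_insert, Finset.mem_singleton] at h
      omega
    · have : (Finset.Icc (-(k : ℤ)) k).filter (fun v => Nh u v = k) =
          {max (-(k : ℤ)) (-k - u), min (k : ℤ) (k - u)} := by
        ext v
        simp only [Finset.mem_filter, Finset.mem_Icc, Finset.mem_insert, Finset.mem_singleton, Nh] at *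
        omega
      rw [this, Finset.card_pair (by omega)]
  rw [Finset.sum_congr rfl h1, Finset.sum_add_distrib, Finset.sum_ite_mem, Finset.sum_const,
    Finset.sum_const, Finset.inter_eq_right.2, Finset.card_pair (by omega), Int.card_Icc]
  · simp only [smul_eq_mul]
    omega
  · intro u hu
    simp only [Finset.mem_Icc, Finset.mem_insert, Finset.mem_singleton] at *
    omega

end ExOrd
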