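import Pool.Agent.Lib.MP_a94b90_nt.ES.Stmt

namespace ExOrd

namespace SHexLo

theorem harm (a : ℕ) (ha : 1 ≤ a) (b : ℕ) (hab : a ≤ b) :
    Real.log b - Real.log a ≤ ∑ k ∈ Finset.Ico a b, 1 / (k : ℝ) := by
  induction b, hab using Nat.le_induction with
  | base => simp
  | succ b hb ih =>
    rw [Finset.sum_Ico_succ_top hb]
    have hb0 : (0 : ℝ) < b := by exact_mod_cast (by omega : 0 < b)
    have h1 : Real.log ((b + 1 : ℕ) : ℝ) - Real.log b ≤ 1 / (b : ℝ) := by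
      rw [← Real.log_div (by positivity) hb0.ne']
      have h2 := Real.log_le_sub_one_of_pos (x := ((b + 1 : ℕ) : ℝ) / b) (by positivity)
      have h3 : ((b + 1 : ℕ) : ℝ) / b - 1 = 1 / (b : ℝ) := by
        push_cast; field_simp; ring
      linarith
    linarith

theorem Nh_neg (u v : ℤ) : Nh (-u) (-v) = Nh u v := by
  unfold Nh; omega

/-- the annulus -/
noncomputable def An (M : ℕ) : Finset (ℤ × ℤ) :=
  (Finset.Icc (-(2 * M : ℤ)) (2 * M) ×ˢ Finset.Icc (-(2 * M : ℤ)) (2 * M)).filter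
    fun U : ℤ × ℤ => M + 3 ≤ Nh U.1 U.2 ∧ Nh U.1 U.2 + 3 ≤ 2 * M

theorem mem_An {M : ℕ} {U : ℤ × ℤ} :
    U ∈ An M ↔ M + 3 ≤ Nh U.1 U.2 ∧ Nh U.1 U.2 + 3 ≤ 2 * M := by
  unfold An
  simp only [Finset.mem_filter, Finset.mem_product, Finset.mem_Icc]
  constructor
  · exact fun h => h.2
  · intro h
    refine ⟨?_, h⟩
    obtain ⟨_, h2⟩ := h
    unfold Nh at h2
    omega

theorem sumA (h : HexCntStmt) (M : ℕ) :
    ∑ U ∈ An M, 1 / (Nh U.1 U.2 : ℝ) ^ 2 = ∑ k ∈ Finset.Ico (M + 3) (2 * M - 2), 6 * (1 / (k : ℝ)) := by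
  rw [← Finset.sum_fiberwise_of_maps_to (s := An M) (t := Finset.Ico (M + 3) (2 * M - 2))
    (g := fun U : ℤ × ℤ => Nh U.1 U.2)]
  · refine Finset.sum_congr rfl fun k hk => ?_
    rw [Finset.mem_Ico] at hk
    have e : (An M).filter (fun U : ℤ × ℤ => Nh U.1 U.2 = k) =
        (Finset.Icc (-(k : ℤ)) k ×ˢ Finset.Icc (-(k : ℤ)) k).filter
          fun U : ℤ × ℤ => Nh U.1 U.2 = k := by
      ext U
      simp only [Finset.mem_filter, mem_An, Finset.mem_product, Finset.mem_Icc]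
      constructor
      · rintro ⟨_, h2⟩
        refine ⟨?_, h2⟩
        unfold Nh at h2
        omega
      · rintro ⟨_, h2⟩
        refine ⟨?_, h2⟩
        omega
    rw [e]
    have hc := h k (by omega)
    rw [Finset.sum_congr rfl (g := fun _ => 1 / (k : ℝ) ^ 2)]
    · rw [Finset.sum_const, hc, nsmul_eq_mul]
      have hk0 : (0 : ℝ) < k := by exact_mod_cast (by omega : 0 < k)
      push_cast; field_simp
    · intro U hU
      rw [(Finset.mem_filter.1 hU).2]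
  · intro U hU
    rw [mem_An] at hU
    rw [Finset.mem_Ico]
    omega

theorem lowA (h : HexCntStmt) (M : ℕ) (hM : 10 ≤ M) :
    6 * Real.log 2 - 27 / M ≤ ∑ U ∈ An M, 1 / (Nh U.1 U.2 : ℝ) ^ 2 := by
  rw [sumA h, ← Finset.mul_sum]
  have h1 := harm (M + 3) (by omega) (2 * M - 2) (by omega)
  have hM' : (10 : ℝ) ≤ M := by exact_mod_cast hM
  have e1 : ((2 * M - 2 : ℕ) : ℝ) = 2 * ((M : ℝ) - 1) := by
    rw [Nat.cast_sub (by omega)]; push_cast; ring
  have e2 : ((M + 3 : ℕ) : ℝ) = (M : ℝ) + 3 := by push_cast; ring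
  rw [e1, e2, Real.log_mul (by norm_num) (by linarith)] at h1
  have h2 : Real.log ((M : ℝ) + 3) - Real.log ((M : ℝ) - 1) ≤ 9 / 2 / M := by
    rw [← Real.log_div (by linarith) (by linarith)]
    have h3 := Real.log_le_sub_one_of_pos (x := ((M : ℝ) + 3) / ((M : ℝ) - 1))
      (div_pos (by linarith) (by linarith))
    have h4 : ((M : ℝ) + 3) / ((M : ℝ) - 1) - 1 ≤ 9 / 2 / M := by
      rw [div_sub_one (by linarith), div_le_div_iff₀ (by linarith) (by linarith)]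
      nlinarith
    linarith
  have e3 : (27 : ℝ) / M = 6 * (9 / 2 / M) := by ring
  rw [e3]
  linarith

theorem row (y r : ℝ) (hr : 0 < r) (s : Finset ℤ) (hs : ∀ v ∈ s, |y + v| < r) :
    (s.card : ℝ) ≤ 2 * r + 1 := by
  have h1 : s ⊆ Finset.Icc ⌈-r - y⌉ ⌊r - y⌋ := by
    intro v hv
    have := abs_lt.1 (hs v hv)
    rw [Finset.mem_Icc, Int.ceil_le, Int.le_floor]
    constructor <;> linarith [this.1, this.2]
  have h2 := Finset.card_le_card h1
  rw [Int.card_Icc] at h2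
  have h3 := Int.le_ceil (-r - y)
  have h4 := Int.floor_le (r - y)
  rcases le_total (⌊r - y⌋ + 1 - ⌈-r - y⌉) 0 with h5 | h5
  · rw [Int.toNat_of_nonpos h5] at h2
    have : s.card = 0 := by omega
    rw [this]; push_cast; linarith
  · have h6 : (s.card : ℤ) ≤ ⌊r - y⌋ + 1 - ⌈-r - y⌉ := by omega
    have h7 : (s.card : ℝ) ≤ (⌊r - y⌋ : ℝ) + 1 - (⌈-r - y⌉ : ℝ) := by exact_mod_cast h6
    linarith

theorem strip (x r : ℝ) (hr : 0 < r) (M : ℕ) :
    (((An M).filter fun U : ℤ × ℤ => |2 * (U.1 : ℝ) * x + U.2| < r).card : ℝ) ≤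
      (4 * M + 1) * (2 * r + 1) := by
  set T := (An M).filter fun U : ℤ × ℤ => |2 * (U.1 : ℝ) * x + U.2| < r with hT
  have hm : ∀ U ∈ T, U.1 ∈ Finset.Icc (-(2 * M : ℤ)) (2 * M) := by
    intro U hU
    have h1 := (mem_An.1 (Finset.mem_filter.1 hU).1).2
    rw [Finset.mem_Icc]
    unfold Nh at h1
    omega
  rw [Finset.card_eq_sum_card_fiberwise hm]
  push_cast
  have hb : ∀ u ∈ Finset.Icc (-(2 * M : ℤ)) (2 * M),
      (((T.filter fun U : ℤ × ℤ => U.1 = u).card : ℕ) : ℝ) ≤ 2 * r + 1 := by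
    intro u _
    have e : (T.filter fun U : ℤ × ℤ => U.1 = u).card =
        ((T.filter fun U : ℤ × ℤ => U.1 = u).image Prod.snd).card := by
      rw [Finset.card_image_of_injOn]
      intro U hU V hV huv
      have h1 := (Finset.mem_filter.1 (Finset.mem_coe.1 hU)).2
      have h2 := (Finset.mem_filter.1 (Finset.mem_coe.1 hV)).2
      exact Prod.ext (h1.trans h2.symm) huv
    rw [e]
    apply row (2 * (u : ℝ) * x) r hr
    intro v hv
    obtain ⟨U, hU, rfl⟩ := Finset.mem_image.1 hv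
    obtain ⟨h1, h2⟩ := Finset.mem_filter.1 hU
    have h3 := (Finset.mem_filter.1 h1).2
    rw [← h2]; exact h3
  refine (Finset.sum_le_sum hb).trans ?_
  rw [Finset.sum_const, nsmul_eq_mul, Int.card_Icc]
  have e : ((2 * M : ℤ) + 1 - -(2 * M : ℤ)).toNat = 4 * M + 1 := by omega
  rw [e]; push_cast; exact le_rfl

end SHexLo

open SHexLo in
theorem hexLo (h : HexCntStmt) : HexLoStmt := by
  intro x δ M hM hδ
  have hM' : (10 : ℝ) ≤ M := by exact_mod_cast hM
  have hr : 0 < δ * M := by positivity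
  set f : ℤ × ℤ → ℝ := fun U => 1 / (Nh U.1 U.2 : ℝ) ^ 2 with hf
  have hf0 : ∀ U, 0 ≤ f U := fun U => by positivity
  set S := (An M).filter fun U : ℤ × ℤ => δ * M ≤ 2 * (U.1 : ℝ) * x + U.2 with hS
  set S' := (An M).filter fun U : ℤ × ℤ => 2 * (U.1 : ℝ) * x + U.2 ≤ -(δ * M) with hS'
  set T := (An M).filter fun U : ℤ × ℤ => |2 * (U.1 : ℝ) * x + U.2| < δ * M with hT
  refine ⟨S, fun U hU => ?_, ?_⟩
  · obtain ⟨h1, h2⟩ := Finset.mem_filter.1 hU
    obtain ⟨h3, h4⟩ := mem_An.1 h1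
    exact ⟨h3, h4, h2⟩
  have e1 : ∑ U ∈ S', f U = ∑ U ∈ S, f U := by
    refine Finset.sum_nbij' (fun U => (-U.1, -U.2)) (fun U => (-U.1, -U.2)) ?_ ?_ ?_ ?_ ?_
    · intro U hU
      obtain ⟨h1, h2⟩ := Finset.mem_filter.1 hU
      refine Finset.mem_filter.2 ⟨?_, ?_⟩
      · rw [mem_An] at h1 ⊢
        simpa only [Nh_neg] using h1
      · push_cast; linarith
    · intro U hU
      obtain ⟨h1, h2⟩ := Finset.mem_filter.1 hU
      refine Finset.mem_filter.2 ⟨?_, ?_⟩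
      · rw [mem_An] at h1 ⊢
        simpa only [Nh_neg] using h1
      · push_cast; linarith
    · intro U _; simp
    · intro U _; simp
    · intro U _; simp only [hf, Nh_neg]
  have e2 : ∑ U ∈ An M, f U ≤ ∑ U ∈ S, f U + ∑ U ∈ S', f U + ∑ U ∈ T, f U := by
    rw [hS, hS', hT, Finset.sum_filter, Finset.sum_filter, Finset.sum_filter,
      ← Finset.sum_add_distrib, ← Finset.sum_add_distrib]
    refine Finset.sum_le_sum fun U _ => ?_
    have := hf0 U
    split_ifs with c1 c2 c3 c4 c5 c6 c7 <;> try linarith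
    exfalso
    apply c7
    rw [abs_lt]
    constructor <;> linarith [not_le.1 c1, not_le.1 c5]
  have e3 : ∑ U ∈ T, f U ≤ 10 * δ + 5 / M := by
    have hb : ∀ U ∈ T, f U ≤ 1 / (M : ℝ) ^ 2 := by
      intro U hU
      have h1 := (mem_An.1 (Finset.mem_filter.1 hU).1).1
      have h2 : (M : ℝ) ≤ Nh U.1 U.2 := by exact_mod_cast (by omega : M ≤ Nh U.1 U.2)
      exact one_div_le_one_div_of_le (by positivity) (by gcongr)
    refine (Finset.sum_le_sum hb).trans ?_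
    rw [Finset.sum_const, nsmul_eq_mul]
    have h3 := strip x (δ * M) hr M
    have h4 : (4 * (M : ℝ) + 1) * (2 * (δ * M) + 1) ≤ (5 * M) * (2 * (δ * M) + 1) := by
      gcongr; linarith
    have h5 : (5 * (M : ℝ)) * (2 * (δ * M) + 1) * (1 / (M : ℝ) ^ 2) = 10 * δ + 5 / M := by
      field_simp; ring
    rw [← h5]
    gcongr
    exact h3.trans h4
  have e4 := lowA h M hM
  have e5 : (27 : ℝ) / M = 27 * (1 / M) := by ring
  have e6 : (5 : ℝ) / M = 5 * (1 / M) := by ring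
  have e7 : (40 : ℝ) / M = 40 * (1 / M) := by ring
  have e8 : (0 : ℝ) < 1 / M := by positivity
  change _ ≤ ∑ U ∈ S, f U
  change _ ≤ ∑ U ∈ An M, f U at e4
  rw [e5] at e4
  rw [e6] at e3
  rw [e7]
  linarith

end ExOrd
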