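import Pool.Agent.Lib.MP_a94b90_nt.ES.Stmt

/-! ES row 6: upper bound for the weighted count of half a hexagonal annulus. -/

namespace ExOrd
namespace SHexUp
open Finset

theorem half (h : HexCntStmt) (x : ℝ) {k : ℕ} (hk : 1 ≤ k) (S : Finset (ℤ × ℤ))
    (hS : ∀ U ∈ S, Nh U.1 U.2 = k ∧ 0 < 2 * (U.1 : ℝ) * x + U.2) : S.card ≤ 3 * k := by
  classical
  have hd : Disjoint S (S.image fun U => -U) := by
    rw [Finset.disjoint_left]
    intro U hU hU'
    obtain ⟨V, hV, rfl⟩ := Finset.mem_image.1 hU'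
    have h1 := (hS _ hU).2
    have h2 := (hS _ hV).2
    simp only [Prod.fst_neg, Prod.snd_neg, Int.cast_neg] at h1
    linarith
  have hm : ∀ U : ℤ × ℤ, Nh U.1 U.2 = k → U ∈ (Finset.Icc (-(k : ℤ)) k ×ˢ
      Finset.Icc (-(k : ℤ)) k).filter fun U : ℤ × ℤ => Nh U.1 U.2 = k := by
    intro U hU
    refine mem_filter.2 ⟨mem_product.2 ⟨mem_Icc.2 ?_, mem_Icc.2 ?_⟩, hU⟩ <;>
      unfold Nh at hU <;> omega
  have hs : S ∪ (S.image fun U => -U) ⊆ (Finset.Icc (-(k : ℤ)) k ×ˢ
      Finset.Icc (-(k : ℤ)) k).filter fun U : ℤ × ℤ => Nh U.1 U.2 = k := by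
    intro U hU
    rcases mem_union.1 hU with h1 | h1
    · exact hm U (hS U h1).1
    · obtain ⟨V, hV, rfl⟩ := Finset.mem_image.1 h1
      refine hm _ ?_
      have := (hS V hV).1
      simp only [Prod.fst_neg, Prod.snd_neg]
      unfold Nh at this ⊢
      omega
  have h1 := card_le_card hs
  rw [card_union_of_disjoint hd, card_image_of_injective _ neg_injective, h k hk] at h1
  omega

theorem harm {k1 k2 : ℕ} (h1 : 1 ≤ k1) (h2 : k1 ≤ k2) :
    ∑ k ∈ Icc k1 k2, 1 / (k : ℝ) ≤ 1 / k1 + Real.log (k2 / k1) := by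
  have p1 : (0 : ℝ) < k1 := by exact_mod_cast h1
  induction k2, h2 using Nat.le_induction with
  | base => simp
  | succ n hn ih =>
    have p2 : (0 : ℝ) < n := by exact_mod_cast h1.trans hn
    rw [Finset.sum_Icc_succ_top (by omega)]
    have e1 : Real.log (((n + 1 : ℕ) : ℝ) / k1) = Real.log (n / k1) + Real.log ((n + 1) / n) := by
      rw [← Real.log_mul (by positivity) (by positivity)]
      congr 1
      push_cast
      field_simp
    have e2 := Real.one_sub_inv_le_log_of_pos (x := ((n : ℝ) + 1) / n) (by positivity)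
    have e3 : 1 - (((n : ℝ) + 1) / n)⁻¹ = 1 / ((n + 1 : ℕ) : ℝ) := by
      push_cast
      field_simp
      ring
    rw [e1]
    linarith

end SHexUp

theorem hexUp (h : HexCntStmt) : HexUpStmt := by
  classical
  intro x k1 k2 S h1 h2 hS
  rw [← Finset.sum_fiberwise_of_maps_to (g := fun U : ℤ × ℤ => Nh U.1 U.2) (t := Finset.Icc k1 k2)
    fun U hU => Finset.mem_Icc.2 ⟨(hS U hU).1, (hS U hU).2.1⟩]
  refine le_trans (Finset.sum_le_sum (g := fun k : ℕ => 3 * (1 / (k : ℝ))) fun k hk => ?_) ?_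
  · have hk1 : 1 ≤ k := h1.trans (Finset.mem_Icc.1 hk).1
    have p : (0 : ℝ) < k := by exact_mod_cast hk1
    have hc := SHexUp.half h x hk1 (S.filter fun U => Nh U.1 U.2 = k) fun U hU =>
      ⟨(Finset.mem_filter.1 hU).2, (hS U (Finset.mem_filter.1 hU).1).2.2⟩
    have hc' : ((S.filter fun U => Nh U.1 U.2 = k).card : ℝ) ≤ 3 * k := by exact_mod_cast hc
    rw [Finset.sum_congr rfl (g := fun _ => 1 / (k : ℝ) ^ 2) fun U hU => by
      rw [(Finset.mem_filter.1 hU).2], Finset.sum_const, nsmul_eq_mul]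
    refine (mul_le_mul_of_nonneg_right hc' (by positivity)).trans_eq ?_
    field_simp
  · rw [← Finset.mul_sum]
    exact mul_le_mul_of_nonneg_left (SHexUp.harm h1 h2) (by norm_num)

end ExOrd
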