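import Pool.Agent.Lib.MP_a94b90_nt.ES.Stmt
import Pool.Agent.Lib.MP_a94b90_nt.EX.Z

/-! ES row 9: the number of nodes that meet a main violation. -/

namespace ExOrd
open Set

namespace SKS

theorem Nh_le {u v : ℤ} {B : ℝ} (h1 : |(u : ℝ)| ≤ B) (h2 : |(v : ℝ)| ≤ B)
    (h3 : |(u : ℝ) + v| ≤ B) : (Nh u v : ℝ) ≤ B := by
  unfold Nh
  push_cast [Nat.cast_max, Nat.cast_natAbs]
  exact max_le h1 (max_le h2 h3)

theorem flip {a b d : ℤ} {x B : ℝ} (hp : Prim a b d) (hD : B < |Dv a b x|) :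
    ∃ a' b' d' : ℤ, Prim a' b' d' ∧ Ht a' b' d' = Ht a b d ∧ |Lv a' b' d' x| = |Lv a b d x| ∧
      B < Dv a' b' x := by
  rcases lt_abs.1 hD with h | h
  · exact ⟨a, b, d, hp, rfl, rfl, h⟩
  · refine ⟨-a, -b, -d, fun t h1 h2 h3 => hp t (dvd_neg.1 h1) (dvd_neg.1 h2) (dvd_neg.1 h3),
      by simp [Ht], ?_, ?_⟩
    · rw [← abs_neg]
      congr 1
      unfold Lv
      push_cast
      ring
    · refine h.trans_eq ?_
      unfold Dv
      push_cast
      ring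

theorem fl {s : ℝ} (hs : 0 < s) (a : ℝ) : ∃ u : ℤ, u * s ≤ a ∧ a < u * s + s := by
  refine ⟨⌊a / s⌋, (le_div_iff₀ hs).1 (Int.floor_le _), ?_⟩
  have := (div_lt_iff₀ hs).1 (Int.lt_floor_add_one (a / s))
  linarith

theorem sq {ε x x0 s M : ℝ} {a b d u v : ℤ} (e0 : 0 ≤ ε) (e1 : ε ≤ 1) (hx : 1 - ε ≤ x)
    (hx1 : x ≤ 1) (h0 : 0 ≤ x0) (h1 : x0 ≤ 1) (hs : 1 ≤ s) (hM : 0 ≤ M)
    (hl : M * s < Ht a b d) (hu : (Ht a b d : ℝ) ≤ 2 * M * s) (hL : |Lv a b d x| ≤ 1)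
    (ha : u * s ≤ a ∧ a < u * s + s) (hb : v * s ≤ b ∧ b < v * s + s) :
    M - 3 ≤ Nh u v ∧ (Nh u v : ℝ) ≤ 2 * M * (1 + 3 * ε) + 3 ∧
      Dv a b x0 ≤ s * (2 * u * x0 + v + 3) := by
  have s0 : 0 < s := by linarith
  have x0' : 0 ≤ x := by linarith
  obtain ⟨a1, a2⟩ := ha
  obtain ⟨b1, b2⟩ := hb
  obtain ⟨L1, L2⟩ := abs_le.1 hL
  refine ⟨?_, ?_, ?_⟩
  · obtain ⟨k1, k2⟩ := abs_le.1 (abs_a_le_Nh u v)
    obtain ⟨k3, k4⟩ := abs_le.1 (abs_b_le_Nh u v)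
    obtain ⟨k5, k6⟩ := abs_le.1 (abs_ab_le_Nh u v)
    generalize (Nh u v : ℝ) = k at *
    have m1 := mul_le_mul_of_nonneg_right k1 s0.le
    have m2 := mul_le_mul_of_nonneg_right k2 s0.le
    have m3 := mul_le_mul_of_nonneg_right k3 s0.le
    have m4 := mul_le_mul_of_nonneg_right k4 s0.le
    have m5 := mul_le_mul_of_nonneg_right k5 s0.le
    have m6 := mul_le_mul_of_nonneg_right k6 s0.le
    have q1 : |(b : ℝ)| ≤ (k + 2) * s := abs_le.2 ⟨by linarith, by linarith⟩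
    have q2 : |(a : ℝ) + b| ≤ (k + 2) * s := abs_le.2 ⟨by linarith, by linarith⟩
    have q3 : |x * (a + b) + (1 - x) * b| ≤ (k + 2) * s := by
      refine (abs_add_le _ _).trans ?_
      rw [abs_mul, abs_mul, abs_of_nonneg x0', abs_of_nonneg (sub_nonneg.2 hx1)]
      have := mul_le_mul_of_nonneg_left q1 (sub_nonneg.2 hx1)
      have := mul_le_mul_of_nonneg_left q2 x0'
      linarith
    have q4 : |x * (x * (a + b) + (1 - x) * b)| ≤ (k + 2) * s := by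
      rw [abs_mul, abs_of_nonneg x0']
      exact (mul_le_of_le_one_left (abs_nonneg _) hx1).trans q3
    have q5 : (d : ℝ) = Lv a b d x - x * (x * (a + b) + (1 - x) * b) := by
      unfold Lv
      ring
    have q6 : (Ht a b d : ℝ) ≤ (k + 3) * s := by
      refine Ht_le (abs_le.2 ⟨by linarith, by linarith⟩) (by linarith) ?_
      rw [q5]
      refine (abs_sub _ _).trans ?_
      linarith
    have := lt_of_mul_lt_mul_right (hl.trans_le q6) s0.le
    linarith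
  · obtain ⟨k1, k2⟩ := abs_le.1 ((abs_a_le_Ht a b d).trans hu)
    obtain ⟨k3, k4⟩ := abs_le.1 ((abs_b_le_Ht a b d).trans hu)
    obtain ⟨k5, k6⟩ := abs_le.1 ((abs_c_le_Ht a b d).trans hu)
    have dv : ∀ {w B : ℝ}, -(B * s) ≤ w * s → w * s ≤ B * s → |w| ≤ B := fun {w B} p q =>
      abs_le.2 ⟨le_of_mul_le_mul_right (by linarith) s0, le_of_mul_le_mul_right q s0⟩
    have m0 : 0 ≤ M * s * ε := by positivity
    have q1 : |(a : ℝ) * (1 - x ^ 2)| ≤ 2 * M * s * (2 * ε) := by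
      rw [abs_mul, abs_of_nonneg (show 0 ≤ 1 - x ^ 2 by nlinarith)]
      exact mul_le_mul (abs_le.2 ⟨k1, k2⟩) (by nlinarith) (by nlinarith) (by positivity)
    have q2 : |(b : ℝ) * (1 - x)| ≤ 2 * M * s * ε := by
      rw [abs_mul, abs_of_nonneg (sub_nonneg.2 hx1)]
      exact mul_le_mul (abs_le.2 ⟨k3, k4⟩) (by linarith) (by linarith) (by positivity)
    have q3 : (a : ℝ) + b = Lv a b d x - d + a * (1 - x ^ 2) + b * (1 - x) := by
      unfold Lv
      ring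
    obtain ⟨q4, q5⟩ := abs_le.1 q1
    obtain ⟨q6, q7⟩ := abs_le.1 q2
    exact Nh_le (dv (by linarith) (by linarith)) (dv (by linarith) (by linarith))
      (dv (by linarith) (by linarith))
  · have := mul_le_mul_of_nonneg_right a2.le h0
    have := mul_le_mul_of_nonneg_left h1 s0.le
    unfold Dv
    linarith

theorem num {ε η c Z k1 k2 M : ℝ} (e0 : 0 < ε) (e1 : ε ≤ 1 / 100) (eη : 50 * ε ≤ η) (hc : 0 ≤ c)
    (hM : 16 ≤ ε * M) (h1 : k1 = M - 3) (h2 : k2 ≤ 2 * M * (1 + 3 * ε) + 3) (h3 : 0 < k2)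
    (z1 : 1 ≤ Z) (z2 : Z ≤ 2) :
    (1 + 30 * ε) * (2 * c * (1 / Z + ε)) * (3 * (1 / k1 + Real.log (k2 / k1))) ≤
      (1 + η) * (6 * c * Real.log 2 / Z) := by
  have hM1 : 1600 ≤ M := by nlinarith
  have k0 : 0 < k1 := by linarith
  have a1 : 1 / k1 ≤ ε := by
    rw [div_le_iff₀ k0, h1]
    nlinarith
  have a2 : Real.log (k2 / k1) ≤ Real.log 2 + 4 * ε := by
    have b1 : k2 / k1 ≤ 2 * (1 + 4 * ε) := by
      rw [div_le_iff₀ k0, h1]
      nlinarith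
    refine (Real.log_le_log (div_pos h3 k0) b1).trans ?_
    rw [Real.log_mul two_ne_zero (by positivity)]
    linarith [Real.log_le_sub_one_of_pos (show 0 < 1 + 4 * ε by positivity)]
  have l1 := Real.log_two_gt_d9
  have a3 : 1 / k1 + Real.log (k2 / k1) ≤ (1 + 8 * ε) * Real.log 2 := by nlinarith
  have a4 : 1 / Z + ε ≤ (1 + 2 * ε) / Z := by
    rw [le_div_iff₀ (by linarith), add_mul, one_div_mul_cancel (by linarith)]
    nlinarith
  have a5 : (1 + 30 * ε) * (1 + 2 * ε) * (1 + 8 * ε) ≤ 1 + η := by nlinarith [mul_pos e0 e0]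
  calc _ ≤ (1 + 30 * ε) * (2 * c * (1 / Z + ε)) * (3 * ((1 + 8 * ε) * Real.log 2)) := by
        gcongr
    _ ≤ (1 + 30 * ε) * (2 * c * ((1 + 2 * ε) / Z)) * (3 * ((1 + 8 * ε) * Real.log 2)) := by
        gcongr
    _ = (1 + 30 * ε) * (1 + 2 * ε) * (1 + 8 * ε) * (6 * c * Real.log 2 / Z) := by ring
    _ ≤ _ := mul_le_mul_of_nonneg_right a5 (by positivity)

end SKS

open SKS in
theorem ks (h1 : KSqStmt) (h2 : SieveStmt) (h3 : CovStmt) (h4 : HexUpStmt) : KSStmt := by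
  classical
  intro η hη l0
  obtain ⟨w, e1, eη⟩ : ∃ w : ℕ, P (-w) ≤ 1 / 100 ∧ 50 * P (-w) ≤ η := by
    obtain ⟨w, hw⟩ := exists_pow_lt_of_lt_one (lt_min (show (0 : ℝ) < 1 / 100 by norm_num)
      (show 0 < η / 50 by positivity)) (show (1 / 2 : ℝ) < 1 by norm_num)
    have e : P (-w) = (1 / 2) ^ w := by simp [P]
    rw [← e, lt_min_iff] at hw
    exact ⟨w, hw.1.le, by linarith [hw.2]⟩
  have e0 := P_pos (-w)
  obtain ⟨Y, ω, -, hS⟩ := h2 _ e0 0
  obtain ⟨μ, hμ⟩ : ∃ μ : ℕ, μ = l0 + w + 4 := ⟨_, rfl⟩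
  refine ⟨w, w + 3, 20 + μ + ω + w, fun c κ r m i j hc c1 hj hi hi2 A hA T hT => ?_⟩
  have c0 := (P_pos _).trans_le hc
  obtain ⟨z1, z2⟩ := Z3_bd
  have hP := P_pos (3 * j - 3 * m)
  rcases T.eq_empty_or_nonempty with rfl | ⟨p0, hp0⟩
  · have := (rate_bd c0.le).1
    have : 0 ≤ rate c := by linarith
    rw [Finset.card_empty, Nat.cast_zero]
    positivity
  have hw3 : P (-3 * w) ≤ P (-w) := P_le (by omega)
  obtain ⟨x0, hx0, -, y0, y1, -⟩ := hT p0 hp0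
  replace y0 : 0 ≤ x0 := by linarith
  have hcov : Cov x0 (P (-(2 * r + 2) - 2 * m + (6 * r + 18 : ℕ) + 1))
      (P (m - (2 * r + 2) - 2 + (6 * r + 18 : ℕ) + 1)) := by
    refine h3 x0 _ _ _ (fun a b d k1 k2 k3 => z r m 0 x0 a b d (hA x0 hx0) (by omega)
      ⟨le_P k1 (by omega), ?_, le_P k2 (by omega)⟩) (by omega) (by omega) (by omega)
    have k4 : |x0| ≤ P 0 := by rwa [P_zero, abs_of_nonneg y0]
    have k5 : Dv a b x0 = 2 * (a * x0) + b := by unfold Dv; ring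
    rw [k5]
    exact add_le_P (two_mul_le_P (mul_le_P k2 k4 le_rfl) (c := m - (2 * r + 2) - 1) (by omega)) k3
      (by omega) (by omega)
  obtain ⟨s, hs⟩ : ∃ s, s = P (i - 1 - μ) := ⟨_, rfl⟩
  have s1 : 1 ≤ s := hs ▸ one_le_P (by omega)
  have s0 : 0 < s := by linarith
  have hM : 16 ≤ P (-w) * P μ := by
    rw [P_mul (c := μ - w) (by ring)]
    exact le_trans (by norm_num [P]) (P_le (a := 4) (by omega))
  have M0 := P_pos μ
  have M1 : 1600 ≤ P μ := by nlinarith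
  have Ms : P μ * s = P (i - 1) := hs ▸ P_mul (by ring)
  have Ms2 : 2 * P μ * s = P i := by rw [mul_assoc, Ms, ← P_succ, sub_add_cancel]
  have key : ∀ p ∈ T, ∃ U : ℤ × ℤ, (P μ - 3 ≤ Nh U.1 U.2 ∧
      (Nh U.1 U.2 : ℝ) ≤ 2 * P μ * (1 + 3 * P (-w)) + 3 ∧ 10 ≤ P (-w) * (2 * U.1 * x0 + U.2)) ∧
      ∃ x, x ∈ Node m A ∧ x ∈ Node j p ∧ 1 - P (-w) ≤ x ∧ x ≤ 1 ∧ ∃ a b d : ℤ, Prim a b d ∧
        (U.1 * s ≤ a ∧ a < U.1 * s + s) ∧ (U.2 * s ≤ b ∧ b < U.2 * s + s) ∧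
        |Lv a b d x| * (Ht a b d : ℝ) ^ 2 < c := by
    intro p hp
    obtain ⟨x, k1, k2, k3, k4, a', b', d', k5, k6, k7, k8, k9⟩ := hT p hp
    obtain ⟨a, b, d, f1, f2, f3, f4⟩ := flip k5 k9
    rw [← f2] at k6 k7 k8
    rw [← f3] at k8
    obtain ⟨u, hu⟩ := fl s0 a
    obtain ⟨v, hv⟩ := fl s0 b
    have g1 : (1 : ℝ) ≤ Ht a b d := (one_le_P (by omega)).trans k6.le
    have g2 : |Lv a b d x| ≤ 1 := by
      have := mul_le_mul_of_nonneg_left (one_le_pow₀ g1 (n := 2)) (abs_nonneg (Lv a b d x))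
      linarith
    have g3 : 1 - P (-w) ≤ x := by linarith
    obtain ⟨q1, q2, q3⟩ := sq e0.le (by linarith) g3 k4 y0 y1 s1 M0.le (Ms ▸ k6) (Ms2 ▸ k7) g2 hu hv
    refine ⟨(u, v), ⟨q1, q2, ?_⟩, x, k1, k2, g3, k4, a, b, d, f1, hu, hv, k8⟩
    have q4 : |2 * ((a : ℝ) * (x0 - x))| ≤ P (i - 1 - μ) :=
      two_mul_le_P (mul_le_P ((abs_a_le_Ht a b d).trans k7) (node_dist hx0 k1) le_rfl) (by omega)
    have q5 : s * P (w + 5) ≤ P (i - l0) := by
      rw [hs, P_mul (c := i - l0) (by omega)]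
    have q6 : P (-w) * P (w + 5) = 32 := by
      rw [P_mul (c := 5) (by ring)]
      norm_num [P]
    rw [Dv_taylor a b x x0] at q3
    have q7 : P (w + 5) - 4 ≤ 2 * u * x0 + v :=
      le_of_mul_le_mul_left (by linarith [(abs_le.1 q4).1]) s0
    have := mul_le_mul_of_nonneg_left q7 e0.le
    show 10 ≤ P (-w) * (2 * (u : ℝ) * x0 + v)
    linarith
  choose! U hU using key
  have one : ∀ V ∈ T.image U, ((T.filter fun p => U p = V).card : ℝ) ≤ (1 + 30 * P (-w)) *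
      (2 * c * (1 / Z3 + P (-w)) * P (3 * j - 3 * m)) * (1 / (Nh V.1 V.2 : ℝ) ^ 2) := by
    intro V hV
    obtain ⟨p, hp, rfl⟩ := Finset.mem_image.1 hV
    obtain ⟨q1, q2, q3⟩ := (hU p hp).1
    obtain ⟨k, hk⟩ : ∃ k, Nh (U p).1 (U p).2 = k := ⟨_, rfl⟩
    rw [hk] at q1 q2 ⊢
    have k4 : (k : ℝ) + 2 ≤ P (μ + 2) := by
      rw [P_shift 2 (a := μ) (by push_cast; ring)]
      nlinarith
    have k5 : k * s ≤ P (i + 1) := by
      rw [← P_mul (a := μ + 2) (b := i - 1 - μ) (by ring), ← hs]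
      exact mul_le_mul_of_nonneg_right (by linarith) s0.le
    rw [mul_one_div]
    refine h1 _ c s _ x0 m j A k _ _ e0 e1 c0 c1 (by positivity) hx0 hk q3 (by nlinarith) ?_ ?_ ?_
      ?_ ?_ _ fun p' hp' => ?_
    · rw [hs, ← P_add]
      exact one_le_P (by omega)
    · refine (mul_le_mul_of_nonneg_right k4 (P_pos _).le).trans ?_
      rw [← P_add]
      exact P_le_one (by omega)
    · rw [hs, P_cube, ← P_add, ← P_add]
      exact c1.trans (one_le_P (by omega))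
    · have t1 : (k * s) ^ 3 ≤ P (3 * (i + 1)) := by
        rw [← P_cube]
        exact pow_le_pow_left₀ (by positivity) k5 3
      have t2 : P (3 * (i + 1) + 4) = 2 ^ 4 * P (3 * (i + 1)) := P_shift 4 (by push_cast; ring)
      have t3 : P (-w) * P (-κ) * P (3 * j) ≤ P (-w) * c * P (3 * j) := by
        have := P_pos (3 * j)
        gcongr
      rw [← P_add, ← P_add] at t3
      have t4 : P (3 * (i + 1) + 4) ≤ P (-w + -κ + 3 * j) := P_le (by omega)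
      linarith
    · intro l lam t1 t2
      have hm := P_pos (-3 * m)
      have l0' : 0 < lam := (mul_pos s0 hm).trans_le t1
      have t3 := hS x0 _ _ ((U p).1 * s) ((U p).2 * s) l s lam hcov l0' ?_ ?_ ?_
      · obtain ⟨t4, t5⟩ := abs_le.1 t3
        have t6 : 0 < s ^ 2 * lam := by positivity
        have t7 : {Q | InB x0 ((U p).1 * s) ((U p).2 * s) l s lam Q ∧
            Rough Y Q.1 Q.2.1 Q.2.2}.Finite := by
          by_contra hn
          rw [Set.Infinite.ncard hn, Nat.cast_zero, zero_sub, neg_le_neg_iff,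
            div_le_iff₀ (by linarith)] at t4
          have : P (-w) * Z3 < 1 := by nlinarith
          nlinarith
        refine (Nat.cast_le.2 (Set.ncard_le_ncard ?_ t7)).trans ?_
        · exact fun Q hQ => ⟨hQ.1, fun q hq _ h => hq.one_lt.ne' (by
            simpa using Int.isUnit_iff_natAbs_eq.1 (hQ.2 q h.1 h.2.1 h.2.2))⟩
        rw [add_mul, one_div_mul_eq_div]
        linarith
      · refine le_trans ?_ (mul_le_mul_of_nonneg_left t1 (P_pos _).le)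
        rw [hs, ← P_add, ← P_add]
        exact P_le (by omega)
      · rw [hs, ← P_add, ← P_zero]
        exact P_add_le (by omega) (by omega)
      · have t4 : k * s * P (-3 * m) ≤ P (i + 1) * P (-3 * m) :=
          mul_le_mul_of_nonneg_right k5 hm.le
        rw [← P_add] at t4
        have t5 : P (i + 1 + -3 * m + 3) = 2 ^ 3 * P (i + 1 + -3 * m) :=
          P_shift 3 (by push_cast; ring)
        have t6 : P (i + 1 + -3 * m + 3) ≤ P (-ω) := P_le (by omega)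
        linarith
    · obtain ⟨t1, t2⟩ := Finset.mem_filter.1 hp'
      exact t2 ▸ (hU p' t1).2
  obtain ⟨k1, hk1⟩ : ∃ k1 : ℕ, (k1 : ℝ) = P μ - 3 := by
    have : 3 ≤ 2 ^ μ := by
      rw [P_nat] at M1
      exact_mod_cast (by linarith : (3 : ℝ) ≤ 2 ^ μ)
    exact ⟨2 ^ μ - 3, by rw [P_nat]; push_cast [this]; rfl⟩
  have b0 : 0 ≤ 2 * P μ * (1 + 3 * P (-w)) + 3 := by positivity
  have b1 : 1 ≤ k1 := by exact_mod_cast (by linarith : (1 : ℝ) ≤ k1)
  have b2 : k1 ≤ ⌊2 * P μ * (1 + 3 * P (-w)) + 3⌋₊ := Nat.le_floor (by nlinarith)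
  have hex := h4 x0 k1 _ (T.image U) b1 b2 fun V hV => by
    obtain ⟨p, hp, rfl⟩ := Finset.mem_image.1 hV
    obtain ⟨q1, q2, q3⟩ := (hU p hp).1
    exact ⟨by exact_mod_cast hk1 ▸ q1, Nat.le_floor q2, pos_of_mul_pos_left (by linarith) e0.le⟩
  rw [Finset.card_eq_sum_card_image U, Nat.cast_sum]
  refine (Finset.sum_le_sum one).trans ?_
  rw [← Finset.mul_sum]
  refine (mul_le_mul_of_nonneg_left hex (by positivity)).trans ?_
  have fin := mul_le_mul_of_nonneg_right (num e0 e1 eη c0.le hM hk1 (Nat.floor_le b0)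
    (Nat.cast_pos.2 (by omega)) z1 z2) hP.le
  unfold rate
  linarith

end ExOrd
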