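import Pool.Agent.Lib.MP_a94b90_nt.ES.Stmt

/-! ES: nodes killed by the primitive forms of one square. -/

namespace ExOrd
open Set

namespace SKSq

/-- the derivative of a form of the square on the node. -/
theorem dv_bd {u v a b : ℤ} {k s h x0 y : ℝ} (hu : |(u : ℝ)| ≤ k) (hs : 0 ≤ s)
    (hkh : k * h ≤ 1) (hh : h ≤ 1 / 2) (hy0 : 0 ≤ y) (hy1 : y ≤ 1 + h) (hxy : |y - x0| ≤ h)
    (ha : u * s ≤ a ∧ a < u * s + s) (hb : v * s ≤ b ∧ b < v * s + s) :
    s * (2 * u * x0 + v - 2) ≤ Dv a b y ∧ Dv a b y ≤ s * (2 * u * x0 + v + 6) := by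
  have h1 : |(u : ℝ) * (y - x0)| ≤ 1 := by
    rw [abs_mul]
    exact (mul_le_mul hu hxy (abs_nonneg _) ((abs_nonneg _).trans hu)).trans hkh
  obtain ⟨h2, h3⟩ := abs_le.1 h1
  have h4 := mul_le_mul_of_nonneg_right ha.1 hy0
  have h5 := mul_le_mul_of_nonneg_right ha.2.le hy0
  have h6 := mul_le_mul_of_nonneg_left h2 hs
  have h7 := mul_le_mul_of_nonneg_left h3 hs
  have h8 := mul_le_mul_of_nonneg_left (show y ≤ 3 / 2 by linarith) hs
  unfold Dv
  constructor <;> nlinarith [ha.1, ha.2, hb.1, hb.2]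

theorem abs_lo {u a s : ℝ} (_hs : 0 ≤ s) {t : ℝ} (h1 : u * s ≤ a) (h2 : a ≤ u * s + t) :
    |u| * s ≤ |a| + t := by
  rcases abs_cases u with ⟨e, -⟩ | ⟨e, -⟩ <;> rw [e] <;>
    nlinarith [le_abs_self a, neg_abs_le a]

/-- the height of a violating form of the square. -/
theorem ht_lo {u v a b d : ℤ} {k : ℕ} {ε c s x : ℝ} (he : 0 < ε) (hc : c ≤ 1)
    (hk : Nh u v = k) (hek : 10 ≤ ε * k) (hs : 1 ≤ s) (hx0 : 1 - ε ≤ x) (hx1 : x ≤ 1)
    (hx : 0 ≤ x) (hp : Prim a b d)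
    (ha : u * s ≤ a ∧ a < u * s + s) (hb : v * s ≤ b ∧ b < v * s + s)
    (hL : |Lv a b d x| * (Ht a b d : ℝ) ^ 2 < c) : (1 - 4 * ε) * (k * s) ≤ Ht a b d := by
  have h0 : Ht a b d ≠ 0 := by
    intro h
    obtain ⟨rfl, rfl, rfl⟩ := Ht_eq_zero.1 h
    have := hp 2 (dvd_zero _) (dvd_zero _) (dvd_zero _)
    rcases Int.isUnit_iff.1 this with e | e <;> omega
  have h1 : (1 : ℝ) ≤ Ht a b d := by exact_mod_cast Nat.one_le_iff_ne_zero.2 h0
  have hL1 : |Lv a b d x| ≤ 1 := by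
    have := mul_le_mul_of_nonneg_left (one_le_pow₀ (n := 2) h1) (abs_nonneg (Lv a b d x))
    linarith
  have ka := abs_a_le_Ht a b d
  have kb := abs_b_le_Ht a b d
  have kd := abs_c_le_Ht a b d
  have hs0 : 0 ≤ s := by linarith
  have la := abs_lo hs0 ha.1 ha.2.le
  have lb := abs_lo hs0 hb.1 hb.2.le
  have lab : |(u : ℝ) + v| * s ≤ |(a : ℝ) + b| + 2 * s :=
    abs_lo hs0 (by linarith [ha.1, hb.1]) (by linarith [ha.2, hb.2])
  set H : ℝ := (Ht a b d : ℝ) with hH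
  have e1 : |(a : ℝ) * (1 - x ^ 2)| ≤ H * (2 * ε) := by
    rw [abs_mul]
    refine mul_le_mul ka ?_ (abs_nonneg _) (by linarith)
    rw [abs_of_nonneg (by nlinarith)]
    nlinarith
  have e2 : |(b : ℝ) * (1 - x)| ≤ H * ε := by
    rw [abs_mul]
    refine mul_le_mul kb ?_ (abs_nonneg _) (by linarith)
    rw [abs_of_nonneg (by linarith)]
    linarith
  have e3 : |(a : ℝ) + b| ≤ H * (1 + 3 * ε) + 1 := by
    have : (a : ℝ) + b = Lv a b d x - d + a * (1 - x ^ 2) + b * (1 - x) := by unfold Lv; ring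
    rw [abs_le]
    obtain ⟨p1, p2⟩ := abs_le.1 e1
    obtain ⟨p3, p4⟩ := abs_le.1 e2
    obtain ⟨p5, p6⟩ := abs_le.1 hL1
    obtain ⟨p7, p8⟩ := abs_le.1 kd
    constructor <;> linarith
  have e4 : (k : ℝ) = |(u : ℝ)| ∨ (k : ℝ) = |(v : ℝ)| ∨ (k : ℝ) = |(u : ℝ) + v| := by
    have : k = u.natAbs ∨ k = v.natAbs ∨ k = (u + v).natAbs := by unfold Nh at hk; omega
    rcases this with e | e | e
    · left; rw [e, Nat.cast_natAbs, Int.cast_abs]
    · right; left; rw [e, Nat.cast_natAbs, Int.cast_abs]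
    · right; right; rw [e, Nat.cast_natAbs, Int.cast_abs, Int.cast_add]
  have e0 : 0 ≤ H * ε := by positivity
  have e5 : k * s ≤ H * (1 + 3 * ε) + 3 * s := by
    rcases e4 with e | e | e <;> rw [e] <;> linarith
  have e6 := mul_le_mul_of_nonneg_right hek hs0
  have e7 : 0 ≤ (k : ℝ) * s := by positivity
  have e8 : 0 ≤ ε * ε * ((k : ℝ) * s) := by positivity
  have e9 : (1 - 4 * ε) * (k * s) * (1 + 3 * ε) ≤ H * (1 + 3 * ε) := by nlinarith
  exact le_of_mul_le_mul_right e9 (by linarith)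

/-- mean value form on a node. -/
theorem lv_mid (a b d : ℤ) (x y : ℝ) :
    Lv a b d y - Lv a b d x = Dv a b ((x + y) / 2) * (y - x) := by
  unfold Lv Dv; ring

theorem mid_mem {m A : ℕ} {x y : ℝ} (hx : x ∈ Node m A) (hy : y ∈ Node m A) :
    (x + y) / 2 ∈ Node m A :=
  ⟨by linarith [hx.1, hy.1], by linarith [hx.2, hy.2]⟩

/-- the final numerical estimate. -/
theorem fin_num {ε D0 s h J c z k τ N R : ℝ} (he : 0 < ε) (he1 : ε ≤ 1 / 100) (hD : 10 ≤ ε * D0)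
    (hs : 0 < s) (hh : 0 < h) (hz : 0 ≤ z) (hk : 0 < k)
    (hτ : τ * ((1 - 4 * ε) * (k * s)) ^ 2 = c)
    (hN : N ≤ z * (s ^ 2 * ((1 + ε) * D0 * s * h)))
    (hR : R * (s * (D0 - 2)) = 2 * τ * J) (hR0 : 16 ≤ ε * R) :
    N * (R + 2) ≤ (1 + 30 * ε) * (2 * c * z * (J * h)) / k ^ 2 := by
  have hD0 : 1000 ≤ D0 := by
    by_contra hlt
    have := mul_lt_mul_of_pos_left (not_le.1 hlt) he
    linarith
  have hRp : 0 < R := by
    by_contra hlt
    have := mul_nonpos_of_nonneg_of_nonpos he.le (not_lt.1 hlt)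
    linarith
  have h1 : R + 2 ≤ (1 + ε / 8) * R := by linarith
  have h2 : N * (R + 2) ≤ z * (s ^ 2 * ((1 + ε) * D0 * s * h)) * ((1 + ε / 8) * R) :=
    mul_le_mul hN h1 (by linarith) (by positivity)
  refine h2.trans ?_
  rw [le_div_iff₀ (by positivity), ← hτ]
  have h3 : (1 + ε) * (1 + ε / 8) ≤ (1 + 30 * ε) * (1 - 4 * ε) ^ 2 * (1 - ε / 5) := by
    have q1 : 1 - 8 * ε ≤ (1 - 4 * ε) ^ 2 := by nlinarith
    have q2 : 1 - 9 * ε ≤ (1 - 4 * ε) ^ 2 * (1 - ε / 5) := by nlinarith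
    have q3 : (1 + 30 * ε) * (1 - 9 * ε) ≤ (1 + 30 * ε) * ((1 - 4 * ε) ^ 2 * (1 - ε / 5)) :=
      mul_le_mul_of_nonneg_left q2 (by linarith)
    nlinarith
  have h4 : (1 - ε / 5) * D0 ≤ D0 - 2 := by linarith
  have h5 : (1 + ε) * (1 + ε / 8) * D0 ≤ (1 + 30 * ε) * (1 - 4 * ε) ^ 2 * (D0 - 2) := by
    have q1 := mul_le_mul_of_nonneg_right h3 (show 0 ≤ D0 by linarith)
    have q2 := mul_le_mul_of_nonneg_left h4
      (show 0 ≤ (1 + 30 * ε) * (1 - 4 * ε) ^ 2 by positivity)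
    linarith
  have h6 := mul_le_mul_of_nonneg_right h5
    (show 0 ≤ z * s ^ 3 * h * R * k ^ 2 by positivity)
  have h7 : (1 + 30 * ε) * (2 * (τ * ((1 - 4 * ε) * (k * s)) ^ 2) * z * (J * h)) =
      (1 + 30 * ε) * (1 - 4 * ε) ^ 2 * (z * s ^ 2 * h * k ^ 2) * (2 * τ * J) := by ring
  rw [h7, ← hR]
  linarith

end SKSq

open SKSq in
theorem ksq (hf : FinStmt) : KSqStmt := by
  classical
  intro ε c s z x0 m j A k u v he he1 hc hc1 hz hx0 hk hD hek hes hkh hcs hJ hcnt T hT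
  have hh := P_pos (-3 * m)
  have hJ0 := P_pos (3 * j)
  have hPj : P (3 * j - 3 * m) = P (3 * j) * P (-3 * m) := (P_mul (by ring)).symm
  have hPj1 : P (3 * j) * P (-3 * j) = 1 := by rw [← P_zero]; exact P_mul (by ring)
  have hk0 : (1000 : ℝ) ≤ k := by
    by_contra hlt
    have := mul_lt_mul_of_pos_left (not_le.1 hlt) he
    linarith
  have hs0 : (100 : ℝ) ≤ s := by
    by_contra hlt
    have := mul_lt_mul_of_pos_left (not_le.1 hlt) he
    linarith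
  rcases T.eq_empty_or_nonempty with h | ⟨p1, hp1⟩
  · rw [h, Finset.card_empty, Nat.cast_zero]
    have := P_pos (3 * j - 3 * m)
    positivity
  obtain ⟨x1, hx1, -, -, hx1', -⟩ := hT p1 hp1
  rw [hPj]
  set h := P (-3 * m) with hdef
  set D0 : ℝ := 2 * u * x0 + v with hD0def
  have hD0 : 1000 ≤ D0 := by
    by_contra hlt
    have := mul_lt_mul_of_pos_left (not_le.1 hlt) he
    linarith
  have hu : |(u : ℝ)| ≤ k := hk ▸ abs_a_le_Nh u v
  have huv : |(u : ℝ) + v| ≤ k := hk ▸ abs_ab_le_Nh u v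
  have hkh1 : (k : ℝ) * h ≤ 1 := by linarith
  have hh2 : h ≤ 1 / 2 := by nlinarith
  have hnode : ∀ y ∈ Node m A, 0 ≤ y ∧ y ≤ 1 + h := fun y hy =>
    ⟨le_trans (by positivity) hy.1, by linarith [(abs_le.1 (node_dist hy hx1)).2]⟩
  have hD1 : D0 ≤ 2 * k + 2 := by
    obtain ⟨q1, q2⟩ := hnode x0 hx0
    have q3 : |(u : ℝ) * (2 * x0 - 1)| ≤ k * (1 + 2 * h) := by
      rw [abs_mul]
      exact mul_le_mul hu (abs_le.2 ⟨by linarith, by linarith⟩) (abs_nonneg _) (by linarith)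
    have q4 := (abs_le.1 q3).2
    have q5 := (abs_le.1 huv).2
    rw [hD0def]; linarith
  have hDv : ∀ a b : ℤ, (u * s ≤ a ∧ a < u * s + s) → (v * s ≤ b ∧ b < v * s + s) →
      ∀ y ∈ Node m A, s * (D0 - 2) ≤ Dv a b y ∧ Dv a b y ≤ s * (D0 + 6) := fun a b ha hb y hy =>
    dv_bd hu (by linarith) hkh1 hh2 (hnode y hy).1 (hnode y hy).2 (node_dist hy hx0) ha hb
  have hW : 0 < (1 - 4 * ε) * (k * s) := mul_pos (by linarith) (by positivity)
  obtain ⟨τ, hτ0, hτ⟩ : ∃ τ : ℝ, 0 < τ ∧ τ * ((1 - 4 * ε) * (k * s)) ^ 2 = c :=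
    ⟨c / ((1 - 4 * ε) * (k * s)) ^ 2, by positivity, div_mul_cancel₀ _ (by positivity)⟩
  have hDm : 0 < s * (D0 - 2) := mul_pos (by linarith) (by linarith)
  have hsh : 0 < s * h := by positivity
  have hτ1 : 3 * τ ≤ s * h := by
    have q1 : 2 * s ≤ (1 - 4 * ε) * (k * s) := by
      have r1 : 1 / 2 * (k * s) ≤ (1 - 4 * ε) * (k * s) :=
        mul_le_mul_of_nonneg_right (by linarith) (by positivity)
      have r2 := mul_le_mul_of_nonneg_right hk0 (show 0 ≤ s by linarith)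
      linarith
    have q2 : (2 * s) ^ 2 ≤ ((1 - 4 * ε) * (k * s)) ^ 2 := pow_le_pow_left₀ (by linarith) q1 2
    have q3 := mul_le_mul_of_nonneg_left q2 hτ0.le
    have q4 : ε * s ^ 3 * h ≤ 1 * (s ^ 3 * h) := by
      rw [mul_assoc]; exact mul_le_mul_of_nonneg_right (by linarith) (by positivity)
    have q6 : 0 < τ * s ^ 2 := by positivity
    have q5 : 3 * τ * s ^ 2 ≤ s * h * s ^ 2 := by linarith
    exact le_of_mul_le_mul_right q5 (by positivity)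
  obtain ⟨R, hR⟩ : ∃ R : ℝ, R * (s * (D0 - 2)) = 2 * τ * P (3 * j) :=
    ⟨_, div_mul_cancel₀ _ hDm.ne'⟩
  have hR0 : 16 ≤ ε * R := by
    have q1 : ((1 - 4 * ε) * (k * s)) ^ 2 ≤ (k * s) ^ 2 :=
      pow_le_pow_left₀ hW.le (by nlinarith [mul_pos he (show (0 : ℝ) < k * s by positivity)]) 2
    have q2 : c ≤ τ * (k * s) ^ 2 := hτ ▸ mul_le_mul_of_nonneg_left q1 hτ0.le
    have q3 : ε * c * P (3 * j) ≤ ε * (τ * (k * s) ^ 2) * P (3 * j) := by gcongr
    have q4 : 16 * (k * s) * (k * s) ^ 2 ≤ ε * τ * P (3 * j) * (k * s) ^ 2 := by linarith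
    have q5 := le_of_mul_le_mul_right q4 (by positivity)
    have q6 : s * (D0 - 2) ≤ s * (2 * k) := mul_le_mul_of_nonneg_left (by linarith) (by linarith)
    have q7 : 16 * (s * (D0 - 2)) ≤ ε * R * (s * (D0 - 2)) := by
      rw [mul_assoc ε, hR]; linarith
    exact le_of_mul_le_mul_right q7 hDm
  have hRp : 0 ≤ R := by
    by_contra hlt
    have := mul_neg_of_pos_of_neg he (not_le.1 hlt)
    linarith
  set Dp := s * (D0 + 6) with hDp
  set l0 := -τ - Dp * ((A + 1) * h - x0) with hl0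
  set lam := Dp * h + 3 * τ with hlam
  have hlam1 : s * h ≤ lam := by
    have := mul_le_mul_of_nonneg_left (show 1 ≤ D0 + 6 by linarith) hsh.le
    rw [hlam, hDp]; linarith
  have hlam2 : lam ≤ 8 * k * s * h := by
    have := mul_le_mul_of_nonneg_left (show D0 + 7 ≤ 8 * k by linarith) hsh.le
    rw [hlam, hDp]; linarith
  have hlam3 : lam ≤ (1 + ε) * D0 * s * h := by
    have := mul_le_mul_of_nonneg_left (show D0 + 7 ≤ (1 + ε) * D0 by linarith) hsh.le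
    rw [hlam, hDp]; linarith
  have hN := hcnt l0 lam hlam1 hlam2
  have hfin : {Q | InB x0 (u * s) (v * s) l0 s lam Q ∧ Prim Q.1 Q.2.1 Q.2.2}.Finite :=
    (hf x0 (u * s) (v * s) l0 s lam).subset fun Q hQ => hQ.1
  rw [Set.ncard_eq_toFinset_card _ hfin] at hN
  let TQ : ℤ × ℤ × ℤ → Finset ℕ := fun Q =>
    T.filter fun p => ∃ x ∈ Node j p, x ∈ Node m A ∧ |Lv Q.1 Q.2.1 Q.2.2 x| ≤ τ
  have hsub : T ⊆ hfin.toFinset.biUnion TQ := by
    intro p hp
    obtain ⟨x, hx, hxj, hxe, hx1, a, b, d, hpr, ha, hb, hL⟩ := hT p hp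
    have q1 := ht_lo he hc1 hk hek (by linarith) hxe hx1 (hnode x hx).1 hpr ha hb hL
    have q2 : ((1 - 4 * ε) * (k * s)) ^ 2 ≤ (Ht a b d : ℝ) ^ 2 := pow_le_pow_left₀ hW.le q1 2
    have q3 : |Lv a b d x| ≤ τ := by
      have := mul_le_mul_of_nonneg_left q2 (abs_nonneg (Lv a b d x))
      exact le_of_mul_le_mul_right (by linarith) (pow_pos hW 2)
    refine Finset.mem_biUnion.2 ⟨(a, b, d), ?_, Finset.mem_filter.2 ⟨hp, x, hxj, hx, q3⟩⟩
    rw [Set.Finite.mem_toFinset]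
    obtain ⟨q4, q5⟩ := hDv a b ha hb _ (mid_mem hx hx0)
    have q6 := lv_mid a b d x x0
    obtain ⟨q7, q8⟩ := abs_le.1 q3
    have r1 := hx.1
    have r2 := hx.2
    have r3 := hx0.1
    have r4 := hx0.2
    rw [← hdef] at r1 r2 r3 r4
    set D := Dv a b ((x + x0) / 2)
    have hDp0 : 0 ≤ Dp := by linarith
    have hD' : 0 ≤ D := by linarith
    have t1 : -(Dp * ((A + 1) * h - x0)) ≤ D * (x0 - x) := by
      have := mul_le_mul_of_nonneg_right q5 (show 0 ≤ (A + 1) * h - x0 by linarith)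
      have := mul_le_mul_of_nonneg_left (show x - x0 ≤ (A + 1) * h - x0 by linarith) hD'
      linarith
    have t2 : D * (x0 - x) ≤ Dp * (x0 - A * h) := by
      have := mul_le_mul_of_nonneg_right q5 (show 0 ≤ x0 - A * h by linarith)
      have := mul_le_mul_of_nonneg_left (show x0 - x ≤ x0 - A * h by linarith) hD'
      linarith
    refine ⟨⟨ha, hb, ?_, ?_⟩, hpr⟩
    · show l0 ≤ Lv a b d x0
      rw [hl0]; linarith
    · show Lv a b d x0 < l0 + lam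
      rw [hl0, hlam]; linarith
  have hone : ∀ Q ∈ hfin.toFinset, ((TQ Q).card : ℝ) ≤ R + 2 := by
    intro Q hQ
    rw [Set.Finite.mem_toFinset] at hQ
    obtain ⟨⟨ha, hb, -⟩, -⟩ := hQ
    refine diamR (j := j) (E := fun x => x ∈ Node m A ∧ |Lv Q.1 Q.2.1 Q.2.2 x| ≤ τ) hRp ?_ _
      fun p hp => (Finset.mem_filter.1 hp).2
    rintro x y ⟨hx, lx⟩ ⟨hy, ly⟩
    have q1 := (hDv _ _ ha hb _ (mid_mem hy hx)).1
    have q2 := lv_mid Q.1 Q.2.1 Q.2.2 y x
    have q3 : |Dv Q.1 Q.2.1 ((y + x) / 2) * (x - y)| ≤ 2 * τ := by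
      rw [← q2]; linarith [abs_sub (Lv Q.1 Q.2.1 Q.2.2 x) (Lv Q.1 Q.2.1 Q.2.2 y)]
    rw [abs_mul, abs_of_nonneg (by linarith)] at q3
    have q4 := mul_le_mul_of_nonneg_right q1 (abs_nonneg (x - y))
    have q5 : R * P (-3 * j) * (s * (D0 - 2)) = 2 * τ := by
      rw [mul_right_comm, hR, mul_assoc, hPj1, mul_one]
    exact le_of_mul_le_mul_right (by linarith) hDm
  have hsum : (T.card : ℝ) ≤ hfin.toFinset.card * (R + 2) := by
    have q1 : (T.card : ℝ) ≤ ∑ Q ∈ hfin.toFinset, ((TQ Q).card : ℝ) := by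
      exact_mod_cast (Finset.card_le_card hsub).trans Finset.card_biUnion_le
    have q2 := Finset.sum_le_card_nsmul _ _ _ hone
    rw [nsmul_eq_mul] at q2
    exact q1.trans q2
  refine hsum.trans (fin_num he he1 hD (by linarith) hh hz (by linarith) hτ
    (hN.trans ?_) hR hR0)
  gcongr

end ExOrd
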