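import Pool.Agent.Lib.MP_a94b90_nt.ES.Stmt

/-! ES row 22: the killed nodes of one level. -/

namespace ExOrd
open Set

namespace SLev

theorem small {η : ℝ} (hη : 0 < η) (C : ℕ) :
    ∃ κ0 : ℕ, ∀ κ : ℕ, κ0 ≤ κ → 4 * κ * P (C - κ + 2 * (κ / 3 : ℕ)) ≤ η := by
  obtain ⟨k, hk, -⟩ := exists_shell hη
  refine ⟨6 * (C + 5 + k.natAbs), fun κ h => ?_⟩
  have h1 : κ ≤ 6 * 2 ^ (κ / 6) := by
    have : κ / 6 < 2 ^ (κ / 6) := Nat.lt_two_pow_self
    omega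
  have h2 : (κ : ℝ) ≤ 6 * P (κ / 6 : ℕ) := by rw [P_nat]; exact_mod_cast h1
  have h3 : P ((κ / 6 : ℕ) + 5) = 2 ^ 5 * P (κ / 6 : ℕ) := P_shift 5 rfl
  have h4 := P_pos (κ / 6 : ℕ)
  refine le_trans (mul_le_mul_of_nonneg_right (show (4 * κ : ℝ) ≤ P ((κ / 6 : ℕ) + 5) by linarith)
    (P_pos _).le) ?_
  rw [← P_add]
  exact (P_le (by omega)).trans hk

theorem anc {b j p : ℕ} (h : b ≤ j) : Node j p ⊆ Node b (p / 8 ^ (j - b)) := by
  obtain ⟨d, rfl⟩ := Nat.exists_eq_add_of_le h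
  rw [Nat.add_sub_cancel_left]
  exact node_sub b d p

theorem dd {a b j p : ℕ} (h : a ≤ b) (h' : b ≤ j) :
    p / 8 ^ (j - b) / 8 ^ (b - a) = p / 8 ^ (j - a) := by
  rw [Nat.div_div_eq_div_mul, ← pow_add, show j - b + (b - a) = j - a by omega]

theorem die {Q : ℕ → Prop} {b i : ℕ} (h : b ≤ i) (hb : Q b) (hi : ¬ Q i) :
    ∃ t ∈ Finset.Ico b i, Q t ∧ ¬ Q (t + 1) := by
  induction i, h using Nat.le_induction with
  | base => exact absurd hb hi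
  | succ i h ih =>
    by_cases e : Q i
    · exact ⟨i, Finset.mem_Ico.2 ⟨h, i.lt_succ_self⟩, e, hi⟩
    · obtain ⟨t, h1, h2⟩ := ih e
      exact ⟨t, Finset.Ico_subset_Ico_right i.le_succ h1, h2⟩

theorem bi {α β : Type} [DecidableEq β] (s : Finset α) (f : α → Finset β) {M : ℝ}
    (h : ∀ a ∈ s, ((f a).card : ℝ) ≤ M) : ((s.biUnion f).card : ℝ) ≤ s.card * M := by
  have : ((s.biUnion f).card : ℝ) ≤ ∑ a ∈ s, ((f a).card : ℝ) := by
    exact_mod_cast Finset.card_biUnion_le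
  exact this.trans ((Finset.sum_le_card_nsmul _ _ _ h).trans_eq (nsmul_eq_mul _ _))

end SLev

open SLev Classical in
theorem lev (h1 : FamStmt) (h2 : WcntStmt) (h3 : GapCardStmt) (h4 : CloseStmt) : LevStmt := by
  intro η hη
  obtain ⟨l0, C0, D0, hf⟩ := h1 (η / 2) (by positivity)
  obtain ⟨κ1, hκ1⟩ := small hη (70 + l0 + 3 * C0)
  refine ⟨C0, 28 + l0 + 3 * C0, κ1 + D0 + 2 * C0 + 100,
    fun c x0 κ b i j B hκ c1 c2 n0 k0 s0 hj i1 i2 ns => ?_⟩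
  have c0 : 0 < c := (P_pos _).trans_le c1
  obtain ⟨W, hW, hs⟩ := hf c x0 κ b i j B c1 c2 (by omega) n0 (KS.inK c1 k0) s0 (by omega)
    (by omega) (by omega)
  have ji : j - i = κ / 3 + C0 := by omega
  rw [← ji]
  let S := W.sigma fun Q => gapN c b B j Q
  have hS : ∀ V ∈ S, V.1 ∈ W ∧ V.2 / 8 ^ (j - b) = B ∧ ∀ x ∈ Node j V.2,
      ViolN c i x V.1.1 V.1.2.1 V.1.2.2 ∧ 0 < Dv V.1.1 V.1.2.1 x := fun V hV => by
    obtain ⟨a1, a2⟩ := Finset.mem_sigma.1 hV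
    obtain ⟨a2, a3⟩ := Finset.mem_filter.1 a2
    rw [mem_desc] at a2
    obtain ⟨-, w1, w2, w3⟩ := hW _ a1
    exact ⟨a1, a2, fun x hx => ⟨⟨w1, w2, a3 x hx⟩,
      (P_pos _).trans_le (w3 x (a2 ▸ anc (by omega) hx))⟩⟩
  let F := fun t a => S.filter fun V => V.2 / 8 ^ (j - t) = a
  have cnt : ∀ t a, b ≤ t → t ≤ i → Alive c t a → ((F t a).card : ℝ) ≤
      P (3 * (i - t) + 2 * (κ / 3 : ℕ) + (28 + l0 + 3 * C0 : ℕ)) := by
    rintro t a t1 t2 ⟨y, y1, y2⟩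
    have e1 := h2 κ t i a y ((F t a).image (·.1)) (by omega) t2 y1 (KS.inK c1 y2) fun Q hQ => by
      obtain ⟨V, hV, rfl⟩ := Finset.mem_image.1 hQ
      obtain ⟨v1, v2⟩ := Finset.mem_filter.1 hV
      obtain ⟨⟨w1, w2, w3⟩, -⟩ := (hS V v1).2.2 _ (node_left j V.2)
      exact ⟨(abs_a_le_Nh _ _).trans w2, (abs_b_le_Nh _ _).trans w2, _,
        v2 ▸ anc (by omega) (node_left j V.2), le_P (viol_L c2 w1 w3) (by omega)⟩
    have e2 := bi ((F t a).image (·.1)) (fun Q => (gapN c b B j Q).image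
      fun p => (⟨Q, p⟩ : Σ _ : ℤ × ℤ × ℤ, ℕ)) (M := P (l0 + 3 * C0 + 8)) fun Q hQ => by
      obtain ⟨V, hV, rfl⟩ := Finset.mem_image.1 hQ
      obtain ⟨-, w1, -, w3⟩ := hW _ (hS V (Finset.mem_filter.1 hV).1).1
      exact le_trans (by exact_mod_cast Finset.card_image_le)
        (h3 _ _ _ c κ b i j B l0 C0 c2 (by omega) (by omega) w1 w3)
    refine le_trans (Nat.cast_le.2 (Finset.card_le_card fun V hV => ?_)) (e2.trans
      ((mul_le_mul_of_nonneg_right e1 (P_pos _).le).trans_eq (P_mul (by push_cast; ring))))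
    exact Finset.mem_biUnion.2 ⟨V.1, Finset.mem_image_of_mem _ hV, Finset.mem_image.2
      ⟨V.2, (Finset.mem_sigma.1 (Finset.mem_filter.1 hV).1).2, rfl⟩⟩
  let G := S.filter fun V => Alive c i (V.2 / 8 ^ (j - i)) ∧
    ¬ CloseN c (j - i) i (V.2 / 8 ^ (j - i))
  let T := (desc (i - b) B).filter fun a => Alive c i a ∧ CloseN c (j - i) i a
  have hT := h4 c x0 κ C0 b i B T c1 c2 (by omega) n0 (KS.inK c1 k0) s0 i1 i2 ns fun p hp => by
    obtain ⟨a1, a2⟩ := Finset.mem_filter.1 hp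
    exact ⟨mem_desc.1 a1, ji ▸ a2⟩
  refine ⟨G.image (·.2), fun p hp => ?_, ?_⟩
  · obtain ⟨V, hV, rfl⟩ := Finset.mem_image.1 hp
    obtain ⟨v1, v2, v3⟩ := Finset.mem_filter.1 hV
    obtain ⟨w1, w2, w3⟩ := hS V v1
    exact ⟨w2, v2, v3, _, _, _, (hW _ w1).1, w3⟩
  have inj : (G.image (·.2)).card = G.card := Finset.card_image_of_injOn (by
    rintro ⟨Q, p⟩ hV ⟨Q', _⟩ hV' rfl
    obtain ⟨v1, -, v3⟩ := Finset.mem_filter.1 hV
    obtain ⟨w1, -, w3⟩ := hS _ v1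
    obtain ⟨u1, -, u3⟩ := hS _ (Finset.mem_filter.1 hV').1
    have l := node_left j p
    obtain ⟨e1, e2, e3⟩ := prim_eq (hW _ w1).1 (hW _ u1).1 (fun d => v3 ⟨_, anc (by omega) l, i,
      _, _, _, _, _, _, le_rfl, by omega, (w3 _ l).1, (u3 _ l).1, d⟩) (w3 _ l).2 (u3 _ l).2
    rw [show Q = Q' from Prod.ext e1 (Prod.ext e2 e3)])
  have sub : S ⊆ G ∪ (T.biUnion (F i) ∪
      (Finset.Ico b i).biUnion fun t => (pd (Alive c) b B t).biUnion (F t)) := fun V hV => by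
    have v := (hS V hV).2.1
    simp only [Finset.mem_union, Finset.mem_biUnion]
    by_cases a : Alive c i (V.2 / 8 ^ (j - i))
    · by_cases d : CloseN c (j - i) i (V.2 / 8 ^ (j - i))
      · exact .inr (.inl ⟨_, Finset.mem_filter.2 ⟨mem_desc.2 ((dd (by omega) (by omega)).trans v),
          a, d⟩, Finset.mem_filter.2 ⟨hV, rfl⟩⟩)
      · exact .inl (Finset.mem_filter.2 ⟨hV, a, d⟩)
    obtain ⟨t, t1, t2, t3⟩ := die (Q := fun t => Alive c t (V.2 / 8 ^ (j - t))) (b := b) (by omega)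
      (v ▸ ⟨x0, n0, k0⟩) a
    have := Finset.mem_Ico.1 t1
    refine .inr (.inr ⟨t, t1, _, Finset.mem_filter.2 ⟨mem_desc.2 ((dd (by omega) (by omega)).trans
      v), t2, _, ?_, t3⟩, Finset.mem_filter.2 ⟨hV, rfl⟩⟩)
    simpa using dd (a := t) (b := t + 1) (j := j) (p := V.2) (by omega) (by omega)
  have z1 : ∑ Q ∈ W, ((gapN c b B j Q).card : ℝ) ≤ G.card + ((T.biUnion (F i)).card +
      ∑ t ∈ Finset.Ico b i, (((pd (Alive c) b B t).biUnion (F t)).card : ℝ)) := by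
    have := (Finset.card_le_card sub).trans ((Finset.card_union_le _ _).trans
      (Nat.add_le_add_left ((Finset.card_union_le _ _).trans
        (Nat.add_le_add_left Finset.card_biUnion_le _)) _))
    rw [Finset.card_sigma] at this
    exact_mod_cast this
  have z2 := Finset.sum_le_sum (s := Finset.Ico b i) fun t ht =>
    bi (pd (Alive c) b B t) (F t) fun a ha => cnt t a (Finset.mem_Ico.1 ht).1
      (Finset.mem_Ico.1 ht).2.le (Finset.mem_filter.1 ha).2.1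
  have z3 := (bi T (F i) fun a ha => cnt i a (by omega) le_rfl (Finset.mem_filter.1 ha).2.1).trans
    (mul_le_mul_of_nonneg_right hT (P_pos _).le)
  have z4 := mul_le_mul_of_nonneg_right (hκ1 κ (by omega)) (P_pos (3 * j - 3 * b - κ)).le
  have z5 : P (3 * (i - b) - κ + 3 * C0 + 40) *
      P (3 * (i - i) + 2 * (κ / 3 : ℕ) + (28 + l0 + 3 * C0 : ℕ)) ≤
      P ((70 + l0 + 3 * C0 : ℕ) - κ + 2 * (κ / 3 : ℕ)) * P (3 * j - 3 * b - κ) := by
    rw [← P_add, ← P_add]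
    exact P_le (by omega)
  have z6 : P (3 * j - 3 * b - κ) ≤ rate c / 2 * P (3 * j - 3 * b) := by
    rw [← P_mul (a := -κ) (b := 3 * j - 3 * b) (by ring)]
    exact mul_le_mul_of_nonneg_right (by linarith [(rate_bd c0.le).1]) (P_pos _).le
  have z7 := mul_le_mul_of_nonneg_left z5 (show (0 : ℝ) ≤ 4 * κ by positivity)
  have z8 := mul_le_mul_of_nonneg_left z6 hη.le
  rw [inj]
  linarith

end ExOrd
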