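import Pool.Agent.Lib.MP_a94b90_nt.ES.Stmt
import Pool.Agent.Lib.MP_a94b90_nt.ED.Phase2
import Pool.Agent.Lib.MP_a94b90_nt.ED.Main2
import Pool.Agent.Lib.MP_a94b90_nt.ED.Light2
import Pool.Agent.Lib.MP_a94b90_nt.ED.Low1
import Pool.Agent.Lib.MP_a94b90_nt.ED.MainB

/-! ES: a point of `KS c` that avoids a light family of nodes. -/

namespace ExOrd
open Set

namespace SLow3

theorem start {r n : ℕ} (hr : n + 40 ≤ r) (x : ℝ) : StartAt r n x := by
  refine ⟨fun u l a b c hu hb => ?_, fun u hu ρ h _ => ?_⟩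
  · by_contra hd
    have := rg_box hb hd
    unfold kk at hu
    omega
  · have h1 : (1 : ℝ) ≤ ρ.den := by exact_mod_cast ρ.pos
    exact absurd (h1.trans h) (not_le.2 (P_lt_one (by omega)))

theorem prod_ge {lam : ℕ → ℝ} {L : ℝ} {M n j : ℕ} (h0 : 0 ≤ L) (h8 : L ≤ 8) (h7 : ∀ m, 7 ≤ lam m)
    (l8 : ∀ m, lam m ≤ 8) (h : ∀ m, M ≤ m → lam m = L) (hj : n ≤ j) :
    L ^ (j + 1) ≤ 2 ^ M * 8 ^ (n + 1) * ∏ m ∈ Finset.Ico n j, lam m := by
  have k1 := DLow1.prod_ge h0 h8 h7 h j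
  have k2 : ∏ m ∈ Finset.Ico 0 n, lam m ≤ 8 ^ n := by
    simpa using Finset.prod_le_prod (s := Finset.Ico 0 n) (f := lam) (g := fun _ => 8)
      (fun m _ => by linarith [h7 m]) fun m _ => l8 m
  have k3 : 0 ≤ ∏ m ∈ Finset.Ico n j, lam m := Finset.prod_nonneg fun m _ => by linarith [h7 m]
  have k4 : (2 : ℝ) ^ min j M ≤ 2 ^ M := pow_le_pow_right₀ (by norm_num) (min_le_right _ _)
  have k5 : 0 ≤ ∏ m ∈ Finset.Ico 0 n, lam m := Finset.prod_nonneg fun m _ => by linarith [h7 m]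
  rw [← Finset.prod_Ico_consecutive _ (Nat.zero_le n) hj] at k1
  calc L ^ (j + 1) = L ^ j * L := pow_succ _ _
    _ ≤ (2 ^ M * (8 ^ n * ∏ m ∈ Finset.Ico n j, lam m)) * 8 := by
        refine mul_le_mul (k1.trans ?_) h8 h0 (by positivity)
        gcongr
    _ = _ := by ring

theorem root (n : ℕ) : Node n (8 ^ n - 1) = Icc (1 - P (-3 * n)) 1 := by
  have k : (8 : ℝ) ^ n * P (-3 * n) = 1 := by
    rw [show (8 : ℝ) ^ n = P (3 * n : ℕ) by rw [P_nat, pow_mul]; norm_num, ← P_zero]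
    exact P_mul (by push_cast; ring)
  rw [Node, Nat.cast_pred (by positivity), sub_add_cancel, sub_mul, one_mul]
  push_cast
  rw [k]

theorem tree {r n M : ℕ} {lam wt : ℕ → ℝ} {L w : ℝ} {E : ℕ → ℝ → Prop} (hn : n + 40 ≤ r)
    (w0 : 0 < w) (w1 : w ≤ 1) (L1 : 1 ≤ L) (L8 : L ≤ 8) (l7 : ∀ j, 7 ≤ lam j)
    (l8 : ∀ j, lam j ≤ 8) (lM : ∀ j, M ≤ j → lam j = L)
    (hw : ∀ j, n ≤ j → w ≤ 8 - lam j - wt j ∧ Light2 r n (j + 1) lam
      (fun x => Good r j x ∧ (¬ Good r (j + 1) x ∨ E (j + 1) x)) (wt j)) :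
    ∃ δ : ℝ, 0 < δ ∧ ∀ C : ℕ → Finset ℕ, (∀ j, ((C j).card : ℝ) ≤ δ * L ^ j) →
      ∃ ξ, (1 - P (-3 * n) ≤ ξ ∧ ξ ≤ 1) ∧ (∀ j, n < j → ¬ E j ξ) ∧
        ∀ j, ∃ p, ξ ∈ Node j p ∧ p ∉ C j := by
  refine ⟨w / (2 ^ M * 8 ^ (n + 1)), by positivity, fun C hc => ?_⟩
  obtain ⟨p, p0, p1⟩ := phase2 r n (8 ^ n - 1) lam wt E C (fun x _ => (start hn x).good)
    fun j hj => by
      refine ⟨by linarith [l7 j], light2_mono (hw j hj).2 (fun x h => h.2) le_rfl, ?_⟩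
      have k1 : (cntB C n (8 ^ n - 1) (j + 1) : ℝ) ≤ (C (j + 1)).card := by
        exact_mod_cast Finset.card_filter_le _ _
      have k3 : 0 ≤ ∏ m ∈ Finset.Ico n j, lam m :=
        Finset.prod_nonneg fun m _ => by linarith [l7 m]
      refine (k1.trans (hc _)).trans (le_trans ?_ (mul_le_mul_of_nonneg_right (hw j hj).1 k3))
      rw [div_mul_eq_mul_div, div_le_iff₀ (by positivity), mul_assoc, mul_comm (∏ _ ∈ _, _)]
      exact mul_le_mul_of_nonneg_left (prod_ge (by linarith) L8 l7 l8 lM hj) w0.le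
  obtain ⟨ξ, hξ⟩ := IsCompact.nonempty_iInter_of_sequence_nonempty_isCompact_isClosed
    (fun t => Node (n + t) (p (n + t)))
    (fun t => by
      have := node_sub (n + t) 1 (p (n + t + 1))
      rw [pow_one, (p1 _ (Nat.le_add_right n t)).1] at this
      exact this)
    (fun j => ⟨_, node_left _ _⟩) isCompact_Icc fun j => isClosed_Icc
  have h : ∀ j, n ≤ j → ξ ∈ Node j (p j) := fun j hj => by
    simpa only [Nat.add_sub_cancel' hj] using mem_iInter.1 hξ (j - n)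
  have h0 := h n le_rfl
  rw [p0, root] at h0
  refine ⟨ξ, h0, fun j hj => ?_, fun j => ?_⟩
  · obtain ⟨j, rfl⟩ := Nat.exists_eq_add_of_lt hj
    exact ((p1 _ (Nat.le_add_right n j)).2.2 ξ (h _ hj.le)).2
  rcases lt_or_ge n j with hj | hj
  · obtain ⟨j, rfl⟩ := Nat.exists_eq_add_of_lt hj
    exact ⟨_, h _ hj.le, (p1 _ (Nat.le_add_right n j)).2.1⟩
  · obtain ⟨i, hi⟩ := exists_node j (x := ξ) (by linarith [h0.1, P_le_one (a := -3 * n) (by omega)])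
    refine ⟨i, hi, fun q => ?_⟩
    have k1 : (1 : ℝ) ≤ (C j).card := by exact_mod_cast Finset.card_pos.2 ⟨_, q⟩
    have k2 := k1.trans (hc j)
    have k3 : L ^ j ≤ 8 ^ n :=
      (pow_le_pow_right₀ L1 hj).trans (pow_le_pow_left₀ (by linarith) L8 n)
    have k4 : (1 : ℝ) ≤ 2 ^ M := one_le_pow₀ (by norm_num)
    have k5 : (0 : ℝ) < 8 ^ n := by positivity
    rw [div_mul_eq_mul_div, le_div_iff₀ (by positivity), pow_succ] at k2
    have k6 : w * L ^ j ≤ 1 * 8 ^ n := mul_le_mul w1 k3 (by positivity) zero_le_one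
    nlinarith

theorem comb {r n j : ℕ} {lam : ℕ → ℝ} {A B D E : ℝ → Prop} {a b d : ℝ}
    (h1 : Light2 r n j lam A a) (h2 : Light2 r n j lam B b) (h3 : Light2 r n j lam D d)
    (h : ∀ x, E x → A x ∨ B x ∨ D x) : Light2 r n j lam E (a + (b + d)) :=
  lor2 r n j lam _ _ _ _ _ _ h1 (lor2 r n j lam _ _ _ _ _ _ h2 h3 (fun _ => id) le_rfl) h le_rfl

theorem ratio {r k t : ℕ} {η : ℝ} (hr : 8 * k + 100 ≤ r) (hk : P (-k) ≤ η / 10) (h1 : η ≤ 1)
    (ht : t ≤ 7 * r) : (8 : ℝ) ^ t ≤ (1 + η / 10) * (8 - P (-(r / 4 : ℕ))) ^ t := by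
  have k1 : (r : ℝ) ≤ P (r / 8 : ℕ) := by
    obtain ⟨s, hs⟩ : ∃ s, r / 8 = s + 6 := ⟨r / 8 - 6, by omega⟩
    have := Nat.lt_two_pow_self (n := s)
    have : r ≤ 2 ^ (r / 8) := by rw [hs, pow_add]; omega
    rw [P_nat]
    exact_mod_cast this
  have k2 := P_pos (-(r / 4 : ℕ))
  have k3 : r * P (-(r / 4 : ℕ)) ≤ η / 10 :=
    (mul_le_mul_of_nonneg_right k1 k2.le).trans (by rw [← P_add]; exact (P_le (by omega)).trans hk)
  have k4 := P_le_one (a := -(r / 4 : ℕ)) (by omega)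
  have k5 := one_add_mul_le_pow (a := -(P (-(r / 4 : ℕ)) / 8)) (by linarith) t
  have k6 : (t : ℝ) ≤ 7 * r := by exact_mod_cast ht
  have k7 : t * (P (-(r / 4 : ℕ)) / 8) ≤ 7 / 80 * η := by nlinarith
  have k8 := (P_pos _).trans_le hk
  rw [show 8 - P (-(r / 4 : ℕ)) = 8 * (1 + -(P (-(r / 4 : ℕ)) / 8)) by ring, mul_pow, mul_left_comm]
  refine le_mul_of_one_le_right (by positivity) ?_
  nlinarith

theorem core (h1 : KSStmt) (h2 : LFew3Stmt) (h3 : Main4Stmt) (h4 : TailCStmt) (h5 : TailSStmt)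
    (h6 : MainCStmt) (h7 : DedStmt) {η : ℝ} (η0 : 0 < η) (η1 : η ≤ 1) :
    ∃ c0 : ℝ, 0 < c0 ∧ ∀ c : ℝ, 0 < c → c ≤ c0 → ∃ δ : ℝ, 0 < δ ∧ ∀ C : ℕ → Finset ℕ,
      (∀ j, ((C j).card : ℝ) ≤ δ * (8 * (1 - (1 + η) * rate c)) ^ j) →
      ∃ ξ ∈ KS c, ∀ j, ∃ p, ξ ∈ Node j p ∧ p ∉ C j := by
  obtain ⟨k, hk⟩ : ∃ k : ℕ, P (-k) ≤ η / 10 := by
    obtain ⟨k, a, -⟩ := exists_shell (show 0 < η / 10 by positivity)
    exact ⟨(-k).toNat, (P_le (by omega)).trans a⟩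
  obtain ⟨n, C0, D0, ks⟩ := h1 (η / 10) (by positivity) (3 * (16 * (44 + 2 * (k + 14))))
  refine ⟨P (-(6 * (10000 * (k + C0 + D0 + n + 100) : ℕ) + 20)), P_pos _, fun c c0 c1 => ?_⟩
  obtain ⟨κ, κ0, κ1, κ2⟩ : ∃ κ : ℕ, 6 * (10000 * (k + C0 + D0 + n + 100)) + 20 ≤ κ ∧
      P (-κ) ≤ c ∧ c < P (1 - κ) := by
    obtain ⟨z, a, b⟩ := exists_shell c0
    have := le_of_P_le (a.trans c1)
    exact ⟨(-z).toNat, by omega, (P_le (by omega)).trans a, b.trans_le (P_le (by omega))⟩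
  obtain ⟨q, q1, q2⟩ : ∃ q : ℕ, 6 * q + 9 ≤ κ ∧ κ ≤ 6 * q + 14 := ⟨(κ - 9) / 6, by omega⟩
  obtain ⟨r, hr⟩ : ∃ r, r = q + (k + 40) := ⟨_, rfl⟩
  obtain ⟨r1, r2⟩ := rate_bd c0.le
  have r0 : 0 ≤ rate c := by linarith
  obtain ⟨y, hy⟩ : ∃ y, y = P (-(r / 4 : ℕ)) := ⟨_, rfl⟩
  have i1 := DLow1.inv_ge (r := r) (by omega)
  have y0 : 0 < y := hy ▸ P_pos _
  have y1 : y ≤ 1 := hy ▸ P_le_one (by omega)
  have y2 : P (-(r / 4 : ℕ) - 1) = y / 2 := by
    rw [hy, P_shift 1 (show (-(r / 4 : ℕ) : ℤ) = -(r / 4 : ℕ) - 1 + (1 : ℕ) by omega)]; ring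
  have y3 : P (-(r / 4 : ℕ) - 3) = y / 8 := by
    rw [hy, P_shift 3 (show (-(r / 4 : ℕ) : ℤ) = -(r / 4 : ℕ) - 3 + (3 : ℕ) by omega)]; ring
  have y4 : 128 * c ≤ y := by
    rw [hy, P_shift 7 (show (-(r / 4 : ℕ) : ℤ) = -(r / 4 : ℕ) - 7 + (7 : ℕ) by omega)]
    have := κ2.le.trans (P_le (show (1 - κ : ℤ) ≤ -(r / 4 : ℕ) - 7 by omega))
    linarith
  rw [← hy] at i1
  obtain ⟨L, hL⟩ : ∃ L, L = 8 * (1 - (1 + η) * rate c) := ⟨_, rfl⟩
  have L1 : 8 - y ≤ L := by nlinarith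
  have L8 : L ≤ 8 := by nlinarith
  obtain ⟨lam, hl⟩ : ∃ lam : ℕ → ℝ, ∀ j, lam j =
      if j < n + 2 * r then 7 else if j < 20 * r then 8 - y else L := ⟨_, fun _ => rfl⟩
  have l7 : ∀ j, 7 ≤ lam j := fun j => by
    rw [hl]
    split_ifs <;> linarith
  have l9 : ∀ j, n + 2 * r ≤ j → 8 - y ≤ lam j := fun j hj => by
    rw [hl, if_neg (by omega)]
    split_ifs <;> linarith
  have l8 : ∀ j, n + 2 * r ≤ j → 8 - 1 / (2 * (r : ℝ) + 2) ≤ lam j := fun j hj => by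
    linarith [l9 j hj]
  have sm : ∀ z : ℤ, z ≤ -k - κ → P z ≤ η / 20 * rate c := fun z hz => by
    have a := mul_le_mul hk κ1 (P_pos _).le (by positivity)
    rw [← P_add] at a
    nlinarith [(P_le (show z ≤ -k + -κ by omega)).trans a]
  have cM : ∀ j, Light2 r n j lam (fun x => κ / 3 + C0 ≤ j ∧
      EvM c (j - (κ / 3 + C0)) (3 * (16 * (44 + 2 * (k + 14)))) n x) (y / 8) := fun j => by
    refine light2_of_light ?_ l7
    by_cases p : κ / 3 + C0 ≤ j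
    · have a := h6 c κ q (k + 40) n n (3 * (16 * (44 + 2 * (k + 14)))) C0 (j - (κ / 3 + C0)) j κ2
        q1 q2 (by linarith [Nat.zero_le D0, Nat.zero_le n, Nat.zero_le k, Nat.zero_le C0])
        (by omega) (by omega)
      rw [← hr, y3] at a
      exact light_mono a (fun x h => h.2) le_rfl
    · exact light_empty (fun x h => p h.1) (by positivity)
  have cT : ∀ j, n ≤ j → Light2 r n (j + 1) lam (EvT q (16 * (44 + 2 * (k + 14))) (j + 1))
      (y / 8) := fun j hj => light2_of_light (by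
    rw [← y3, hr]
    exact h4 q (k + 40) n _ _ (by omega) (by omega) (by omega)) l7
  obtain ⟨δ, δ0, hδ⟩ := tree (r := r) (n := n) (M := 20 * r) (lam := lam) (L := L)
    (w := η * c) (E := fun j x => EvT q (16 * (44 + 2 * (k + 14))) j x ∨ κ / 3 + C0 ≤ j ∧
      EvM c (j - (κ / 3 + C0)) (3 * (16 * (44 + 2 * (k + 14)))) n x)
    (wt := fun j => if j < n + 2 * r then 5 / 16 + (y / 8 + y / 8) else if j < 20 * r then
      y / 2 + (y / 8 + y / 8) else (8 + 2 * η) * rate c)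
    (by omega) (by positivity) (by nlinarith) (by linarith) L8 l7
    (fun j => by rw [hl]; split_ifs <;> linarith)
    (fun j hj => by rw [hl, if_neg (by omega), if_neg (by omega)]) fun j hj => by
      rw [hl j]
      split_ifs with c1 c2
      · exact ⟨by nlinarith, comb (light2_of_light (mainB r n j (by omega) hj) l7) (cT j hj) (cM _)
          fun x h => h.2.imp_left fun p => ⟨start (by omega) x, h.1, p⟩⟩
      · exact ⟨by nlinarith, comb (light2_of_light (y2 ▸ main2 r n j (r / 4) (by omega) (by omega))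
          l7) (cT j hj) (cM _) fun x h => h.2.imp_left fun p => ⟨start (by omega) x, h.1, p⟩⟩
      refine ⟨by nlinarith, ?_⟩
      obtain ⟨m, hm⟩ : ∃ m, j + 1 = m + 4 * r + D0 + (κ / 3 + C0) :=
        ⟨j + 1 - (4 * r + D0 + (κ / 3 + C0)), by omega⟩
      have a1 := h3 r n j lam (by omega) (by omega) (by omega) l7 l8
      have a2 := h5 q (k + 40) n (16 * (44 + 2 * (k + 14))) (j + 1) (k + 14) lam (by omega)
        (by omega) (by omega) le_rfl (by omega) l7 (by rw [← hr]; exact l8)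
      have a3 := h2 r n m (j + 1) lam (8 - y) _ _ (by omega) (by omega)
        (ks c κ r m (j + 1 - (κ / 3 + C0)) (j + 1) κ1 (by linarith) (by omega) (by omega)
          (by omega)) (by have := P_pos (3 * (j + 1 : ℕ) - 3 * m); positivity) (by linarith)
        fun i hi => l9 i (by omega)
      rw [← hr] at a2
      refine light2_mono (comb a1 a2 a3 fun x h => h) (fun x h => h.2.imp
        (fun p => ⟨h.1, p⟩) (Or.imp_right fun p => p.2)) ?_
      have b1 := sm (32 - 3 * (2 * r + 2)) (by omega)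
      have b2 := sm (6 - 3 * (2 * q + 2) - (k + 14 : ℕ)) (by omega)
      have b3 := ratio (r := r) (t := j + 1 - m - 1) (by omega) hk η1 (by omega)
      have b4 : P (3 * (j + 1 : ℕ) - 3 * m) = 8 * 8 ^ (j + 1 - m - 1) := by
        rw [← pow_succ', show (8 : ℝ) = 2 ^ 3 by norm_num, ← pow_mul, ← P_nat]
        congr 1
        omega
      rw [← hy] at b3
      have b5 : (1 + η / 10) * rate c * P (3 * (j + 1 : ℕ) - 3 * m) / (8 - y) ^ (j + 1 - m - 1) ≤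
          (1 + η / 10) * rate c * (8 * (1 + η / 10)) := by
        rw [div_le_iff₀ (pow_pos (by linarith) _), b4, mul_assoc _ (8 * _), mul_assoc 8]
        gcongr
      have b6 : η * η * rate c ≤ η * rate c :=
        mul_le_mul_of_nonneg_right (by nlinarith) r0
      nlinarith
  refine ⟨δ, δ0, fun C hC => ?_⟩
  obtain ⟨ξ, x1, x2, x3⟩ := hδ C (hL ▸ hC)
  refine ⟨ξ, h7 c ξ κ q n n _ _ κ2 q1 le_rfl (by omega) x1.1 x1.2
    (fun j hj p => x2 j hj (.inl p)) fun i p => ?_, x3⟩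
  exact x2 (i + (κ / 3 + C0)) (by omega) (.inr ⟨by omega, by rwa [Nat.add_sub_cancel]⟩)

end SLow3

theorem low3 (h1 : KSStmt) (h2 : LFew3Stmt) (h3 : Main4Stmt) (h4 : TailCStmt) (h5 : TailSStmt)
    (h6 : MainCStmt) (h7 : DedStmt) : Low3Stmt := by
  intro η η0
  obtain ⟨c0, c1, h⟩ := SLow3.core h1 h2 h3 h4 h5 h6 h7 (lt_min η0 one_pos) (min_le_right η 1)
  refine ⟨min c0 (1 / (5 * (1 + η))), by positivity, fun c hc hc' => ?_⟩
  obtain ⟨δ, δ0, hδ⟩ := h c hc (hc'.trans (min_le_left _ _))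
  refine ⟨δ, δ0, fun θ C _ hθ hC => hδ C fun j => ?_⟩
  obtain ⟨r1, r2⟩ := rate_bd hc.le
  have a1 := (le_div_iff₀ (by positivity)).1 (hc'.trans (min_le_right _ _))
  have a2 : 0 ≤ 8 * (1 - (1 + η) * rate c) := by nlinarith
  have a3 : 8 * (1 - (1 + η) * rate c) ≤ 8 * (1 - (1 + min η 1) * rate c) := by
    nlinarith [min_le_left η 1]
  have θ0 : 0 ≤ θ := by nlinarith
  have k1 : ((C j).card : ℝ) * θ ^ j ≤ δ :=
    (Finset.single_le_sum (f := fun j => ((C j).card : ℝ) * θ ^ j) (fun _ _ => by positivity)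
      (Finset.self_mem_range_succ j)).trans (hC (j + 1))
  calc ((C j).card : ℝ) ≤ (C j).card * (θ * (8 * (1 - (1 + η) * rate c))) ^ j :=
        le_mul_of_one_le_right (Nat.cast_nonneg _) (one_le_pow₀ hθ)
    _ = (C j).card * θ ^ j * (8 * (1 - (1 + η) * rate c)) ^ j := by rw [mul_pow, mul_assoc]
    _ ≤ _ := mul_le_mul k1 (pow_le_pow_left₀ a2 a3 j) (by positivity) δ0.le

end ExOrd
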