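import Pool.Agent.Lib.MP_a94b90_nt.ES.Stmt

/-! ES: the Moebius sum over the divisors of a factorial. -/

namespace ExOrd
open ArithmeticFunction Filter

namespace SMob

theorem hs : HasSum (fun k : ℕ => (moebius k : ℝ) / (k : ℝ) ^ 3) (1 / Z3) := by
  have h3 : 1 < (3 : ℂ).re := by norm_num
  have h := LSeries_zeta_mul_Lseries_moebius h3
  have z : riemannZeta 3 = Z3 := by
    rw [zeta_eq_tsum_one_div_nat_add_one_cpow h3, Z3, Complex.ofReal_tsum]
    exact tsum_congr fun n => by simp
  rw [LSeries_zeta_eq_riemannZeta h3, z] at h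
  have s := (LSeriesSummable_moebius_iff.2 h3).hasSum
  rw [← LSeries, eq_one_div_of_mul_eq_one_right h] at s
  rw [← Complex.hasSum_ofReal]
  push_cast
  exact s.congr_fun fun n => by simp [LSeries.term_of_ne_zero' (s := 3) (by norm_num)]

end SMob

theorem mob : MobStmt := by
  intro η hη
  obtain ⟨S, hS⟩ := eventually_atTop.1 ((Metric.tendsto_nhds.1 SMob.hs) η hη)
  refine ⟨S.sup id, fun Y hY => ?_⟩
  have := hS (insert 0 (Nat.factorial Y).divisors) fun k hk => by
    rcases k.eq_zero_or_pos with rfl | h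
    · simp
    · exact Finset.mem_insert_of_mem (Nat.mem_divisors.2
        ⟨Nat.dvd_factorial h ((Finset.le_sup (f := id) hk).trans hY), Y.factorial_ne_zero⟩)
  rw [Finset.sum_insert_zero (by simp), Real.dist_eq] at this
  exact this.le

end ExOrd
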