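import Pool.Agent.Lib.MP_a94b90_nt.ES.Stmt
import Pool.Agent.Lib.MP_a94b90_nt.ED.CntG

/-! ES: counting the forms near a node, and the forms with a large common factor. -/

namespace ExOrd
open Set

namespace SNonPrim

theorem box {m A : ℕ} {i : ℤ} {x0 y : ℝ} {a b c : ℤ} (h0 : x0 ∈ Node m A) (hy : y ∈ Node m A)
    (hx : x0 ∈ Icc (0 : ℝ) 1) (ha : |(a : ℝ)| ≤ P i) (hb : |(b : ℝ)| ≤ P i)
    (hL : |Lv a b c y| ≤ P (i + 3 - 3 * m)) : Bx (i + 4 - 3 * m) (i + 2) i x0 a b c := by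
  have h1 : |x0| ≤ P 0 := by rw [P_zero, abs_of_nonneg hx.1]; exact hx.2
  have h2 : |Dv a b x0| ≤ P (i + 2) := by
    rw [Dv, mul_assoc]
    exact add_le_P (two_mul_le_P (mul_le_P ha h1 le_rfl) (c := i + 1) (by omega)) hb (by omega)
      (by omega)
  have h3 := node_dist hy h0
  have h4 : |Lv a b c y - Lv a b c x0| ≤ P (i + 3 - 3 * m) := by
    rw [Lv_sub]
    exact mul_le_P (add_le_P h2 (mul_le_P ha h3 le_rfl) (c := i + 3) (by omega) (by omega)) h3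
      (by omega)
  refine ⟨?_, h2, ha⟩
  rw [← sub_sub_cancel (Lv a b c y) (Lv a b c x0)]
  exact sub_le_P hL h4 (by omega) (by omega)

theorem cnt0 {κ m i t : ℕ} {x : ℝ} (hx : InK κ x) (hm : 1 ≤ m) (ht : t + m ≤ i + κ / 3 + 6)
    (T : Finset (ℤ × ℤ × ℤ))
    (h : ∀ Q ∈ T, Bx (i + 4 - 3 * m - t) (i + 2 - t) (i - t) x Q.1 Q.2.1 Q.2.2) :
    (T.card : ℝ) ≤ P (2 * (i - m) + 2 * (κ / 3 : ℕ) + 17 - 2 * t) + P (3 * (i - m) + 14 - 3 * t) := by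
  obtain ⟨G, hG⟩ := Nat.exists_eq_add_of_le ht
  refine (cntG (i + 4 - 3 * m - t - G) (i + 2 - t - G) (i - t - G) G x
    (fun a b c hb => zk hx hb (M := i + 2 - t - G) (by omega) le_rfl (by omega) (by omega)) T
    fun Q hQ => (h Q hQ).mono (by omega) (by omega) (by omega)).trans ?_
  exact add_le_add (P_le (by omega)) (P_le (by omega))

theorem cnt1 {κ m i t : ℕ} {x : ℝ} (hx : InK κ x) (hm : 1 ≤ m) (T : Finset (ℤ × ℤ × ℤ))
    (h : ∀ Q ∈ T, Q ≠ 0 ∧ Bx (i + 4 - 3 * m - t) (i + 2 - t) (i - t) x Q.1 Q.2.1 Q.2.2) :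
    (T.card : ℝ) ≤ P (2 * (i - m) + 2 * (κ / 3 : ℕ) + 17 - 2 * t) + P (3 * (i - m) + 14 - 3 * t) := by
  by_cases ht : t + m ≤ i + κ / 3 + 6
  · exact cnt0 hx hm ht T fun Q hQ => (h Q hQ).2
  · rw [Finset.eq_empty_of_forall_notMem (s := T) fun Q hQ => by
      obtain ⟨a, b, c⟩ := zk hx (h Q hQ).2 (M := i + 2 - t) (by omega) le_rfl (by omega) (by omega)
      exact (h Q hQ).1 (Prod.ext a (Prod.ext b c)), Finset.card_empty, Nat.cast_zero]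
    exact add_nonneg (P_pos _).le (P_pos _).le

theorem fib {κ m i p : ℕ} {x : ℝ} (hx : InK κ x) (hm : 1 ≤ m) (hp : p ≠ 0)
    (T : Finset (ℤ × ℤ × ℤ)) (h : ∀ Q ∈ T, Q ≠ 0 ∧ ((p : ℤ) ∣ Q.1 ∧ (p : ℤ) ∣ Q.2.1 ∧ (p : ℤ) ∣ Q.2.2) ∧
      Bx (i + 4 - 3 * m) (i + 2) i x Q.1 Q.2.1 Q.2.2) :
    (T.card : ℝ) ≤ (P (2 * (i - m) + 2 * (κ / 3 : ℕ) + 30) + P (3 * (i - m) + 30)) *
      ((p : ℝ) ^ 2)⁻¹ := by
  have e : ∀ Q ∈ T, Q = (p * (Q.1 / p), p * (Q.2.1 / p), p * (Q.2.2 / p)) := fun Q hQ => by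
    obtain ⟨-, ⟨a, b, c⟩, -⟩ := h Q hQ
    rw [Int.mul_ediv_cancel' a, Int.mul_ediv_cancel' b, Int.mul_ediv_cancel' c]
  have p0 : (0 : ℝ) < p := by positivity
  have t1 : P (Nat.log 2 p) ≤ |((p : ℤ) : ℝ)| := by
    rw [P_nat, Int.cast_natCast, Nat.abs_cast]
    exact_mod_cast Nat.pow_log_le_self 2 hp
  have t2 : (p : ℝ) ≤ P (Nat.log 2 p + 1 : ℕ) := by
    rw [P_nat]
    exact_mod_cast (Nat.lt_pow_succ_log_self one_lt_two p).le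
  generalize Nat.log 2 p = t at t1 t2
  have h1 := cnt1 (i := i) (t := t) hx hm
    (T.image fun Q => (Q.1 / p, Q.2.1 / p, Q.2.2 / p)) fun Q' hQ' => by
    obtain ⟨Q, hQ, rfl⟩ := Finset.mem_image.1 hQ'
    obtain ⟨a0, -, a1, a2, a3⟩ := h Q hQ
    have e1 := e Q hQ
    generalize Q.1 / p = a, Q.2.1 / p = b, Q.2.2 / p = c at e1 ⊢
    subst e1
    refine ⟨fun h0 => a0 ?_, div_le_P t1 (by rwa [← Lv_mul]) le_rfl,
      div_le_P t1 (a2.trans_eq' ?_) le_rfl, div_le_P t1 (by rwa [← Int.cast_mul]) le_rfl⟩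
    · simp only [Prod.mk_eq_zero] at h0 ⊢
      simp [h0]
    · simp only [Dv, Int.cast_mul]
      congr 1
      ring
  rw [Finset.card_image_of_injOn fun Q hQ Q' hQ' hh => by
    simp only [Prod.mk.injEq] at hh
    rw [e Q hQ, e Q' hQ', hh.1, hh.2.1, hh.2.2]] at h1
  have t3 : (p : ℝ) ^ 2 ≤ P (2 * (t + 1 : ℕ)) := by
    rw [← P_sq]
    exact pow_le_pow_left₀ p0.le t2 2
  rw [← div_eq_mul_inv, le_div_iff₀ (by positivity)]
  refine (mul_le_mul h1 t3 (by positivity) (add_nonneg (P_pos _).le (P_pos _).le)).trans ?_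
  rw [add_mul, ← P_add, ← P_add]
  exact add_le_add (P_le (by omega)) (P_le (by omega))

end SNonPrim

theorem wcnt : WcntStmt := by
  intro κ b i A x0 T hb hi h0 hx h
  refine (SNonPrim.cnt0 (i := i) (t := 0) hx hb (by omega) T fun Q hQ => ?_).trans
    (P_add_le (by omega) (by omega))
  obtain ⟨a1, a2, y, a3, a4⟩ := h Q hQ
  exact (SNonPrim.box h0 a3 hx.1 a1 a2 (le_P a4 (by omega))).mono (by omega) (by omega) (by omega)

theorem nonPrim : NonPrimStmt := by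
  intro κ m i A Y x0 y T hY hm _ h0 hy hx h
  have h1 : ∀ Q ∈ T, ∃ p : ℕ, Y < p ∧ (p : ℤ) ∣ Q.1 ∧ (p : ℤ) ∣ Q.2.1 ∧ (p : ℤ) ∣ Q.2.2 := by
    intro Q hQ
    obtain ⟨-, a1, a2, -⟩ := h Q hQ
    unfold Prim at a2
    push Not at a2
    obtain ⟨t, b1, b2, b3, b4⟩ := a2
    obtain ⟨p, c1, c2⟩ := Nat.exists_prime_and_dvd fun e => b4 (Int.isUnit_iff_natAbs_eq.2 e)
    have c3 := Int.natCast_dvd.2 c2
    have c4 := And.intro (c3.trans b1) (And.intro (c3.trans b2) (c3.trans b3))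
    exact ⟨p, not_le.1 fun e => a1 p c1 e c4, c4⟩
  choose! q q1 q2 using h1
  have h2 : T ⊆ (Finset.Ioc Y (Y + T.sup q)).biUnion fun p : ℕ => T.filter fun Q =>
      (p : ℤ) ∣ Q.1 ∧ (p : ℤ) ∣ Q.2.1 ∧ (p : ℤ) ∣ Q.2.2 := fun Q hQ =>
    Finset.mem_biUnion.2 ⟨q Q, Finset.mem_Ioc.2 ⟨q1 Q hQ, le_add_left (Finset.le_sup hQ)⟩,
      Finset.mem_filter.2 ⟨hQ, q2 Q hQ⟩⟩
  have h3 := (Finset.card_le_card h2).trans Finset.card_biUnion_le
  refine (Nat.cast_le.2 h3).trans ?_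
  rw [Nat.cast_sum]
  refine (Finset.sum_le_sum fun p hp => SNonPrim.fib (i := i) (p := p) hx hm
    (by have := (Finset.mem_Ioc.1 hp).1; omega) _ fun Q hQ => ?_).trans ?_
  · obtain ⟨b1, b2⟩ := Finset.mem_filter.1 hQ
    obtain ⟨a0, -, -, a1, a2, a3⟩ := h Q b1
    exact ⟨a0, b2, SNonPrim.box h0 hy hx.1 a1 a2 a3⟩
  · rw [← Finset.mul_sum, div_eq_mul_inv]
    have h4 := sum_Ioc_inv_sq_le_sub (α := ℝ) (k := Y) (by omega) (Nat.le_add_right Y (T.sup q))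
    exact mul_le_mul_of_nonneg_left (h4.trans (sub_le_self _ (by positivity)))
      (add_nonneg (P_pos _).le (P_pos _).le)

end ExOrd
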