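import Pool.Agent.Lib.MP_a94b90_nt.ES.Stmt
import Pool.Agent.Lib.MP_a94b90_nt.ED.HD

/-! ES row 14: the sharp lower bound for the dimension from the tree statement. -/

namespace ExOrd

theorem sharpLow (h : Low3Stmt) : SharpLowStmt := by
  intro η hη
  obtain ⟨c0, hc0, H⟩ := h (η / 2) (by positivity)
  refine ⟨min c0 (η / (10 * (1 + η) ^ 2)), by positivity, fun c hc hcc => ?_⟩
  obtain ⟨δ, hδ, H⟩ := H c hc (hcc.trans (min_le_left _ _))
  have h1 : c * (10 * (1 + η) ^ 2) ≤ η :=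
    (le_div_iff₀ (by positivity)).1 (hcc.trans (min_le_right _ _))
  obtain ⟨z1, z2⟩ := Z3_bd
  obtain ⟨r1, r2⟩ := rate_bd hc.le
  have h2 : 2 * c / Z3 ≤ 2 * c := div_le_self (by positivity) z1
  have h3 : (1 + η) * (2 * c / Z3) ≤ (1 + η) * (2 * c) :=
    mul_le_mul_of_nonneg_left h2 (by positivity)
  have h4 : (1 + η) * (2 * c) < 1 := by nlinarith [mul_pos hc hη, mul_pos (mul_pos hc hη) hη]
  have hs : 0 < 1 - (1 + η) * (2 * c / Z3) := by linarith
  refine hd (KS c) _ δ hs hδ fun C hC => H _ C ?_ ?_ hC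
  · exact Real.rpow_le_one_of_one_le_of_nonpos (by norm_num) (by linarith)
  · have e1 : (8 : ℝ) ^ (-(1 - (1 + η) * (2 * c / Z3))) * 8 = Real.exp ((1 + η) * rate c) := by
      rw [← Real.rpow_add_one (by norm_num), Real.rpow_def_of_pos (by norm_num),
        show (8 : ℝ) = 2 ^ 3 by norm_num, Real.log_pow]
      congr 1
      unfold rate
      push_cast
      ring
    rw [← mul_assoc, e1]
    generalize rate c = ρ at r1 r2
    have hρ : 0 < ρ := by linarith
    have k1 : ρ * (2 * (1 + η) ^ 2) ≤ η := by nlinarith [sq_nonneg (1 + η)]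
    have k2 : (1 + η / 2) * ρ ≤ 1 := by nlinarith [mul_pos hρ hη, mul_pos (mul_pos hρ hη) hη]
    have k3 := Real.add_one_le_exp ((1 + η) * ρ)
    have k4 := mul_le_mul_of_nonneg_right k3 (sub_nonneg.2 k2)
    refine le_trans ?_ k4
    have k5 := mul_le_mul_of_nonneg_left k1 hρ.le
    nlinarith [mul_pos (mul_pos hρ hρ) hη, mul_pos (mul_pos (mul_pos hρ hρ) hη) hη]

end ExOrd
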