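import Pool.Agent.Lib.MP_a94b90_nt.ES.Stmt

/-! ES: the sieve for forms without small prime factors in a box. -/

namespace ExOrd
open Set ArithmeticFunction

namespace SSieve

/-- `k` divides the form. -/
def Dk (k : ℕ) (Q : ℤ × ℤ × ℤ) : Prop := (k : ℤ) ∣ Q.1 ∧ (k : ℤ) ∣ Q.2.1 ∧ (k : ℤ) ∣ Q.2.2

open Classical in
theorem ind (Y : ℕ) (Q : ℤ × ℤ × ℤ) :
    ∑ k ∈ (Nat.factorial Y).divisors, (if Dk k Q then (moebius k : ℝ) else 0) =
      if Rough Y Q.1 Q.2.1 Q.2.2 then 1 else 0 := by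
  set g := Nat.gcd (Nat.gcd Q.1.natAbs (Nat.gcd Q.2.1.natAbs Q.2.2.natAbs)) Y.factorial with hg
  have h0 : ∀ k : ℕ, k ∣ g ↔ Dk k Q ∧ k ∣ Y.factorial := fun k => by
    simp only [hg, Dk, Nat.dvd_gcd_iff, Int.natCast_dvd]
  have g0 : g ≠ 0 := Nat.gcd_ne_zero_right Y.factorial_ne_zero
  have h1 : (Nat.factorial Y).divisors.filter (fun k => Dk k Q) = g.divisors := by
    ext k
    simp only [Finset.mem_filter, Nat.mem_divisors, h0]
    exact ⟨fun h => ⟨⟨h.2, h.1.1⟩, g0⟩, fun h => ⟨⟨h.1.2, Y.factorial_ne_zero⟩, h.1.1⟩⟩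
  have h2 : ∑ k ∈ g.divisors, (moebius k : ℝ) = if g = 1 then 1 else 0 := by
    have := congrArg (fun f : ArithmeticFunction ℤ => (f g : ℝ)) moebius_mul_coe_zeta
    simpa only [coe_mul_zeta_apply, one_apply, Int.cast_sum, Int.cast_ite, Int.cast_one,
      Int.cast_zero] using this
  rw [← Finset.sum_filter, h1, h2]
  refine if_congr ⟨fun e p hp hY h => ?_, fun h => ?_⟩ rfl rfl
  · have := (h0 p).2 ⟨h, (hp.dvd_factorial).2 hY⟩
    rw [e] at this
    exact hp.one_lt.ne' (Nat.dvd_one.1 this)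
  · by_contra e
    obtain ⟨p, hp, h3⟩ := Nat.exists_prime_and_dvd e
    obtain ⟨h4, h5⟩ := (h0 p).1 h3
    exact h p hp (hp.dvd_factorial.1 h5) h4

theorem scale (x a0 b0 l0 s lam : ℝ) {k : ℕ} (hk : 0 < k) :
    {Q | InB x a0 b0 l0 s lam Q ∧ Dk k Q}.ncard =
      {Q | InB x (a0 / k) (b0 / k) (l0 / k) (s / k) (lam / k) Q}.ncard := by
  have k0 : (0 : ℝ) < k := by exact_mod_cast hk
  have k1 : (k : ℤ) ≠ 0 := by exact_mod_cast hk.ne'
  have key : ∀ a b c : ℤ, InB x a0 b0 l0 s lam (k * a, k * b, k * c) ↔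
      InB x (a0 / k) (b0 / k) (l0 / k) (s / k) (lam / k) (a, b, c) := fun a b c => by
    simp only [InB, Lv_mul, ← add_div, div_le_iff₀' k0, lt_div_iff₀' k0, Int.cast_mul,
      Int.cast_natCast]
  rw [← ncard_image_of_injective {Q | InB x (a0 / k) (b0 / k) (l0 / k) (s / k) (lam / k) Q}
    (f := fun Q : ℤ × ℤ × ℤ => ((k : ℤ) * Q.1, (k : ℤ) * Q.2.1, (k : ℤ) * Q.2.2))
    fun Q Q' e => by
      simp only [Prod.mk.injEq, mul_right_inj' k1] at e
      exact Prod.ext e.1 (Prod.ext e.2.1 e.2.2)]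
  congr 1
  ext ⟨a, b, c⟩
  constructor
  · rintro ⟨h, ⟨a', rfl⟩, ⟨b', rfl⟩, c', rfl⟩
    exact ⟨(a', b', c'), (key _ _ _).1 h, rfl⟩
  · rintro ⟨⟨a', b', c'⟩, h, e⟩
    rw [← e]
    exact ⟨(key _ _ _).2 h, Dvd.intro _ rfl, Dvd.intro _ rfl, Dvd.intro _ rfl⟩

theorem incl (hf : FinStmt) (Y : ℕ) (x a0 b0 l0 s lam : ℝ) :
    ({Q | InB x a0 b0 l0 s lam Q ∧ Rough Y Q.1 Q.2.1 Q.2.2}.ncard : ℝ) =
      ∑ k ∈ (Nat.factorial Y).divisors,
        (moebius k : ℝ) * {Q | InB x a0 b0 l0 s lam Q ∧ Dk k Q}.ncard := by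
  classical
  have h : ∀ p : ℤ × ℤ × ℤ → Prop, ({Q | InB x a0 b0 l0 s lam Q ∧ p Q}.ncard : ℝ) =
      ∑ Q ∈ (hf x a0 b0 l0 s lam).toFinset, if p Q then 1 else 0 := fun p => by
    rw [Finset.sum_boole, ← ncard_coe_finset]
    congr 2
    ext Q
    simp
  rw [h]
  simp only [h, Finset.mul_sum, mul_ite, mul_one, mul_zero]
  rw [Finset.sum_comm]
  refine Finset.sum_congr rfl fun Q _ => ?_
  convert (ind Y Q).symm

end SSieve

theorem sieve (hf : FinStmt) (hb : BoxCStmt) (hm : MobStmt) : SieveStmt := by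
  intro η hη Y0
  obtain ⟨Y1, h1⟩ := hm (η / 2) (by positivity)
  set Y := max Y0 Y1
  have hM := h1 Y (le_max_right _ _)
  have F1 : (1 : ℝ) ≤ Y.factorial := by exact_mod_cast Y.factorial_pos
  set e := min η 1 / (20 * Y.factorial) with he
  have m0 : 0 < min η 1 := lt_min hη one_pos
  have e0 : 0 < e := by positivity
  have e1 : e ≤ 1 / 20 := by
    rw [he, div_le_div_iff₀ (by positivity) (by norm_num)]
    linarith [min_le_right η 1]
  have e2 : Y.factorial * (10 * e) ≤ η / 2 := by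
    rw [he]
    field_simp
    linarith [min_le_left η 1]
  obtain ⟨ω, hω⟩ := exists_pow_lt_of_lt_one (show 0 < e / Y.factorial by positivity)
    (show (1 / 2 : ℝ) < 1 by norm_num)
  have w : P (-ω) ≤ e / Y.factorial := by
    unfold P
    rw [zpow_neg, zpow_natCast, ← inv_pow, ← one_div]
    exact hω.le
  refine ⟨Y, ω, le_max_left _ _, fun x ρ1 ρ2 a0 b0 l0 s lam hc hl r1 r2 r3 => ?_⟩
  have w0 := P_pos (-ω)
  have s0 : 0 < s := by
    obtain ⟨a, -, -, -, h, -⟩ := hc 0 0 0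
    have := (abs_nonneg _).trans h
    exact (mul_pos_iff_of_pos_left w0).1 (by linarith)
  have V0 : 0 < s ^ 2 * lam := by positivity
  have hk : ∀ k ∈ (Nat.factorial Y).divisors,
      |(moebius k : ℝ) * {Q | InB x a0 b0 l0 s lam Q ∧ SSieve.Dk k Q}.ncard -
        s ^ 2 * lam * ((moebius k : ℝ) / (k : ℝ) ^ 3)| ≤ 10 * e * (s ^ 2 * lam) := by
    intro k hk
    have k0 := Nat.pos_of_mem_divisors hk
    have k1 : (1 : ℝ) ≤ k := by exact_mod_cast k0
    have k2 : (k : ℝ) ≤ Y.factorial := by exact_mod_cast Nat.divisor_le hk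
    have k3 : P (-ω) ≤ e / k := w.trans (by gcongr)
    have h := hb x ρ1 ρ2 (a0 / k) (b0 / k) (l0 / k) (s / k) (lam / k) e hc (by positivity) e1
      (r1.trans (by rw [← mul_div_assoc, mul_div_right_comm]; gcongr))
      (r2.trans (by rw [← mul_div_assoc, mul_div_right_comm]; gcongr))
      ((div_le_self hl.le k1).trans (r3.trans (k3.trans (div_le_self e0.le k1))))
    rw [← SSieve.scale x a0 b0 l0 s lam k0,
      show (s / k) ^ 2 * (lam / k) = s ^ 2 * lam / (k : ℝ) ^ 3 by field_simp] at h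
    have a1 : |(moebius k : ℝ)| ≤ 1 := by exact_mod_cast abs_moebius_le_one
    rw [show ∀ N : ℝ, (moebius k : ℝ) * N - s ^ 2 * lam * ((moebius k : ℝ) / (k : ℝ) ^ 3) =
      moebius k * (N - s ^ 2 * lam / (k : ℝ) ^ 3) from fun N => by ring, abs_mul]
    refine (mul_le_of_le_one_left (abs_nonneg _) a1).trans (h.trans ?_)
    gcongr
    exact div_le_self V0.le (one_le_pow₀ k1)
  have h2 := (Finset.abs_sum_le_sum_abs _ _).trans (Finset.sum_le_card_nsmul _ _ _ hk)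
  rw [Finset.sum_sub_distrib, ← SSieve.incl hf, ← Finset.mul_sum, nsmul_eq_mul] at h2
  have h3 : ((Nat.factorial Y).divisors.card : ℝ) ≤ Y.factorial := by
    exact_mod_cast Nat.card_divisors_le_self _
  generalize ∑ k ∈ (Nat.factorial Y).divisors, (moebius k : ℝ) / (k : ℝ) ^ 3 = S at hM h2
  have h4 : ((Nat.factorial Y).divisors.card : ℝ) * (10 * e * (s ^ 2 * lam)) ≤
      η / 2 * (s ^ 2 * lam) := by
    rw [← mul_assoc]
    gcongr
    exact le_trans (by gcongr) e2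
  have h5 : |s ^ 2 * lam * S - s ^ 2 * lam / Z3| ≤ η / 2 * (s ^ 2 * lam) := by
    rw [div_eq_mul_one_div _ Z3, ← mul_sub, abs_mul, abs_of_pos V0, mul_comm]
    gcongr
  exact (abs_sub_le _ (s ^ 2 * lam * S) _).trans ((add_le_add (h2.trans h4) h5).trans_eq (by ring))

end ExOrd
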