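import Pool.Agent.Lib.MP_a94b90_nt.ES.Stmt
import Pool.Agent.Lib.MP_a94b90_nt.EX.Light
import Pool.Agent.Lib.MP_a94b90_nt.EX.Rat
import Pool.Agent.Lib.MP_a94b90_nt.ED.CntG
import Pool.Agent.Lib.MP_a94b90_nt.ED.KillG
import Pool.Agent.Lib.MP_a94b90_nt.ED.Light2
import Pool.Agent.Lib.MP_a94b90_nt.ED.Main3

/-! ES: the tail events are light. -/

namespace ExOrd

theorem tailC : TailCStmt := by
  intro q K n l1 j hq hn hj
  have hk := kill3 (killG cntG)
  have h1 := lsum (q + K) n j (j + 1) (fun l => l1 ≤ l ∧ 2 * l + (2 * q + 2) ≤ j)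
    (fun l => EvK (-(2 * q + 2) - 2 * j - 2 * l) (j - (2 * q + 2) - 2 * l) (j - (2 * q + 2) + l)
      (j - (2 * q + 2) - 2 * l - 3)) (((q + K) / 4 : ℕ) + 9) (by
      rintro l - ⟨-, c⟩
      refine lfew (q + K) n (j - (q + K + l / 8)) j _ _ _ (by omega) (by omega)
        (hk (q + K) (j - (q + K + l / 8)) j l (q + K + l / 8 + 2 * K) 5 _ _ _ _
          ?_ ?_ ?_ ?_ ?_ ?_ ?_) ?_ <;> omega)
  have h2 : Light (q + K) n j (EvQ (2 * j - 2 * q) (1 - 3 * j)) (P (-(((q + K) / 4 : ℕ) + 4))) := by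
    by_cases c : q ≤ j
    · exact lfew (q + K) n (j - (q + K) / 2) j _ _ _ (by omega) (by omega)
        (rat (q + K) (j - (q + K) / 2) j 2 (2 * j - 2 * q) (1 - 3 * j)
          (by omega) (by omega) (by omega)) (by omega)
    · refine light_empty ?_ (P_pos _).le
      rintro x ⟨ρ, a1, -⟩
      have a2 : (1 : ℝ) ≤ ρ.den := by exact_mod_cast ρ.den_pos
      exact absurd (a1.trans_lt (P_lt_one (by omega))) (not_lt.2 (one_le_pow₀ a2))
  refine lor (q + K) n j _ _ _ _ _ _ h1 h2 ?_ (P_add_le (by omega) (by omega))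
  rintro x (⟨l, a1, a2, a3⟩ | h)
  · exact Or.inl ⟨l, by omega, ⟨a1, a2⟩, a3⟩
  · exact Or.inr h

open DMain3 in
theorem tailS : TailSStmt := by
  intro q K n l1 j ω lam hq hn hω hl hj h7 hm
  have hk := kill3 (killG cntG)
  have h1 := lsum2 (q + K) n j (j + 1) lam (fun l => l1 ≤ l ∧ 2 * l + (2 * q + 2) ≤ j)
    (fun l => EvK (-(2 * q + 2) - 2 * j - 2 * l) (j - (2 * q + 2) - 2 * l) (j - (2 * q + 2) + l)
      (j - (2 * q + 2) - 2 * l - 3)) (3 * (2 * q + 2) + ω) (by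
      rintro l - ⟨c0, c⟩
      refine lfew2 (q + K) n (j - (6 * q + 4 * K + 4 + l / 8)) j (6 * q + 4 * K + 3) lam _ _ _ _
        (by omega) (by omega)
        (hk (q + K) (j - (6 * q + 4 * K + 4 + l / 8)) j l (6 * q + 6 * K + 4 + l / 8) 5 _ _ _ _
          ?_ ?_ ?_ ?_ ?_ ?_ ?_) h7 (fun i hi => hm i (by omega)) (mu_nonneg (q + K))
        (pow_le (q + K) _ (by omega)) ?_ <;> omega)
  have h2 : Light (q + K) n j (EvQ (2 * j - 2 * q) (1 - 3 * j))
      (P (-(3 * (2 * q + 2) + ω - 5))) :=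
    lfew (q + K) n (j - (4 * (q + K) + 4)) j _ _ _ (by omega) (by omega)
      (rat (q + K) (j - (4 * (q + K) + 4)) j 2 (2 * j - 2 * q) (1 - 3 * j)
        (by omega) (by omega) (by omega)) (by omega)
  refine lor2 (q + K) n j lam _ _ _ _ _ _ h1 (light2_of_light h2 h7) ?_
    (P_add_le (by omega) (by omega))
  rintro x (⟨l, a1, a2, a3⟩ | h)
  · exact Or.inl ⟨l, by omega, ⟨a1, a2⟩, a3⟩
  · exact Or.inr h

end ExOrd
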