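import Pool.Agent.Lib.MP_a94b90_nt.ES.Stmt

/-! ES: counting in the 8-ary tree. -/

namespace ExOrd

namespace STree

theorem dd (p u v : ℕ) : p / 8 ^ u / 8 ^ v = p / 8 ^ (u + v) := by
  rw [Nat.div_div_eq_div_mul, ← pow_add]

theorem up {Al : ℕ → ℕ → Prop} (h : ∀ j p, Al (j + 1) p → Al j (p / 8)) (d : ℕ) :
    ∀ j p, Al (j + d) p → Al j (p / 8 ^ d) := by
  induction d with
  | zero => intro j p hp; simpa using hp
  | succ d ih =>
    intro j p hp
    have h1 := ih j (p / 8) (h (j + d) p hp)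
    rwa [Nat.div_div_eq_div_mul, ← pow_succ'] at h1

theorem mem_alv {Al : ℕ → ℕ → Prop} {m A b p : ℕ} :
    p ∈ alv Al m A b ↔ p / 8 ^ (b - m) = A ∧ Al b p := by
  classical
  unfold alv
  rw [Finset.mem_filter, mem_desc]

theorem mem_pd {Al : ℕ → ℕ → Prop} {m A b p : ℕ} :
    p ∈ pd Al m A b ↔ p / 8 ^ (b - m) = A ∧ Al b p ∧ ∃ p', p' / 8 = p ∧ ¬ Al (b + 1) p' := by
  classical
  unfold pd
  rw [Finset.mem_filter, mem_desc]

theorem card_bi (S : Finset ℕ) (d : ℕ) : (S.biUnion (desc d)).card ≤ S.card * 8 ^ d :=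
  Finset.card_biUnion_le_card_mul S (desc d) (8 ^ d) fun A _ => (card_desc d A).le

theorem part1 {Al : ℕ → ℕ → Prop} (h : ∀ j p, Al (j + 1) p → Al j (p / 8)) (m A T b : ℕ)
    (h1 : m ≤ b) (h2 : b ≤ m + T) :
    (alv Al m A (m + T)).card ≤ (alv Al m A b).card * 8 ^ (m + T - b) := by
  refine le_trans (Finset.card_le_card ?_) (card_bi _ _)
  intro p hp
  obtain ⟨k1, k2⟩ := mem_alv.1 hp
  refine Finset.mem_biUnion.2 ⟨p / 8 ^ (m + T - b), mem_alv.2 ⟨?_, ?_⟩, mem_desc.2 rfl⟩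
  · rw [dd, show m + T - b + (b - m) = m + T - m by omega, k1]
  · exact up h _ _ _ (by rwa [show b + (m + T - b) = m + T by omega])

theorem step {Al : ℕ → ℕ → Prop} (h : ∀ j p, Al (j + 1) p → Al j (p / 8)) (m A b : ℕ)
    (h1 : m ≤ b) : (alv Al m A (b + 1)).card + (pd Al m A b).card ≤ (alv Al m A b).card * 8 := by
  classical
  have k0 := card_bi (alv Al m A b) 1
  rw [pow_one] at k0
  have k1 : alv Al m A (b + 1) ⊆ ((alv Al m A b).biUnion (desc 1)).filter (Al (b + 1)) := by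
    intro p hp
    obtain ⟨e1, e2⟩ := mem_alv.1 hp
    refine Finset.mem_filter.2 ⟨Finset.mem_biUnion.2 ⟨p / 8, mem_alv.2 ⟨?_, h b p e2⟩,
      mem_desc.2 (by rw [pow_one])⟩, e2⟩
    rw [Nat.div_div_eq_div_mul, ← pow_succ', show b - m + 1 = b + 1 - m by omega, e1]
  have k2 : pd Al m A b ⊆ (((alv Al m A b).biUnion (desc 1)).filter
      fun p => ¬ Al (b + 1) p).image (· / 8) := by
    intro p hp
    obtain ⟨e1, e2, p', e3, e4⟩ := mem_pd.1 hp
    exact Finset.mem_image.2 ⟨p', Finset.mem_filter.2 ⟨Finset.mem_biUnion.2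
      ⟨p, mem_alv.2 ⟨e1, e2⟩, mem_desc.2 (by rw [pow_one, e3])⟩, e4⟩, e3⟩
  have k3 := Finset.card_le_card k1
  have k4 := (Finset.card_le_card k2).trans Finset.card_image_le
  have k5 := Finset.card_filter_add_card_filter_not (s := (alv Al m A b).biUnion (desc 1))
    (Al (b + 1))
  omega

theorem part2 {Al : ℕ → ℕ → Prop} (h : ∀ j p, Al (j + 1) p → Al j (p / 8)) (m A T : ℕ) :
    ∑ b ∈ Finset.Ico m (m + T), (pd Al m A b).card * 8 ^ (m + T - b) +
      8 * (alv Al m A (m + T)).card ≤ 8 * 8 ^ T := by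
  induction T with
  | zero =>
    have : (alv Al m A m).card ≤ 1 := by
      classical
      refine (Finset.card_filter_le _ _).trans ?_
      rw [card_desc]; simp
    simp only [add_zero, Finset.Ico_self, Finset.sum_empty, pow_zero]
    omega
  | succ T ih =>
    have k1 := step h m A (m + T) (by omega)
    have k2 : ∑ b ∈ Finset.Ico m (m + T), (pd Al m A b).card * 8 ^ (m + (T + 1) - b) =
        8 * ∑ b ∈ Finset.Ico m (m + T), (pd Al m A b).card * 8 ^ (m + T - b) := by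
      rw [Finset.mul_sum]
      refine Finset.sum_congr rfl fun b hb => ?_
      have := (Finset.mem_Ico.1 hb).2
      rw [show m + (T + 1) - b = m + T - b + 1 by omega, pow_succ]; ring
    rw [← add_assoc m T 1, Finset.sum_Ico_succ_top (by omega), add_assoc m T 1, k2,
      show m + (T + 1) - (m + T) = 1 by omega, pow_succ 8 T, ← add_assoc m T 1]
    omega

theorem part3 {Al : ℕ → ℕ → Prop} (h : ∀ j p, Al (j + 1) p → Al j (p / 8)) (m A T : ℕ)
    (X : Finset (ℕ × ℕ))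
    (h1 : ∀ V ∈ X, m ≤ V.1 ∧ V.1 ≤ m + T ∧ V.2 / 8 ^ (V.1 - m) = A ∧ ¬ Al V.1 V.2)
    (h2 : ∀ V ∈ X, ∀ V' ∈ X, V.1 ≤ V'.1 → V'.2 / 8 ^ (V'.1 - V.1) = V.2 → V = V') :
    ∑ V ∈ X, 8 ^ (m + T - V.1) + (alv Al m A (m + T)).card ≤ 8 ^ T := by
  classical
  have key : ∀ V ∈ X, ∀ V' ∈ X, V.1 ≤ V'.1 → ∀ p, p ∈ desc (m + T - V.1) V.2 →
      p ∈ desc (m + T - V'.1) V'.2 → V = V' := by
    intro V hV V' hV' hle p e1 e2
    refine h2 V hV V' hV' hle ?_
    have := (h1 V' hV').2.1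
    rw [← mem_desc.1 e2, dd, show m + T - V'.1 + (V'.1 - V.1) = m + T - V.1 by omega,
      mem_desc.1 e1]
  have k1 : (X.biUnion fun V => desc (m + T - V.1) V.2).card = ∑ V ∈ X, 8 ^ (m + T - V.1) := by
    rw [Finset.card_biUnion]
    · exact Finset.sum_congr rfl fun V _ => card_desc _ _
    · intro V hV V' hV' hne
      refine Finset.disjoint_left.2 fun p e1 e2 => hne ?_
      rcases le_total V.1 V'.1 with hle | hle
      · exact key V hV V' hV' hle p e1 e2
      · exact (key V' hV' V hV hle p e2 e1).symm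
  have k2 : (X.biUnion fun V => desc (m + T - V.1) V.2) ⊆
      (desc T A).filter fun p => ¬ Al (m + T) p := by
    intro p hp
    obtain ⟨V, hV, e⟩ := Finset.mem_biUnion.1 hp
    obtain ⟨a1, a2, a3, a4⟩ := h1 V hV
    have e' := mem_desc.1 e
    refine Finset.mem_filter.2 ⟨mem_desc.2 ?_, fun hA => a4 ?_⟩
    · rw [← a3, ← e', dd, show m + T - V.1 + (V.1 - m) = T by omega]
    · rw [← e']
      exact up h _ _ _ (by rwa [show V.1 + (m + T - V.1) = m + T by omega])
  have k3 : alv Al m A (m + T) ⊆ (desc T A).filter (Al (m + T)) := by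
    intro p hp
    obtain ⟨e1, e2⟩ := mem_alv.1 hp
    exact Finset.mem_filter.2 ⟨mem_desc.2 (by rwa [Nat.add_sub_cancel_left] at e1), e2⟩
  have k4 := Finset.card_le_card k2
  have k5 := Finset.card_le_card k3
  have k6 := Finset.card_filter_add_card_filter_not (s := desc T A) (Al (m + T))
  rw [card_desc] at k6
  omega

theorem part4 (Al : ℕ → ℕ → Prop) (m A b b' : ℕ) (h1 : m ≤ b) (h2 : b ≤ b') :
    ∑ B ∈ alv Al m A b, (pd Al b B b').card ≤ (pd Al m A b').card := by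
  rw [← Finset.card_biUnion]
  · refine Finset.card_le_card fun p hp => ?_
    obtain ⟨B, hB, e⟩ := Finset.mem_biUnion.1 hp
    obtain ⟨e1, e2⟩ := mem_pd.1 e
    refine mem_pd.2 ⟨?_, e2⟩
    rw [← (mem_alv.1 hB).1, ← e1, dd, show b' - b + (b - m) = b' - m by omega]
  · intro B _ B' _ hne
    exact Finset.disjoint_left.2 fun p e1 e2 => hne ((mem_pd.1 e1).1.symm.trans (mem_pd.1 e2).1)

end STree

theorem tree : TreeStmt := fun Al m A T h =>
  ⟨STree.part1 h m A T, STree.part2 h m A T, STree.part3 h m A T, STree.part4 Al m A⟩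

end ExOrd
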