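import Pool.Agent.Lib.MP_a94b90_nt.EX.All
import Pool.Agent.Lib.MP_a94b90_nt.ES.Cov
import Pool.Agent.Lib.MP_a94b90_nt.ES.BoxC
import Pool.Agent.Lib.MP_a94b90_nt.ES.Mob
import Pool.Agent.Lib.MP_a94b90_nt.ES.Sieve
import Pool.Agent.Lib.MP_a94b90_nt.ES.HexCnt2
import Pool.Agent.Lib.MP_a94b90_nt.ES.HexUp
import Pool.Agent.Lib.MP_a94b90_nt.ES.HexLo
import Pool.Agent.Lib.MP_a94b90_nt.ES.KSq
import Pool.Agent.Lib.MP_a94b90_nt.ES.KS
import Pool.Agent.Lib.MP_a94b90_nt.ES.LowS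
import Pool.Agent.Lib.MP_a94b90_nt.ES.Tail
import Pool.Agent.Lib.MP_a94b90_nt.ES.Ded
import Pool.Agent.Lib.MP_a94b90_nt.ES.Low3
import Pool.Agent.Lib.MP_a94b90_nt.ES.SharpLow
import Pool.Agent.Lib.MP_a94b90_nt.ES.Form
import Pool.Agent.Lib.MP_a94b90_nt.ES.FSq
import Pool.Agent.Lib.MP_a94b90_nt.ES.NonPrim
import Pool.Agent.Lib.MP_a94b90_nt.ES.Fam
import Pool.Agent.Lib.MP_a94b90_nt.ES.DualCnt
import Pool.Agent.Lib.MP_a94b90_nt.ES.Cross
import Pool.Agent.Lib.MP_a94b90_nt.ES.Strat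
import Pool.Agent.Lib.MP_a94b90_nt.ES.Lev
import Pool.Agent.Lib.MP_a94b90_nt.ES.Free2
import Pool.Agent.Lib.MP_a94b90_nt.ES.Tree
import Pool.Agent.Lib.MP_a94b90_nt.ES.Block
import Pool.Agent.Lib.MP_a94b90_nt.ES.Box2

/-! ES: assembly of the two sharp bounds. -/

namespace ExOrd

theorem sieveT : SieveStmt := sieve sfin (boxC sfin) mob

theorem sharpLowT : SharpLowStmt :=
  sharpLow (low3 (ks (ksq sfin) sieveT scov (hexUp hexCnt2)) lfew3 main4 tailC tailS mainC ded)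

theorem sharpUpT : SharpUpStmt :=
  sharpUp (block (lev (fam (fsq sfin formLo) sieveT scov (hexLo hexCnt2) nonPrim gapCard) wcnt gapCard
    (close cross (strat dualCnt))) free2 tree) box2

end ExOrd
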