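import Pool.Agent.Lib.MP_a94b90_nt.ES.Stmt

/-! ES: the number of lattice points of hexagonal norm `k`. -/

namespace ExOrd

namespace SHexCnt

/-- the six half-open sides of the hexagon. -/
def side (k : ℤ) (p : Fin 6 × ℤ) : ℤ × ℤ :=
  ![(k - p.2, p.2), (-p.2, k), (-k, k - p.2), (p.2 - k, -p.2), (p.2, -k), (k, p.2 - k)] p.1

end SHexCnt

open SHexCnt in
theorem hexCnt : HexCntStmt := by
  intro k hk
  have e : ((Finset.univ : Finset (Fin 6)) ×ˢ Finset.Ico (0 : ℤ) k).card = 6 * k := by simp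
  rw [← e]
  symm
  refine Finset.card_bij (fun p _ => side k p) ?_ ?_ ?_
  · rintro ⟨i, t⟩ h
    simp only [Finset.mem_product, Finset.mem_univ, Finset.mem_Ico, true_and] at h
    rw [Finset.mem_filter, Finset.mem_product, Finset.mem_Icc, Finset.mem_Icc, Nh]
    fin_cases i <;> simp [side] <;> omega
  · rintro ⟨i, t⟩ h ⟨j, s⟩ h' e
    simp only [Finset.mem_product, Finset.mem_univ, Finset.mem_Ico, true_and] at h h'
    fin_cases i <;> fin_cases j <;> simp [side] at e ⊢ <;> omega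
  · rintro ⟨u, v⟩ h
    rw [Finset.mem_filter, Finset.mem_product, Finset.mem_Icc, Finset.mem_Icc, Nh] at h
    dsimp only at h
    have c : (u + v = k ∧ 0 ≤ v ∧ v < k) ∨ (v = k ∧ 0 ≤ -u ∧ -u < k) ∨
        (u = -k ∧ 0 ≤ k - v ∧ k - v < k) ∨ (u + v = -k ∧ 0 ≤ -v ∧ -v < k) ∨
        (v = -k ∧ 0 ≤ u ∧ u < k) ∨ (u = k ∧ 0 ≤ v + k ∧ v + k < k) := by omega
    rcases c with c | c | c | c | c | c
    · exact ⟨(0, v), by simp [c.2], by simp [side]; omega⟩
    · exact ⟨(1, -u), by simp; omega, by simp [side]; omega⟩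
    · exact ⟨(2, k - v), by simp; omega, by simp [side]; omega⟩
    · exact ⟨(3, -v), by simp; omega, by simp [side]; omega⟩
    · exact ⟨(4, u), by simp [c.2], by simp [side]; omega⟩
    · exact ⟨(5, v + k), by simp; omega, by simp [side]; omega⟩

end ExOrd
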