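import Pool.Agent.Lib.MP_a94b90_nt.ES.Stmt
import Pool.Agent.Lib.MP_a94b90_nt.EX.Light
import Pool.Agent.Lib.MP_a94b90_nt.ED.CntG
import Pool.Agent.Lib.MP_a94b90_nt.ED.KillG
import Pool.Agent.Lib.MP_a94b90_nt.ED.Light2
import Pool.Agent.Lib.MP_a94b90_nt.ED.Main3

/-! ES: light events for trees rooted at a positive level. -/

namespace ExOrd
open Set

theorem lfew3 : LFew3Stmt := by
  classical
  intro r n m j lam μ N E hm hj hF hN hμ hl S hG hg T hT
  obtain ⟨d, rfl⟩ : ∃ d, j = m + (d + 1) := ⟨j - m - 1, by omega⟩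
  have e1 : m + (d + 1) - m = d + 1 := by omega
  have hmap : ∀ i ∈ T, i / 8 ^ (d + 1) ∈ S m := fun i hi => by
    have := (hT i hi).1 m hm hj
    rwa [e1] at this
  have h1 : (T.card : ℝ) ≤ (S m).card * N := by
    rw [Finset.card_eq_sum_card_fiberwise (f := fun i => i / 8 ^ (d + 1)) (t := S m) hmap]
    push_cast
    rw [← nsmul_eq_mul]
    refine Finset.sum_le_card_nsmul _ _ _ fun A hA => hF A (hG m hm hj A hA) _ fun i hi => ?_
    obtain ⟨hi1, hi2⟩ := Finset.mem_filter.1 hi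
    obtain ⟨x, hx, ex⟩ := (hT i hi1).2
    exact ⟨x, hi2 ▸ node_sub m (d + 1) i hx, hx, ex⟩
  have h2 : μ ^ d * ((S m).card : ℝ) ≤ (S (m + d)).card :=
    DLight2.grow hμ.le hg hm hl d (by omega)
  have e2 : m + (d + 1) - 1 = m + d := by omega
  have e3 : m + (d + 1) - m - 1 = d := by omega
  have h3 : 0 < μ ^ d := pow_pos hμ d
  rw [e2, e3]
  calc (T.card : ℝ) ≤ (S m).card * N := h1
    _ = N / μ ^ d * (μ ^ d * (S m).card) := by field_simp
    _ ≤ _ := mul_le_mul_of_nonneg_left h2 (div_nonneg hN h3.le)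

open DMain3 in
theorem main4 : Main4Stmt := by
  intro r n j lam hr hn hj h7 hm
  have hk := kill3 (killG cntG)
  have h1 := lsum2 r n (j + 1) (j + 1) lam (fun l => 2 * l + (2 * r + 2) ≤ j + 1)
    (fun l => EvK (-(2 * r + 2) - 2 * (j + 1 : ℕ) - 2 * l) ((j + 1 : ℕ) - (2 * r + 2) - 2 * l)
      ((j + 1 : ℕ) - (2 * r + 2) + l) ((j + 1 : ℕ) - (2 * r + 2) - 2 * l - 3))
    (3 * (2 * r + 2) - 26) (by
      intro l _ c
      refine lfew2 r n (j + 1 - (6 * r + 4 + l / 8)) (j + 1) (6 * r + 3) lam _ _ _ _ (by omega)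
        (by omega) (hk r (j + 1 - (6 * r + 4 + l / 8)) (j + 1) l (6 * r + 4 + l / 8) 5 _ _ _ _
          ?_ ?_ ?_ ?_ ?_ ?_ ?_) h7 (fun i hi => hm i (by omega)) (mu_nonneg r)
        (pow_le r _ (by omega)) ?_ <;> omega)
  have h2 := lfew2 r n (j + 1 - (2 * r + 2)) (j + 1) (2 * r + 1) lam _ _ _ (3 * (2 * r + 2) - 8)
    (by omega) (by omega)
    (rat r (j + 1 - (2 * r + 2)) (j + 1) 2 (2 * (j + 1 : ℕ) - 2 * r) (1 - 3 * (j + 1 : ℕ))
      (by omega) (by omega) (by omega)) h7 (fun i hi => hm i (by omega)) (mu_nonneg r)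
    (pow_le r _ (by omega)) (by omega)
  refine lor2 r n (j + 1) lam _ _ _ _ _ _ h1 h2 ?_ (P_add_le (by omega) (by omega))
  rintro x ⟨hG, hB⟩
  by_cases c : PP r (j + 1) x
  · have c2 : ¬ RR r (j + 1) x := fun e => hB ⟨c, e⟩
    right
    unfold RR at c2
    push Not at c2
    obtain ⟨ρ, a1, a2, a3⟩ := c2
    have a4 : P (j - r) < ρ.den := by
      by_contra e
      exact absurd ((hG.2 ρ (not_lt.1 e) a2).trans_le a3) (not_lt.2 (P_le (by omega)))
    have a5 : (0 : ℝ) ≤ ρ.den := Nat.cast_nonneg _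
    refine ⟨ρ, ?_, ?_⟩
    · refine (pow_le_pow_left₀ a5 a1 2).trans ?_
      rw [P_sq]
      exact P_le (by omega)
    · refine div_le_P (d := (ρ.den : ℝ) ^ 3) (b := 3 * (j - r)) (a := -3 * r - 2) ?_ ?_ (by omega)
      · rw [← P_cube, abs_of_nonneg (pow_nonneg a5 3)]
        exact pow_le_pow_left₀ (P_pos _).le a4.le 3
      · rwa [abs_mul, abs_of_nonneg (pow_nonneg a5 3)]
  · left
    unfold PP at c
    push Not at c
    obtain ⟨l, a, b, c, hb, hd⟩ := c
    have a1 := rg_box hb hd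
    refine ⟨l, by omega, a1, a, b, c, hb, ?_⟩
    by_contra e
    exact hd (hG.1 (l + 1) a b c (up_box hb (not_lt.1 e)))

theorem mainC : MainCStmt := by
  intro c κ q K n n' l0 C0 i j hc h1 h2 hq hn hj
  have h3 := lfew (q + K) n (j - (q + K + 1)) j _ _ (((q + K) / 4 : ℕ) + 3) (by omega) (by omega)
    (kill3 (killG cntG) (q + K) (j - (q + K + 1)) j 0 (q + K + 2 * K + 2) (5 + 3 * C0 + l0)
      (3 - κ - 2 * i) (i + 2) i (i - l0) (by omega) (by omega) (by omega) (by omega) (by omega)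
      (by omega) (by omega)) (by omega)
  refine light_mono h3 ?_ (P_le (by omega))
  rintro x ⟨x0, x1, a, b, d, -, k1, k2, k3, k4⟩
  have x2 : P (-3 * n') ≤ P 0 := P_le (by omega)
  rw [P_zero] at x2
  refine ⟨a, b, d, ⟨?_, ?_, (abs_a_le_Ht a b d).trans k2⟩, k4⟩
  · have k5 : P (i - 1) ^ 2 ≤ (Ht a b d : ℝ) ^ 2 := pow_le_pow_left₀ (P_pos _).le k1.le 2
    rw [P_sq] at k5
    have k6 : P (3 - κ - 2 * i) * P (2 * (i - 1)) = P (1 - κ) := P_mul (by ring)
    have k7 := P_pos (2 * (i - 1))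
    have k8 := mul_le_mul_of_nonneg_left k5 (abs_nonneg (Lv a b d x))
    exact le_of_mul_le_mul_right (by linarith) k7
  · have k5 := Dv_le_Ht a b d (x := x) ⟨by linarith, x1⟩
    have k6 : P (i + 2) = 2 ^ 2 * P i := P_shift 2 (by push_cast; ring)
    have k7 := P_pos i
    linarith

end ExOrd
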