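import Pool.Agent.Lib.MP_a94b90_nt.ED.Stmt

/-! ES: sharp asymptotics of the dimension. Definitions and block statements. -/

namespace ExOrd
open Set

/-- the value of the zeta function at 3. -/
noncomputable def Z3 : ℝ := ∑' n : ℕ, 1 / ((n : ℝ) + 1) ^ 3

/-- killed proportion per level. -/
noncomputable def rate (c : ℝ) : ℝ := 6 * c * Real.log 2 / Z3

def KS (c : ℝ) : Set ℝ :=
  {x | x ∈ Icc (0 : ℝ) 1 ∧ ∀ a b d : ℤ, ¬ (a = 0 ∧ b = 0 ∧ d = 0) →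
    c ≤ |Lv a b d x| * (Ht a b d : ℝ) ^ 2}

def Prim (a b c : ℤ) : Prop := ∀ t : ℤ, t ∣ a → t ∣ b → t ∣ c → IsUnit t

/-- no prime up to `Y` divides the form. -/
def Rough (Y : ℕ) (a b c : ℤ) : Prop :=
  ∀ p : ℕ, p.Prime → p ≤ Y → ¬ ((p : ℤ) ∣ a ∧ (p : ℤ) ∣ b ∧ (p : ℤ) ∣ c)

/-- hexagonal norm. -/
def Nh (u v : ℤ) : ℕ := max u.natAbs (max v.natAbs (u + v).natAbs)

/-- covering property of the lattice of forms at `x`. -/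
def Cov (x ρ1 ρ2 : ℝ) : Prop :=
  ∀ y1 y2 y3 : ℝ, ∃ a b c : ℤ, |Lv a b c x - y1| ≤ ρ1 ∧ |a - y2| ≤ ρ2 ∧ |b - y3| ≤ ρ2

/-- half-open box in the coordinates `(a, b, L)`. -/
def InB (x a0 b0 l0 s lam : ℝ) (Q : ℤ × ℤ × ℤ) : Prop :=
  (a0 ≤ Q.1 ∧ Q.1 < a0 + s) ∧ (b0 ≤ Q.2.1 ∧ Q.2.1 < b0 + s) ∧
    l0 ≤ Lv Q.1 Q.2.1 Q.2.2 x ∧ Lv Q.1 Q.2.1 Q.2.2 x < l0 + lam

/-- descendants at depth `d`. -/
def desc (d A : ℕ) : Finset ℕ := Finset.Ico (A * 8 ^ d) ((A + 1) * 8 ^ d)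

/-- main violations: primitive, height in `(2^(i-1), 2^i]`, derivative not small, `x` near 1. -/
def EvM (c : ℝ) (i l0 n : ℕ) (x : ℝ) : Prop :=
  1 - P (-3 * n) ≤ x ∧ x ≤ 1 ∧ ∃ a b d : ℤ, Prim a b d ∧ P (i - 1) < Ht a b d ∧
    (Ht a b d : ℝ) ≤ P i ∧ |Lv a b d x| * (Ht a b d : ℝ) ^ 2 < c ∧ P (i - l0) < |Dv a b x|

/-- tail violations: classes `l ≥ l1` and squares of linear forms. -/
def EvT (q l1 j : ℕ) (x : ℝ) : Prop :=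
  (∃ l : ℕ, l1 ≤ l ∧ 2 * l + (2 * q + 2) ≤ j ∧
    EvK (-(2 * q + 2) - 2 * j - 2 * l) (j - (2 * q + 2) - 2 * l) (j - (2 * q + 2) + l)
      (j - (2 * q + 2) - 2 * l - 3) x) ∨ EvQ (2 * j - 2 * q) (1 - 3 * j) x

/-- violation at `x` by a form of hexagonal norm in `(2^(i-1), 2^i]`. -/
def ViolN (c : ℝ) (i : ℕ) (x : ℝ) (a b d : ℤ) : Prop :=
  P (i - 1) < Nh a b ∧ (Nh a b : ℝ) ≤ P i ∧ |Lv a b d x| * (Ht a b d : ℝ) ^ 2 < c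

def Indep (a b d a' b' d' : ℤ) : Prop :=
  ¬ (b * a' = a * b' ∧ a * d' = d * a' ∧ d * b' = b * d')

/-- the node contains a point with two independent violations at close levels. -/
def CloseN (c : ℝ) (k i p : ℕ) : Prop :=
  ∃ x ∈ Node i p, ∃ (i1 : ℕ) (a b d a' b' d' : ℤ), i1 ≤ i ∧ i ≤ i1 + k ∧ ViolN c i1 x a b d ∧
    ViolN c i x a' b' d' ∧ Indep a b d a' b' d'

def Alive (c : ℝ) (j p : ℕ) : Prop := ∃ x ∈ Node j p, x ∈ KS c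

open Classical in
/-- nodes of level `j` below `(m, A)` all of whose points are violated by `Q`. -/
noncomputable def gapN (c : ℝ) (m A j : ℕ) (Q : ℤ × ℤ × ℤ) : Finset ℕ :=
  (desc (j - m) A).filter fun p =>
    ∀ x ∈ Node j p, |Lv Q.1 Q.2.1 Q.2.2 x| * (Ht Q.1 Q.2.1 Q.2.2 : ℝ) ^ 2 < c

open Classical in
/-- nodes of level `b` below `(m, A)` with the property `Al`. -/
noncomputable def alv (Al : ℕ → ℕ → Prop) (m A b : ℕ) : Finset ℕ :=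
  (desc (b - m) A).filter (Al b)

open Classical in
/-- nodes of level `b` below `(m, A)` with `Al` that have a child without `Al`. -/
noncomputable def pd (Al : ℕ → ℕ → Prop) (m A b : ℕ) : Finset ℕ :=
  (desc (b - m) A).filter fun p => Al b p ∧ ∃ p', p' / 8 = p ∧ ¬ Al (b + 1) p'

theorem mem_desc {d A p : ℕ} : p ∈ desc d A ↔ p / 8 ^ d = A := by
  unfold desc
  rw [Finset.mem_Ico]
  refine ⟨fun h => Nat.div_eq_of_lt_le h.1 h.2, fun h => ?_⟩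
  subst h
  refine ⟨Nat.div_mul_le_self _ _, ?_⟩
  rw [add_mul, one_mul]
  exact Nat.lt_div_mul_add (by positivity)

theorem card_desc (d A : ℕ) : (desc d A).card = 8 ^ d := by
  unfold desc; rw [Nat.card_Ico, add_mul]; omega

/-- real version of `diam`. -/
theorem diamR {j : ℕ} {R : ℝ} {E : ℝ → Prop} (hR : 0 ≤ R)
    (hE : ∀ x y, E x → E y → |x - y| ≤ R * P (-3 * j))
    (T : Finset ℕ) (hT : ∀ i ∈ T, ∃ x ∈ Node j i, E x) : (T.card : ℝ) ≤ R + 2 := by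
  rcases T.eq_empty_or_nonempty with h | h
  · simp only [h, Finset.card_empty, Nat.cast_zero]; linarith
  have hp := P_pos (-3 * j)
  have hsub : T ⊆ Finset.Icc (T.min' h) (T.min' h + (⌊R⌋₊ + 1)) := by
    intro i hi
    refine Finset.mem_Icc.2 ⟨T.min'_le i hi, ?_⟩
    obtain ⟨x, hx, ex⟩ := hT i hi
    obtain ⟨y, hy, ey⟩ := hT _ (T.min'_mem h)
    have h1 := (abs_le.1 (hE x y ex ey)).2
    have h2 : (i : ℝ) * P (-3 * j) ≤ ((T.min' h : ℕ) + R + 1) * P (-3 * j) := by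
      have := hx.1
      have := hy.2
      nlinarith
    have h3 := le_of_mul_le_mul_right h2 hp
    have h4 := Nat.lt_floor_add_one R
    have h5 : (i : ℝ) < (T.min' h + (⌊R⌋₊ + 1) + 1 : ℕ) := by push_cast; linarith
    exact Nat.lt_succ_iff.1 (by exact_mod_cast h5)
  have h6 := Finset.card_le_card hsub
  rw [Nat.card_Icc] at h6
  have h7 : T.card ≤ ⌊R⌋₊ + 2 := by omega
  have h8 : (T.card : ℝ) ≤ ⌊R⌋₊ + 2 := by exact_mod_cast h7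
  linarith [Nat.floor_le hR]

theorem Z3_bd : 1 ≤ Z3 ∧ Z3 ≤ 2 := by
  have h2 : HasSum (fun n : ℕ => 1 / ((n : ℝ) + 1) ^ 2) (Real.pi ^ 2 / 6) := by
    have := (hasSum_nat_add_iff' 1).2 hasSum_zeta_two
    simpa using this
  have hle : ∀ n : ℕ, 1 / ((n : ℝ) + 1) ^ 3 ≤ 1 / ((n : ℝ) + 1) ^ 2 := fun n =>
    one_div_le_one_div_of_le (by positivity)
      (pow_le_pow_right₀ (by linarith [(Nat.cast_nonneg n : (0 : ℝ) ≤ n)]) (by norm_num))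
  have h3 : Summable fun n : ℕ => 1 / ((n : ℝ) + 1) ^ 3 :=
    Summable.of_nonneg_of_le (fun n => by positivity) hle h2.summable
  refine ⟨?_, (h3.tsum_le_tsum hle h2.summable).trans ?_⟩
  · simpa [Z3] using h3.le_tsum 0 fun n _ => by positivity
  · rw [h2.tsum_eq]; nlinarith [Real.pi_lt_d2, Real.pi_pos]

theorem rate_bd {c : ℝ} (hc : 0 ≤ c) : 2 * c ≤ rate c ∧ rate c ≤ 5 * c := by
  obtain ⟨h1, h2⟩ := Z3_bd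
  have l1 := Real.log_two_gt_d9
  have l2 := Real.log_two_lt_d9
  unfold rate
  rw [le_div_iff₀ (by linarith), div_le_iff₀ (by linarith)]
  constructor <;> nlinarith

theorem Nh_le_Ht (a b d : ℤ) : (Nh a b : ℝ) ≤ 2 * Ht a b d := by
  have : Nh a b ≤ 2 * Ht a b d := by unfold Nh Ht; omega
  exact_mod_cast this

theorem abs_a_le_Nh (a b : ℤ) : |(a : ℝ)| ≤ Nh a b := by
  rw [← Int.cast_abs, ← Nat.cast_natAbs]; exact_mod_cast (by unfold Nh; omega)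

theorem abs_b_le_Nh (a b : ℤ) : |(b : ℝ)| ≤ Nh a b := by
  rw [← Int.cast_abs, ← Nat.cast_natAbs]; exact_mod_cast (by unfold Nh; omega)

theorem abs_ab_le_Nh (a b : ℤ) : |(a : ℝ) + b| ≤ Nh a b := by
  rw [← Int.cast_add, ← Int.cast_abs, ← Nat.cast_natAbs]; exact_mod_cast (by unfold Nh; omega)

/-- a violation has a small value. -/
theorem viol_L {c x : ℝ} {κ i : ℕ} {a b d : ℤ} (hc : c < P (1 - κ)) (h1 : P (i - 1) < Nh a b)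
    (h2 : |Lv a b d x| * (Ht a b d : ℝ) ^ 2 < c) : |Lv a b d x| ≤ P (5 - κ - 2 * i) := by
  have k1 := Nh_le_Ht a b d
  have k2 : P (i - 1) = 2 ^ 1 * P (i - 2) := P_shift 1 (by push_cast; ring)
  have k3 : P (i - 2) ^ 2 ≤ (Ht a b d : ℝ) ^ 2 := pow_le_pow_left₀ (P_pos _).le (by linarith) 2
  rw [P_sq] at k3
  have k4 : P (5 - κ - 2 * i) * P (2 * (i - 2)) = P (1 - κ) := P_mul (by ring)
  have k5 := P_pos (2 * (i - 2))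
  have k6 := mul_le_mul_of_nonneg_left k3 (abs_nonneg (Lv a b d x))
  exact le_of_mul_le_mul_right (by linarith) k5

theorem KS.inK {c x : ℝ} {κ : ℕ} (hc : P (-κ) ≤ c) (h : x ∈ KS c) : InK κ x :=
  ⟨h.1, fun a b d hne => hc.trans (h.2 a b d hne)⟩

theorem Alive.up {c : ℝ} {j d p : ℕ} (h : Alive c (j + d) p) : Alive c j (p / 8 ^ d) := by
  obtain ⟨x, h1, h2⟩ := h
  exact ⟨x, node_sub j d p h1, h2⟩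

theorem Alive.sub {c : ℝ} {m A : ℕ} (hc : 0 < c) (h : Alive c m A) : Node m A ⊆ Icc 0 1 := by
  obtain ⟨x, h1, h2, h3⟩ := h
  have hp := P_pos (-3 * m)
  have k1 : x ≠ 1 := by
    rintro rfl
    have := h3 0 1 (-1) (by simp)
    simp [Lv] at this
    linarith
  have k2 : (8 : ℝ) ^ m * P (-3 * m) = 1 := by
    rw [show (8 : ℝ) ^ m = P (3 * m : ℕ) by rw [P_nat, pow_mul]; norm_num, ← P_zero]
    exact P_mul (by push_cast; ring)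
  have k3 : (A : ℝ) * P (-3 * m) < 8 ^ m * P (-3 * m) := by
    rw [k2]; exact h1.1.trans_lt (lt_of_le_of_ne h2.2 k1)
  have k4 : A < 8 ^ m := by exact_mod_cast lt_of_mul_lt_mul_right k3 hp.le
  have k5 : (A : ℝ) + 1 ≤ 8 ^ m := by exact_mod_cast k4
  intro y hy
  exact ⟨le_trans (by positivity) hy.1, hy.2.trans (by nlinarith)⟩

/-- dependent primitive forms with positive derivative at a common point are equal. -/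
theorem prim_eq {a b d a' b' d' : ℤ} {x : ℝ} (h : Prim a b d) (h' : Prim a' b' d')
    (hi : ¬ Indep a b d a' b' d') (hD : 0 < Dv a b x) (hD' : 0 < Dv a' b' x) :
    a = a' ∧ b = b' ∧ d = d' := by
  obtain ⟨h1, h2, h3⟩ := not_not.1 hi
  have bez : ∀ {a b d : ℤ}, Prim a b d → ∃ u v w : ℤ, u * a + v * b + w * d = 1 := by
    intro a b d h
    have g1 := Int.gcd_eq_gcd_ab a b
    have g2 := Int.gcd_eq_gcd_ab (Int.gcd a b) d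
    have g3 := h (Int.gcd (Int.gcd a b) d) ((Int.gcd_dvd_left _ _).trans (Int.gcd_dvd_left _ _))
      ((Int.gcd_dvd_left _ _).trans (Int.gcd_dvd_right _ _)) (Int.gcd_dvd_right _ _)
    have g4 : ((Int.gcd (Int.gcd a b) d : ℕ) : ℤ) = 1 := by
      rcases Int.isUnit_iff.1 g3 with e | e <;> omega
    refine ⟨Int.gcdA a b * Int.gcdA (Int.gcd a b) d, Int.gcdB a b * Int.gcdA (Int.gcd a b) d,
      Int.gcdB (Int.gcd a b) d, ?_⟩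
    rw [← g4, g2]
    linear_combination (-Int.gcdA (Int.gcd a b) d) * g1
  obtain ⟨u, v, w, e⟩ := bez h
  obtain ⟨t, ht⟩ : ∃ t, t = u * a' + v * b' + w * d' := ⟨_, rfl⟩
  have ea : a' = t * a := by rw [ht]; linear_combination (-a') * e + v * h1 - w * h2
  have eb : b' = t * b := by rw [ht]; linear_combination (-b') * e - u * h1 + w * h3
  have ed : d' = t * d := by rw [ht]; linear_combination (-d') * e + u * h2 - v * h3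
  have hu := h' t ⟨a, ea⟩ ⟨b, eb⟩ ⟨d, ed⟩
  rcases Int.isUnit_iff.1 hu with e1 | e1
  · rw [ea, eb, ed, e1]; simp
  · exfalso
    rw [ea, eb, e1] at hD'
    unfold Dv at hD hD'
    push_cast at hD'
    linarith

/-! ### counting forms in boxes -/

def FinStmt : Prop := ∀ x a0 b0 l0 s lam : ℝ, {Q | InB x a0 b0 l0 s lam Q}.Finite

def CovStmt : Prop :=
  ∀ (x : ℝ) (α β : ℤ) (G : ℕ),
    (∀ a b c : ℤ, |Lv a b c x| ≤ P α → |(a : ℝ)| ≤ P β → |(b : ℝ)| ≤ P β → a = 0 ∧ b = 0 ∧ c = 0) →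
    8 ≤ G + α + 2 * β → α + G ≤ 0 → 0 ≤ β + G → Cov x (P (α + G + 1)) (P (β + G + 1))

def BoxCStmt : Prop :=
  ∀ x ρ1 ρ2 a0 b0 l0 s lam η : ℝ, Cov x ρ1 ρ2 → 0 < lam → η ≤ 1 / 20 → ρ1 ≤ η * lam →
    ρ2 + 1 ≤ η * s → lam ≤ η →
    |({Q | InB x a0 b0 l0 s lam Q}.ncard : ℝ) - s ^ 2 * lam| ≤ 10 * η * (s ^ 2 * lam)

def MobStmt : Prop :=
  ∀ η : ℝ, 0 < η → ∃ Y0 : ℕ, ∀ Y, Y0 ≤ Y →
    |∑ k ∈ (Nat.factorial Y).divisors, (ArithmeticFunction.moebius k : ℝ) / (k : ℝ) ^ 3 - 1 / Z3|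
      ≤ η

def SieveStmt : Prop :=
  ∀ η : ℝ, 0 < η → ∀ Y0 : ℕ, ∃ Y ω : ℕ, Y0 ≤ Y ∧ ∀ x ρ1 ρ2 a0 b0 l0 s lam : ℝ, Cov x ρ1 ρ2 →
    0 < lam → ρ1 ≤ P (-ω) * lam → ρ2 + 1 ≤ P (-ω) * s → lam ≤ P (-ω) →
    |({Q | InB x a0 b0 l0 s lam Q ∧ Rough Y Q.1 Q.2.1 Q.2.2}.ncard : ℝ) - s ^ 2 * lam / Z3| ≤
      η * (s ^ 2 * lam)

def HexCntStmt : Prop :=
  ∀ k : ℕ, 1 ≤ k → ((Finset.Icc (-(k : ℤ)) k ×ˢ Finset.Icc (-(k : ℤ)) k).filter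
    fun U : ℤ × ℤ => Nh U.1 U.2 = k).card = 6 * k

def HexUpStmt : Prop :=
  ∀ (x : ℝ) (k1 k2 : ℕ) (S : Finset (ℤ × ℤ)), 1 ≤ k1 → k1 ≤ k2 →
    (∀ U ∈ S, k1 ≤ Nh U.1 U.2 ∧ Nh U.1 U.2 ≤ k2 ∧ 0 < 2 * (U.1 : ℝ) * x + U.2) →
    ∑ U ∈ S, 1 / (Nh U.1 U.2 : ℝ) ^ 2 ≤ 3 * (1 / k1 + Real.log (k2 / k1))

def HexLoStmt : Prop :=
  ∀ (x δ : ℝ) (M : ℕ), 10 ≤ M → 0 < δ → ∃ S : Finset (ℤ × ℤ),
    (∀ U ∈ S, M + 3 ≤ Nh U.1 U.2 ∧ Nh U.1 U.2 + 3 ≤ 2 * M ∧ δ * M ≤ 2 * (U.1 : ℝ) * x + U.2) ∧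
    3 * Real.log 2 - 30 * δ - 40 / M ≤ ∑ U ∈ S, 1 / (Nh U.1 U.2 : ℝ) ^ 2

/-! ### lower bound for the dimension -/

def KSqStmt : Prop :=
  ∀ (ε c s z x0 : ℝ) (m j A k : ℕ) (u v : ℤ), 0 < ε → ε ≤ 1 / 100 → 0 < c → c ≤ 1 → 0 ≤ z →
    x0 ∈ Node m A → Nh u v = k → 10 ≤ ε * (2 * u * x0 + v) → 10 ≤ ε * k → 1 ≤ ε * s →
    ((k : ℝ) + 2) * P (-3 * m) ≤ 1 → c ≤ ε * s ^ 3 * P (-3 * m) →
    16 * (k * s) ^ 3 ≤ ε * c * P (3 * j) →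
    (∀ l0 lam : ℝ, s * P (-3 * m) ≤ lam → lam ≤ 8 * k * s * P (-3 * m) →
      ({Q | InB x0 (u * s) (v * s) l0 s lam Q ∧ Prim Q.1 Q.2.1 Q.2.2}.ncard : ℝ) ≤
        z * (s ^ 2 * lam)) →
    ∀ T : Finset ℕ, (∀ p ∈ T, ∃ x, x ∈ Node m A ∧ x ∈ Node j p ∧ 1 - ε ≤ x ∧ x ≤ 1 ∧
      ∃ a b d : ℤ, Prim a b d ∧ (u * s ≤ a ∧ a < u * s + s) ∧ (v * s ≤ b ∧ b < v * s + s) ∧
        |Lv a b d x| * (Ht a b d : ℝ) ^ 2 < c) →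
      (T.card : ℝ) ≤ (1 + 30 * ε) * (2 * c * z * P (3 * j - 3 * m)) / (k : ℝ) ^ 2

def KSStmt : Prop :=
  ∀ η : ℝ, 0 < η → ∀ l0 : ℕ, ∃ n C0 D0 : ℕ, ∀ (c : ℝ) (κ r m i j : ℕ), P (-κ) ≤ c → c ≤ 1 →
    j = i + κ / 3 + C0 → m + 4 * r + D0 ≤ i → i ≤ 2 * m →
    Few r m j (EvM c i l0 n) ((1 + η) * rate c * P (3 * j - 3 * m))

def LFew3Stmt : Prop :=
  ∀ (r n m j : ℕ) (lam : ℕ → ℝ) (μ N : ℝ) (E : ℝ → Prop), n ≤ m → m < j → Few r m j E N →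
    0 ≤ N → 0 < μ → (∀ i, m ≤ i → μ ≤ lam i) → Light2 r n j lam E (N / μ ^ (j - m - 1))

def Main4Stmt : Prop :=
  ∀ (r n j : ℕ) (lam : ℕ → ℝ), 200 ≤ r → n ≤ r → 7 * (2 * r + 2) ≤ j → (∀ i, 7 ≤ lam i) →
    (∀ i, n + 2 * r ≤ i → 8 - 1 / (2 * (r : ℝ) + 2) ≤ lam i) →
    Light2 r n (j + 1) lam (fun x => Good r j x ∧ ¬ Good r (j + 1) x) (P (32 - 3 * (2 * r + 2)))

def TailCStmt : Prop :=
  ∀ (q K n l1 j : ℕ), 20 * K + 400 ≤ q → 4 * n ≤ q → n < j →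
    Light (q + K) n j (EvT q l1 j) (P (-((q + K) / 4 : ℕ) - 3))

def TailSStmt : Prop :=
  ∀ (q K n l1 j ω : ℕ) (lam : ℕ → ℝ), 20 * K + 400 ≤ q → 4 * n ≤ q → ω ≤ q →
    16 * (44 + 2 * ω) ≤ l1 → 20 * (q + K) ≤ j → (∀ i, 7 ≤ lam i) →
    (∀ i, n + 2 * (q + K) ≤ i → 8 - 1 / (2 * ((q + K : ℕ) : ℝ) + 2) ≤ lam i) →
    Light2 (q + K) n j lam (EvT q l1 j) (P (6 - 3 * (2 * q + 2) - ω))

def MainCStmt : Prop :=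
  ∀ (c : ℝ) (κ q K n n' l0 C0 i j : ℕ), c < P (1 - κ) → 6 * q + 9 ≤ κ → κ ≤ 6 * q + 14 →
    40 * (K + C0 + l0) + 400 ≤ q → 4 * n ≤ q → j = i + κ / 3 + C0 →
    Light (q + K) n j (EvM c i l0 n') (P (-((q + K) / 4 : ℕ) - 3))

def DedStmt : Prop :=
  ∀ (c x : ℝ) (κ q n n' l0 l1 : ℕ), c < P (1 - κ) → 6 * q + 9 ≤ κ → 3 * l1 ≤ l0 → n < q →
    1 - P (-3 * n') ≤ x → x ≤ 1 → (∀ j, n < j → ¬ EvT q l1 j x) → (∀ i, ¬ EvM c i l0 n' x) →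
    x ∈ KS c

def Low3Stmt : Prop :=
  ∀ η : ℝ, 0 < η → ∃ c0 : ℝ, 0 < c0 ∧ ∀ c : ℝ, 0 < c → c ≤ c0 → ∃ δ : ℝ, 0 < δ ∧
    ∀ (θ : ℝ) (C : ℕ → Finset ℕ), θ ≤ 1 → 1 ≤ θ * (8 * (1 - (1 + η) * rate c)) →
      (∀ N, ∑ j ∈ Finset.range N, ((C j).card : ℝ) * θ ^ j ≤ δ) →
      ∃ ξ ∈ KS c, ∀ j, ∃ p, ξ ∈ Node j p ∧ p ∉ C j

def SharpLowStmt : Prop :=
  ∀ η : ℝ, 0 < η → ∃ c0 : ℝ, 0 < c0 ∧ ∀ c : ℝ, 0 < c → c ≤ c0 →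
    ENNReal.ofReal (1 - (1 + η) * (2 * c / Z3)) ≤ dimH (KS c)

/-! ### upper bound for the dimension -/

def FormLoStmt : Prop :=
  ∀ (a b d : ℤ) (m j A : ℕ) (c τ Dm Dp : ℝ), m ≤ j → 0 < Dm → 0 < τ →
    τ * (Ht a b d : ℝ) ^ 2 ≤ c → (∀ x ∈ Node m A, Dm ≤ Dv a b x ∧ Dv a b x ≤ Dp) →
    τ - Dm * P (-3 * m) ≤ Lv a b d (A * P (-3 * m)) → Lv a b d (A * P (-3 * m)) ≤ -τ →
    2 * τ * P (3 * j) / Dp - 2 ≤ ((gapN c m A j (a, b, d)).card : ℝ)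

def GapCardStmt : Prop :=
  ∀ (a b d : ℤ) (c : ℝ) (κ m i j A l0 C0 : ℕ), c < P (1 - κ) → j = i + κ / 3 + C0 → m ≤ j →
    P (i - 1) < Nh a b → (∀ x ∈ Node m A, P (i - l0) ≤ Dv a b x) →
    ((gapN c m A j (a, b, d)).card : ℝ) ≤ P (l0 + 3 * C0 + 8)

def FSqStmt : Prop :=
  ∀ (ε c s z : ℝ) (m j A k Y : ℕ) (u v : ℤ), 0 < ε → ε ≤ 1 / 100 → 0 < c → c ≤ 1 → 0 ≤ z →
    m ≤ j → Node m A ⊆ Icc 0 1 → Nh u v = k → 10 ≤ ε * (2 * u * (A * P (-3 * m)) + v) →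
    10 ≤ ε * k → 1 ≤ ε * s → ((k : ℝ) + 2) * P (-3 * m) ≤ 1 → 8 * k * s * P (-3 * m) ≤ 1 →
    c ≤ ε * s ^ 3 * P (-3 * m) → 16 * (k * s) ^ 3 ≤ ε * c * P (3 * j) →
    (∀ l0 lam : ℝ, s * P (-3 * m) ≤ lam → lam ≤ 8 * k * s * P (-3 * m) →
      z * (s ^ 2 * lam) ≤ ({Q | InB (A * P (-3 * m)) (u * s) (v * s) l0 s lam Q ∧
        Rough Y Q.1 Q.2.1 Q.2.2}.ncard : ℝ)) →
    ∃ F : Finset (ℤ × ℤ × ℤ), (∀ Q ∈ F, Rough Y Q.1 Q.2.1 Q.2.2 ∧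
      (u * s ≤ Q.1 ∧ Q.1 < u * s + s) ∧ (v * s ≤ Q.2.1 ∧ Q.2.1 < v * s + s) ∧
      |Lv Q.1 Q.2.1 Q.2.2 (A * P (-3 * m))| ≤ 8 * k * s * P (-3 * m) ∧
      ∀ x ∈ Node m A, (2 * u * (A * P (-3 * m)) + v) * s / 2 ≤ Dv Q.1 Q.2.1 x) ∧
      (1 - 30 * ε) * (2 * c * z * P (3 * j - 3 * m)) / (k : ℝ) ^ 2 ≤
        ∑ Q ∈ F, ((gapN c m A j Q).card : ℝ)

def NonPrimStmt : Prop :=
  ∀ (κ m i A Y : ℕ) (x0 y : ℝ) (T : Finset (ℤ × ℤ × ℤ)), 1 ≤ Y → 1 ≤ m → m ≤ i → x0 ∈ Node m A →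
    y ∈ Node m A → InK κ x0 →
    (∀ Q ∈ T, Q ≠ 0 ∧ Rough Y Q.1 Q.2.1 Q.2.2 ∧ ¬ Prim Q.1 Q.2.1 Q.2.2 ∧ |(Q.1 : ℝ)| ≤ P i ∧
      |(Q.2.1 : ℝ)| ≤ P i ∧ |Lv Q.1 Q.2.1 Q.2.2 y| ≤ P (i + 3 - 3 * m)) →
    (T.card : ℝ) ≤ (P (2 * (i - m) + 2 * (κ / 3 : ℕ) + 30) + P (3 * (i - m) + 30)) / Y

def FamStmt : Prop :=
  ∀ η : ℝ, 0 < η → ∃ l0 C0 D0 : ℕ, ∀ (c x0 : ℝ) (κ m i j A : ℕ), P (-κ) ≤ c → c < P (1 - κ) →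
    1 ≤ κ → x0 ∈ Node m A → InK κ x0 → Node m A ⊆ Icc 0 1 → j = i + κ / 3 + C0 →
    m + κ + D0 ≤ i → i ≤ 2 * m → ∃ W : Finset (ℤ × ℤ × ℤ),
      (∀ Q ∈ W, Prim Q.1 Q.2.1 Q.2.2 ∧ P (i - 1) < Nh Q.1 Q.2.1 ∧ (Nh Q.1 Q.2.1 : ℝ) ≤ P i ∧
        ∀ x ∈ Node m A, P (i - l0) ≤ Dv Q.1 Q.2.1 x) ∧
      (1 - η) * rate c * P (3 * j - 3 * m) ≤ ∑ Q ∈ W, ((gapN c m A j Q).card : ℝ)

def WcntStmt : Prop :=
  ∀ (κ b i A : ℕ) (x0 : ℝ) (T : Finset (ℤ × ℤ × ℤ)), 1 ≤ b → b ≤ i → x0 ∈ Node b A → InK κ x0 →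
    (∀ Q ∈ T, |(Q.1 : ℝ)| ≤ P i ∧ |(Q.2.1 : ℝ)| ≤ P i ∧
      ∃ x ∈ Node b A, |Lv Q.1 Q.2.1 Q.2.2 x| ≤ P (-2 * i)) →
    (T.card : ℝ) ≤ P (3 * (i - b) + 2 * (κ / 3 : ℕ) + 20)

/-- counting dual vectors `(p, q, t)` in a box. -/
def DualCntStmt : Prop :=
  ∀ (a1 a2 a3 : ℤ) (G : ℕ) (x : ℝ) (T : Finset (ℤ × ℤ × ℤ)),
    (∀ a b c : ℤ, Bx (-a1) (-a2) (-a3) x a b c → a = 0 ∧ b = 0 ∧ c = 0) →
    (∀ p q t : ℤ, |(p : ℝ)| ≤ P (a1 - G) → |(p : ℝ) * x - q| ≤ P (a2 - G) →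
      |(p : ℝ) * x ^ 2 - 2 * q * x + t| ≤ P (a3 - G) → p = 0 ∧ q = 0 ∧ t = 0) →
    (∀ V ∈ T, |(V.1 : ℝ)| ≤ P a1 ∧ |(V.1 : ℝ) * x - V.2.1| ≤ P a2 ∧
      |(V.1 : ℝ) * x ^ 2 - 2 * V.2.1 * x + V.2.2| ≤ P a3) →
    (T.card : ℝ) ≤ P (a1 + a2 + a3 + 8) + P (G + 2)

/-- a dual vector of stratum `z` at a point of the node `(i, p)`. -/
def DualAt (κ k0 i z p : ℕ) : Prop :=
  ∃ x ∈ Node i p, ∃ u v w : ℤ, P (2 * i + 3 - z) ≤ |(u : ℝ)| ∧ |(u : ℝ)| ≤ P (2 * i + 4 - z) ∧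
    |(u : ℝ) * x - v| ≤ P (8 - κ - i + 2 * (min z k0 : ℕ)) ∧
    |(u : ℝ) * x ^ 2 - 2 * v * x + w| ≤ P (8 - κ - i + 2 * (min z k0 : ℕ))

def CrossStmt : Prop :=
  ∀ (c : ℝ) (κ C0 i p : ℕ), P (-κ) ≤ c → c < P (1 - κ) → 2 * C0 + 100 ≤ κ → 8 * κ ≤ i →
    Alive c i p → CloseN c (κ / 3 + C0) i p → ∃ z, z < 4 * κ ∧ DualAt κ (κ / 3 + C0) i z p

def StratStmt : Prop :=
  ∀ (x0 : ℝ) (κ C0 b i A z : ℕ) (T : Finset ℕ), 2 * C0 + 100 ≤ κ → x0 ∈ Node b A → InK κ x0 →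
    b + 8 * κ ≤ i → i + κ ≤ 2 * b → NoSp (2 * κ) b (i + κ) x0 → z < 4 * κ →
    (∀ p ∈ T, p / 8 ^ (i - b) = A ∧ DualAt κ (κ / 3 + C0) i z p) →
    (T.card : ℝ) ≤ P (3 * (i - b) - κ + 3 * C0 + 40)

def CloseStmt : Prop :=
  ∀ (c x0 : ℝ) (κ C0 b i A : ℕ) (T : Finset ℕ), P (-κ) ≤ c → c < P (1 - κ) → 2 * C0 + 100 ≤ κ →
    x0 ∈ Node b A → InK κ x0 → Node b A ⊆ Icc 0 1 → b + 8 * κ ≤ i → i + κ ≤ 2 * b →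
    NoSp (2 * κ) b (i + κ) x0 →
    (∀ p ∈ T, p / 8 ^ (i - b) = A ∧ Alive c i p ∧ CloseN c (κ / 3 + C0) i p) →
    (T.card : ℝ) ≤ 4 * κ * P (3 * (i - b) - κ + 3 * C0 + 40)

def LevStmt : Prop :=
  ∀ η : ℝ, 0 < η → ∃ C0 C1 κ0 : ℕ, ∀ (c x0 : ℝ) (κ b i j B : ℕ), κ0 ≤ κ → P (-κ) ≤ c →
    c < P (1 - κ) → x0 ∈ Node b B → x0 ∈ KS c → Node b B ⊆ Icc 0 1 → j = i + (κ / 3 + C0) →
    b + 8 * κ ≤ i → i + κ ≤ 2 * b → NoSp (2 * κ) b (i + κ) x0 → ∃ X : Finset ℕ,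
      (∀ p ∈ X, p / 8 ^ (j - b) = B ∧ Alive c i (p / 8 ^ (κ / 3 + C0)) ∧
        ¬ CloseN c (κ / 3 + C0) i (p / 8 ^ (κ / 3 + C0)) ∧
        ∃ a b' d : ℤ, Prim a b' d ∧ ∀ x ∈ Node j p, ViolN c i x a b' d ∧ 0 < Dv a b' x) ∧
      (1 - η) * rate c * P (3 * j - 3 * b) ≤ (X.card : ℝ) +
        ∑ b' ∈ Finset.Ico b i, ((pd (Alive c) b B b').card : ℝ) *
          P (3 * (i - b') + 2 * (κ / 3 : ℕ) + C1)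

def Free2Stmt : Prop :=
  ∀ (κ m W : ℕ) (x : ℝ), InK κ x → 8 * κ + 200 ≤ W → ∃ f : ℕ, ∀ j, m + 2 * W ≤ j →
    j ≤ m + 3 * W + κ → (j < f ∨ f + 2 * κ + 64 ≤ j) → NoSp κ m j x

def TreeStmt : Prop :=
  ∀ (Al : ℕ → ℕ → Prop) (m A T : ℕ), (∀ j p, Al (j + 1) p → Al j (p / 8)) →
    (∀ b, m ≤ b → b ≤ m + T →
      (alv Al m A (m + T)).card ≤ (alv Al m A b).card * 8 ^ (m + T - b)) ∧
    (∑ b ∈ Finset.Ico m (m + T), (pd Al m A b).card * 8 ^ (m + T - b) +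
      8 * (alv Al m A (m + T)).card ≤ 8 * 8 ^ T) ∧
    (∀ X : Finset (ℕ × ℕ),
      (∀ V ∈ X, m ≤ V.1 ∧ V.1 ≤ m + T ∧ V.2 / 8 ^ (V.1 - m) = A ∧ ¬ Al V.1 V.2) →
      (∀ V ∈ X, ∀ V' ∈ X, V.1 ≤ V'.1 → V'.2 / 8 ^ (V'.1 - V.1) = V.2 → V = V') →
      ∑ V ∈ X, 8 ^ (m + T - V.1) + (alv Al m A (m + T)).card ≤ 8 ^ T) ∧
    ∀ b b', m ≤ b → b ≤ b' →
      ∑ B ∈ alv Al m A b, (pd Al b B b').card ≤ (pd Al m A b').card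

def BlockStmt : Prop :=
  ∀ η : ℝ, 0 < η → η < 1 → ∃ c0 : ℝ, 0 < c0 ∧ ∀ c : ℝ, 0 < c → c ≤ c0 → ∃ T m0 : ℕ, 1 ≤ T ∧
    rate c * T < 1 ∧ ∀ m A, m0 ≤ m → Alive c m A →
      ((alv (Alive c) m A (m + T)).card : ℝ) ≤ 8 ^ T * (1 - (1 - η) * rate c * T)

def Box2Stmt : Prop :=
  ∀ (E : Set ℝ) (m0 T : ℕ) (β : ℝ), E ⊆ Icc 0 1 → 1 ≤ T → 0 < β → β < 1 →
    (∀ m A, m0 ≤ m → (∃ x ∈ Node m A, x ∈ E) → ∀ U : Finset ℕ,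
      (∀ p ∈ U, p / 8 ^ T = A ∧ ∃ x ∈ Node (m + T) p, x ∈ E) →
      (U.card : ℝ) ≤ 8 ^ T * (1 - β)) →
    dimH E ≤ ENNReal.ofReal (1 - β / (3 * T * Real.log 2))

def SharpUpStmt : Prop :=
  ∀ η : ℝ, 0 < η → ∃ c0 : ℝ, 0 < c0 ∧ ∀ c : ℝ, 0 < c → c ≤ c0 →
    dimH (KS c) ≤ ENNReal.ofReal (1 - (1 - η) * (2 * c / Z3))

end ExOrd
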