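import Pool.Agent.Lib.MP_a94b90_nt.ES.Stmt
import Pool.Agent.Lib.MP_a94b90_nt.ED.TR

/-! ES: nodes that carry a dual vector of a given stratum are rare. -/

namespace ExOrd
open Set

namespace SStrat

/-- moving a dual vector from `x` to a nearby point `y`. -/
theorem move {x y : ℝ} {u v w a ν d : ℤ} (hu : |(u : ℝ)| ≤ P a) (h1 : |(u : ℝ) * x - v| ≤ P ν)
    (h2 : |(u : ℝ) * x ^ 2 - 2 * v * x + w| ≤ P ν) (hd : |y - x| ≤ P d) (k1 : ν ≤ a + d)
    (k2 : d + 1 ≤ 0) (k3 : a + 2 * d ≤ ν) :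
    |(u : ℝ) * y - v| ≤ P (a + d + 1) ∧ |(u : ℝ) * y ^ 2 - 2 * v * y + w| ≤ P (ν + 2) := by
  have e1 : (u : ℝ) * y - v = (u * x - v) + u * (y - x) := by ring
  have e2 : (u : ℝ) * y ^ 2 - 2 * v * y + w =
      ((u * x ^ 2 - 2 * v * x + w) + 2 * ((u * x - v) * (y - x))) + u * (y - x) * (y - x) := by
    ring
  have m1 : |(u : ℝ) * (y - x)| ≤ P (a + d) := mul_le_P hu hd le_rfl
  have m2 : |((u : ℝ) * x - v) * (y - x)| ≤ P (ν + d) := mul_le_P h1 hd le_rfl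
  have m3 : |2 * (((u : ℝ) * x - v) * (y - x))| ≤ P ν := two_mul_le_P m2 (by omega)
  have m4 : |(u : ℝ) * (y - x) * (y - x)| ≤ P ν := mul_le_P m1 hd (by omega)
  refine ⟨?_, ?_⟩
  · rw [e1]; exact add_le_P h1 m1 (by omega) (by omega)
  · rw [e2]
    exact add_le_P (add_le_P h2 m3 (c := ν + 1) (by omega) (by omega)) m4 (by omega) (by omega)

end SStrat

theorem strat (h : DualCntStmt) : StratStmt := by
  classical
  intro x0 κ C0 b i A z T hκ hx0 hK hb hi hN hz hT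
  obtain ⟨m0, hm0⟩ : ∃ m0 : ℕ, m0 = min z (κ / 3 + C0) := ⟨_, rfl⟩
  have hV : ∀ p ∈ T, ∃ V : ℤ × ℤ × ℤ, ∃ x ∈ Node i p, P (2 * i + 3 - z) ≤ |(V.1 : ℝ)| ∧
      |(V.1 : ℝ)| ≤ P (2 * i + 4 - z) ∧ |(V.1 : ℝ) * x - V.2.1| ≤ P (8 - κ - i + 2 * m0) ∧
      |(V.1 : ℝ) * x ^ 2 - 2 * V.2.1 * x + V.2.2| ≤ P (8 - κ - i + 2 * m0) := by
    intro p hp
    obtain ⟨x, hx, u, v, w, k⟩ := (hT p hp).2
    rw [← hm0] at k
    exact ⟨(u, v, w), x, hx, k⟩
  choose! V hV using hV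
  obtain ⟨ρ, hρ⟩ : ∃ ρ : ℕ, ρ = (6 - κ + 2 * m0 + z : ℤ).toNat := ⟨_, rfl⟩
  obtain ⟨G, hG⟩ : ∃ G : ℕ, G = 2 * (i - b) + κ + 20 := ⟨_, rfl⟩
  have hS := h (2 * i + 4 - z) (2 * i + 4 - z + -3 * b + 1) (8 - κ - i + 2 * m0 + 2) G x0
    (T.image V) (fun a b' c hB => hN a b' c (hB.mono (by omega) (by omega) (by omega)))
    (fun p q t k1 k2 k3 => tr κ ((2 * i + 4 - z - G + 1) / 2 : ℤ).toNat
      (2 * i + 4 - z + -3 * b + 2 - G) x0 p q t hK (le_P k1 (by omega)) (le_P k2 (by omega))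
      (le_P k3 (by omega)) (by omega))
    (by
      intro W hW
      obtain ⟨p, hp, rfl⟩ := Finset.mem_image.1 hW
      obtain ⟨x, hx, _, k2, k3, k4⟩ := hV p hp
      have hx' : x ∈ Node b A := by
        have := node_sub b (i - b) p (by rwa [show b + (i - b) = i by omega])
        rwa [(hT p hp).1] at this
      exact ⟨k2, SStrat.move k2 k3 k4 (node_dist hx0 hx') (by omega) (by omega) (by omega)⟩)
  have hF : ∀ W ∈ T.image V, ((T.filter fun p => V p = W).card : ℝ) ≤ P (ρ + 2) := by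
    intro W hW
    obtain ⟨p0, hp0, rfl⟩ := Finset.mem_image.1 hW
    obtain ⟨_, _, k1, _⟩ := hV p0 hp0
    refine diam_P (j := i)
      (E := fun x => |((V p0).1 : ℝ) * x - (V p0).2.1| ≤ P (8 - κ - i + 2 * m0)) ?_ _ ?_
    · intro x y ex ey
      have := sub_le_P ex ey (c := 9 - κ - i + 2 * m0) (by omega) (by omega)
      rw [show ((V p0).1 : ℝ) * x - (V p0).2.1 - ((V p0).1 * y - (V p0).2.1) =
        (V p0).1 * (x - y) by ring] at this
      exact div_le_P k1 this (by omega)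
    · intro p hp
      obtain ⟨hp1, hp2⟩ := Finset.mem_filter.1 hp
      obtain ⟨x, hx, _, _, k3, _⟩ := hV p hp1
      exact ⟨x, hx, hp2 ▸ k3⟩
  have hc : (T.card : ℝ) ≤ (T.image V).card * P (ρ + 2) := by
    rw [Finset.card_eq_sum_card_image V T, Nat.cast_sum, ← nsmul_eq_mul]
    exact Finset.sum_le_card_nsmul _ _ _ hF
  refine hc.trans ((mul_le_mul_of_nonneg_right hS (P_pos _).le).trans ?_)
  rw [add_mul, ← P_add, ← P_add]
  exact P_add_le (by omega) (by omega)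

theorem close (h1 : CrossStmt) (h2 : StratStmt) : CloseStmt := by
  classical
  intro c x0 κ C0 b i A T hc1 hc2 hκ hx0 hK _ hb hi hN hT
  have hsub : T ⊆ (Finset.range (4 * κ)).biUnion fun z =>
      T.filter fun p => DualAt κ (κ / 3 + C0) i z p := by
    intro p hp
    obtain ⟨z, hz, k⟩ := h1 c κ C0 i p hc1 hc2 hκ (by omega) (hT p hp).2.1 (hT p hp).2.2
    exact Finset.mem_biUnion.2 ⟨z, Finset.mem_range.2 hz, Finset.mem_filter.2 ⟨hp, k⟩⟩
  have k1 : (T.card : ℝ) ≤ ∑ z ∈ Finset.range (4 * κ),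
      ((T.filter fun p => DualAt κ (κ / 3 + C0) i z p).card : ℝ) := by
    exact_mod_cast (Finset.card_le_card hsub).trans Finset.card_biUnion_le
  refine k1.trans ((Finset.sum_le_card_nsmul _ _ _ fun z hz =>
    h2 x0 κ C0 b i A z _ hκ hx0 hK hb hi hN (Finset.mem_range.1 hz) fun p hp =>
      ⟨(hT p (Finset.mem_filter.1 hp).1).1, (Finset.mem_filter.1 hp).2⟩).trans ?_)
  rw [Finset.card_range, nsmul_eq_mul]
  push_cast
  exact le_rfl

end ExOrd
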